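import Pool.Agent.H62FV.Tower

/-!
# Products with arbitrary bracketings
-/

set_option autoImplicit false
set_option linter.unusedSectionVars false

open CategoryTheory AlgebraicGeometry Finset

universe u v u₀ v₀

namespace Pool.Agent.H62FV

open Pool.Agent.H914 Pool.Agent.H914.VarClass Pool.Agent.H914.VarClass.Obj
  Pool.Agent.H914.WeilCohomology Pool.Agent.H281R3.HT Pool.Agent.W552 Pool.Agent.TH132.A
  Pool.Agent.H24HS

variable {k : Type u} [Field k] {𝒱 : VarClass k} {ops : CycleOps 𝒱}
  {W : WeilCohomology.{u, v} ops}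

lemma covers_assoc (P Q R : Polarized 𝒱) :
    Covers W ((P.prod ops Q).prod ops R) (P.prod ops (Q.prod ops R)) := by
  set g : ((P.X.prod Q.X).prod R.X) ⟶ (P.X.prod (Q.X.prod R.X)) :=
    Obj.lift (fst (P.X.prod Q.X) R.X ≫ fst P.X Q.X)
      (Obj.lift (fst (P.X.prod Q.X) R.X ≫ snd P.X Q.X) (snd (P.X.prod Q.X) R.X)) with hg
  have e1 : ∀ a, W.map g (W.map (fst P.X (Q.X.prod R.X)) a) =
      W.map (fst (P.X.prod Q.X) R.X) (W.map (fst P.X Q.X) a) := by
    intro a
    rw [← W.map_comp, hg, Obj.lift_fst, W.map_comp]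
  have e2 : ∀ a, W.map g (W.map (snd P.X (Q.X.prod R.X)) (W.map (fst Q.X R.X) a)) =
      W.map (fst (P.X.prod Q.X) R.X) (W.map (snd P.X Q.X) a) := by
    intro a
    rw [← W.map_comp, ← W.map_comp, hg, Obj.lift_snd, Obj.lift_fst, W.map_comp]
  have e3 : ∀ a, W.map g (W.map (snd P.X (Q.X.prod R.X)) (W.map (snd Q.X R.X) a)) =
      W.map (snd (P.X.prod Q.X) R.X) a := by
    intro a
    rw [← W.map_comp, ← W.map_comp, hg, Obj.lift_snd, Obj.lift_snd]
  refine ⟨?_, g, ⟨1, one_pos, ?_⟩, ?_⟩
  · change P.X.dim + Q.X.dim + R.X.dim = P.X.dim + (Q.X.dim + R.X.dim)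
    ring
  · change W.push g 1 = ((1 : ℚ) : W.K) • (1 : W.H (P.X.prod (Q.X.prod R.X)))
    apply W.tr_ext
    intro c
    rw [W.tr_push, one_mul, Rat.cast_one, one_smul, one_mul]
    refine W.kunneth_induction (p := fun c => W.tr ((P.X.prod Q.X).prod R.X) (W.map g c) =
      W.tr (P.X.prod (Q.X.prod R.X)) c) ?_ ?_ c
    · intro a b ha hb
      rw [map_add, map_add, ha, hb, map_add]
    · intro i j a _ d _
      refine W.kunneth_induction (p := fun d => W.tr ((P.X.prod Q.X).prod R.X)
        (W.map g (W.map (fst P.X (Q.X.prod R.X)) a * W.map (snd P.X (Q.X.prod R.X)) d)) =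
          W.tr (P.X.prod (Q.X.prod R.X))
            (W.map (fst P.X (Q.X.prod R.X)) a * W.map (snd P.X (Q.X.prod R.X)) d)) ?_ ?_ d
      · intro x y hx hy
        rw [map_add (W.map (snd P.X (Q.X.prod R.X))), mul_add, map_add, map_add, map_add, hx, hy]
      · intro i' j' b _ e _
        rw [map_mul (W.map g), map_mul (W.map (snd P.X (Q.X.prod R.X))), map_mul (W.map g), e1,
          e2, e3, ← mul_assoc, ← map_mul (W.map (fst (P.X.prod Q.X) R.X)), W.tr_prod, W.tr_prod,
          ← map_mul (W.map (snd P.X (Q.X.prod R.X))), W.tr_prod, W.tr_prod, mul_assoc]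
  · change W.cl ((P.X.prod Q.X).prod R.X) (ops.pull (fst (P.X.prod Q.X) R.X)
        (ops.pull (fst P.X Q.X) P.D + ops.pull (snd P.X Q.X) Q.D) +
        ops.pull (snd (P.X.prod Q.X) R.X) R.D) =
      W.map g (W.cl (P.X.prod (Q.X.prod R.X)) (ops.pull (fst P.X (Q.X.prod R.X)) P.D +
        ops.pull (snd P.X (Q.X.prod R.X)) (ops.pull (fst Q.X R.X) Q.D +
          ops.pull (snd Q.X R.X) R.D)))
    simp only [map_add, W.cl_pull, e1, e2, e3]
    exact add_assoc _ _ _

lemma tower_append (P : Polarized 𝒱) (L : List (Polarized 𝒱)) (Q : Polarized 𝒱) :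
    tower ops P (L ++ [Q]) = (tower ops P L).prod ops Q := by
  induction L generalizing P with
  | nil => rfl
  | cons R L ih => exact ih _

/-- The product of two towers is covered by a tower. -/
lemma covers_tower_prod (P Q : Polarized 𝒱) (L L' : List (Polarized 𝒱)) :
    Covers W (tower ops P (L ++ Q :: L')) ((tower ops P L).prod ops (tower ops Q L')) := by
  induction L' using List.reverseRecOn with
  | nil =>
    rw [tower_append]
    exact covers_refl _
  | append_singleton L' R ih =>
    rw [tower_append, ← List.cons_append, ← List.append_assoc, tower_append]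
    exact covers_trans (covers_prod ih (covers_refl R)) (covers_assoc _ _ _)

/-- Every iterated product is covered by a tower. -/
lemma exists_tower {ι : Type*} {B : ι → Polarized 𝒱} {Q : Polarized 𝒱} (hQ : IsProduct ops B Q) :
    ∃ (i : ι) (L : List ι), Covers W (tower ops (B i) (L.map B)) Q := by
  induction hQ with
  | base i => exact ⟨i, [], covers_refl _⟩
  | prod _ _ ih ih' =>
    obtain ⟨i, L, h⟩ := ih
    obtain ⟨j, L', h'⟩ := ih'
    refine ⟨i, L ++ j :: L', ?_⟩
    rw [List.map_append, List.map_cons]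
    exact covers_trans (covers_tower_prod _ _ _ _) (covers_prod h h')

end Pool.Agent.H62FV
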