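import Pool.Agent.H916T.Defs

/-!
# Degrees of Fermat varieties
-/

set_option autoImplicit false

namespace Pool.Agent.H62FS

open Pool.Agent.H916T

/-- The multiset `s` of residues modulo `m` is *reached*: after raising the degree to a suitable
multiple `N * m` prime to `p` it belongs to the smallest family of multisets which contains the Tate
characters of the surfaces, Aoki's standard characters and the pairs `{a, -a}`, `a ≠ 0`, and which
is closed under unions and under removing a pair `{a, -a}`. -/
def Reached (p m : ℕ) (s : Multiset (ZMod m)) : Prop :=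
  ∃ N : ℕ, 0 < N ∧ p.Coprime N ∧
    Generated (N * m)
      (fun t => SurfaceTate p (N * m) t ∨ ∃ q : ℕ, q.Prime ∧ q ∣ N * m ∧ Standard q (N * m) t)
      (s.map fun a => ((N * a.val : ℕ) : ZMod (N * m)))

/-- All prime divisors of `m` are `2`, `a` or `b`. -/
def PrimesIn (m a b : ℕ) : Prop := ∀ r : ℕ, r.Prime → r ∣ m → r = 2 ∨ r = a ∨ r = b

/-- The exponent of two in the order of `p` modulo `q`. -/
noncomputable def twoPart (p q : ℕ) : ℕ := padicValNat 2 (orderOf ((p : ℕ) : ZMod q))

/-- **The degrees.**
* `cofactors`: `m = m'`, or `m = 2 * m'` and `m'` is odd, and for every prime `q ∣ m'` some power of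
  `p` is `-1` modulo the prime-to-`q` part of `m'`. For example `m` is a prime power or twice an odd
  prime power, or some power of `p` is `-1` modulo `m`.
* `five`, `seven`, `legendre`, `eleven`, `thirteen`: the prime divisors of `m` lie in `{2, 3, 5}`,
  in `{2, 3, 7}`, in `{2, q}` for a prime `q` congruent to `7` modulo `8`, or `4` does not divide
  `m` and they lie in `{2, 3, 11}` or in `{2, 3, 13}`.
* `residues`: `p` is a square modulo every odd prime dividing `m`, any two different odd primes
  dividing `m` are squares modulo each other, an odd prime `r ∣ m` has odd order modulo an odd prime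
  `q ∣ m` whenever the order of `p` modulo `r` is divisible by a higher power of two than the order
  of `p` modulo `q`, and if `4 ∣ m`, two has odd order modulo every odd prime dividing `m`.
* `reached`: every nonempty Tate character of degree `m` is reached. -/
inductive GoodDegree (p m : ℕ) : Prop
  | cofactors (m' e : ℕ) (he : e * m' = m) (hcase : e = 1 ∨ (e = 2 ∧ Odd m'))
      (h : ∀ q : ℕ, q.Prime → q ∣ m' → ∃ j : ℕ, (p : ZMod (m' / q ^ m'.factorization q)) ^ j = -1)
  | five (h : PrimesIn m 3 5)
  | seven (h : PrimesIn m 3 7)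
  | legendre (q : ℕ) (hq : q.Prime) (hq7 : q % 8 = 7) (h : PrimesIn m q q)
  | eleven (h4 : ¬ 4 ∣ m) (h : PrimesIn m 3 11)
  | thirteen (h4 : ¬ 4 ∣ m) (h : PrimesIn m 3 13)
  | residues (hp2 : ∀ q : ℕ, q.Prime → Odd q → q ∣ m → IsSquare ((p : ℕ) : ZMod q))
      (hQR : ∀ q r : ℕ, q.Prime → r.Prime → Odd q → Odd r → q ∣ m → r ∣ m → q ≠ r →
        IsSquare ((r : ℕ) : ZMod q))
      (hord : ∀ q r : ℕ, q.Prime → r.Prime → Odd q → Odd r → q ∣ m → r ∣ m → q ≠ r →
        twoPart p q < twoPart p r → Odd (orderOf ((r : ℕ) : ZMod q)))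
      (h4 : 4 ∣ m → ∀ q : ℕ, q.Prime → Odd q → q ∣ m → Odd (orderOf ((2 : ℕ) : ZMod q)))
  | reached (h : ∀ s : Multiset (ZMod m), IsTate p m s → s ≠ 0 → Reached p m s)

end Pool.Agent.H62FS
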