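import Pool.Agent.H62FV.Assoc
import Pool.Agent.H62FV.GoodDeg
import Pool.Agent.H914R2.CPart

/-!
# From the axioms to the working hypotheses
-/

set_option autoImplicit false
set_option linter.unusedSectionVars false

open CategoryTheory AlgebraicGeometry Finset

universe u v

namespace Pool.Agent.H62FV

open Pool.Agent.H914 Pool.Agent.H914.VarClass Pool.Agent.H914.VarClass.Obj
  Pool.Agent.H914.WeilCohomology Pool.Agent.H281R3.HT Pool.Agent.W552 Pool.Agent.TH132.A
  Pool.Agent.H24HS

variable {k : Type u} [Field k] {𝒱 : VarClass k} {ops : CycleOps 𝒱}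
  {W : WeilCohomology.{u, v} ops} [IsAlgClosed W.K] {σ : W.K →+* ℂ} {F : Family 𝒱} {m : ℕ}
  [NeZero m]

lemma isEigen_iff {N : ℕ} {a : Fin N → ZMod m} {x : W.H (F.X m N)} :
    H62FS.IsEigen W σ F a x ↔ Eig σ (rho W F m N) a x := by
  constructor
  · intro h g
    obtain ⟨c, hc, hx⟩ := h g
    have h1 : c = chi σ m (pr a g) := by
      apply σ.injective
      rw [hc, sigma_chi]
      rfl
    rw [← h1]
    exact hx
  · intro h g
    exact ⟨chi σ m (pr a g), sigma_chi _ _, h g⟩

section Fermat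

variable (S : H62FS.IsFermat W σ F m)

include S

lemma act_of (N : ℕ) : IsAct (rho W F m N) where
  zero := by
    apply LinearMap.ext
    intro x
    exact S.act_zero N x
  add g h := by
    apply LinearMap.ext
    intro x
    exact S.act_add N g h x

/-- The components of a class of degree `i`. -/
lemma comp_of {N : ℕ} (hN : 3 ≤ N) {i : ℕ} (a : Fin N → ZMod m) {x : W.H (F.X m N)}
    (hx : x ∈ W.gr (F.X m N) i) (h0 : prj σ (rho W F m N) a x ≠ 0) :
    (a = 0 ∧ ∃ j, 2 * j = i ∧ ∃ c : W.K, prj σ (rho W F m N) a x = c • W.cl _ (F.D m N) ^ j) ∨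
      (Adm a ∧ i = (F.X m N).dim) :=
  S.classes N hN i a _ (prj_gr a hx) (isEigen_iff.2 (prj_eig (act_of S N) a x)) h0

lemma even_of {N : ℕ} (hN : 3 ≤ N) {j : ℕ} (hj : 2 * j ≠ (F.X m N).dim) {x : W.H (F.X m N)}
    (hx : x ∈ W.gr (F.X m N) (2 * j)) : ∃ c : W.K, x = c • W.cl _ (F.D m N) ^ j := by
  classical
  have h1 : prj σ (rho W F m N) 0 x = x := by
    conv_rhs => rw [← sum_prj (σ := σ) (act_of S N) x]
    rw [sum_eq_single (0 : Fin N → ZMod m)]
    · intro b _ hb
      by_contra h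
      rcases comp_of S hN b hx h with h' | h'
      · exact hb h'.1
      · exact hj h'.2
    · intro h
      exact absurd (mem_univ _) h
  by_cases h0 : prj σ (rho W F m N) 0 x = 0
  · exact ⟨0, by rw [← h1, h0, zero_smul]⟩
  · rcases comp_of S hN 0 hx h0 with ⟨-, j', hj', c, hc⟩ | h'
    · obtain rfl : j' = j := by omega
      exact ⟨c, by rw [← hc, h1]⟩
    · exact absurd h'.2 hj

lemma odd_of {N : ℕ} (hN : 3 ≤ N) {i : ℕ} (hi : Odd i) (hd : i ≠ (F.X m N).dim) :
    W.gr (F.X m N) i = ⊥ := by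
  classical
  rw [Submodule.eq_bot_iff]
  intro x hx
  rw [← sum_prj (σ := σ) (act_of S N) x]
  refine sum_eq_zero fun b _ => ?_
  by_contra h
  rcases comp_of S hN b hx h with ⟨-, j, hj, -⟩ | h'
  · obtain ⟨t, ht⟩ := hi
    omega
  · exact hd h'.2

lemma tr_of {N : ℕ} (hN : 3 ≤ N) : ∃ q : ℚ, 0 < q ∧
    W.tr (F.X m N) (W.cl _ (F.D m N) ^ (F.X m N).dim) = q := by
  refine ⟨_, S.deg N hN, ?_⟩
  have h1 := divPow_mem (ops := ops) (S.cyc N hN) (F.X m N).dim (F.X m N).V.fundCycle_mem
  rw [zero_add] at h1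
  rw [← W.tr_cl h1, cl_divPow, W.cl_fund, LinearMap.pow_mulLeft, LinearMap.mulLeft_apply, mul_one]

lemma xi_ne {N : ℕ} (hN : 3 ≤ N) {j : ℕ} (hj : j ≤ (F.X m N).dim) :
    W.cl _ (F.D m N) ^ j ≠ 0 := by
  intro h
  obtain ⟨q, hq, h1⟩ := tr_of S hN
  rw [← Nat.sub_add_cancel hj, pow_add, h, mul_zero, map_zero] at h1
  exact hq.ne' (by exact_mod_cast h1.symm)

lemma hl_of {N : ℕ} (hN : 3 ≤ N) : HardLefschetz W (F.X m N) (F.D m N) := by
  intro i hi
  rcases hi.lt_or_eq with hlt | rfl
  · rcases Nat.even_or_odd i with h | h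
    · obtain ⟨j, rfl⟩ := h
      rw [← two_mul] at hi hlt ⊢
      have hL : ∀ c : W.K, (LinearMap.mulLeft W.K (W.cl _ (F.D m N)) ^ ((F.X m N).dim - 2 * j))
          (c • W.cl _ (F.D m N) ^ j) = c • W.cl _ (F.D m N) ^ ((F.X m N).dim - j) := by
        intro c
        rw [LinearMap.pow_mulLeft, map_smul, LinearMap.mulLeft_apply, ← pow_add]
        congr 2
        omega
      constructor
      · intro a ha h0
        obtain ⟨c, rfl⟩ := even_of S hN hlt.ne ha
        rw [hL] at h0
        rcases smul_eq_zero.1 h0 with h1 | h1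
        · rw [h1, zero_smul]
        · exact absurd h1 (xi_ne S hN (by omega))
      · intro b hb
        rw [show 2 * (F.X m N).dim - 2 * j = 2 * ((F.X m N).dim - j) by omega] at hb
        obtain ⟨c, rfl⟩ := even_of S hN (by omega) hb
        exact ⟨c • W.cl _ (F.D m N) ^ j, Submodule.smul_mem _ _ (xi_pow_mem (S.cyc N hN) j), hL c⟩
    · have h2 : Odd (2 * (F.X m N).dim - i) := by
        obtain ⟨t, ht⟩ := h
        exact ⟨(F.X m N).dim - t - 1, by omega⟩
      rw [odd_of S hN h hlt.ne, odd_of S hN h2 (by omega)]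
      exact ⟨fun a ha _ => (Submodule.mem_bot _).1 ha,
        fun b hb => ⟨0, Submodule.zero_mem _, by rw [map_zero, (Submodule.mem_bot _).1 hb]⟩⟩
  · rw [Nat.sub_self, pow_zero, show 2 * (F.X m N).dim - (F.X m N).dim = (F.X m N).dim by omega]
    exact ⟨fun a _ h0 => h0, fun b hb => ⟨b, hb, rfl⟩⟩

lemma lefB_of {N : ℕ} (hN : 3 ≤ N) : LefschetzB W (F.X m N) (F.D m N) := by
  refine lefschetzB_of_inj (S.cyc N hN) (hl_of S hN) ?_
  intro c hc
  rcases Nat.eq_zero_or_pos c with rfl | hc0
  · refine ⟨1, ?_, fun a _ h => h⟩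
    have h1 := Submodule.subset_span (s := {y | ROp W (F.X m N) 0 y}) (R := W.K)
      (rop_opAlg (W := W) (X := F.X m N)).one
    simpa using mem_KS_iff.1 h1
  · rcases Nat.even_or_odd ((F.X m N).dim + c) with h | h
    · obtain ⟨t, ht⟩ := h
      obtain ⟨q, hq, hqt⟩ := tr_of S hN
      have hmem : W.cl _ (F.D m N) ^ ((F.X m N).dim - t) ∈
          spanCycles W (F.X m N) (((F.X m N).dim - t : ℕ) : ℤ) := by
        refine Submodule.subset_span ⟨(F.X m N).dim - t, rfl, divPow ops (F.D m N)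
          ((F.X m N).dim - t) (F.X m N).V.fundCycle, ?_, ?_⟩
        · have h1 := divPow_mem (ops := ops) (S.cyc N hN) ((F.X m N).dim - t)
            (F.X m N).V.fundCycle_mem
          rwa [zero_add] at h1
        · rw [cl_divPow, W.cl_fund, LinearMap.pow_mulLeft, LinearMap.mulLeft_apply, mul_one]
      have h2 := rankOne_mem hmem hmem
      refine ⟨_, KOp.cast h2 (by omega), ?_⟩
      intro a ha h0
      rw [ht, ← two_mul] at ha
      obtain ⟨x, rfl⟩ := even_of S hN (by omega) ha
      rw [LinearMap.smulRight_apply, LinearMap.flip_apply, map_smul, LinearMap.smul_apply,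
        bil_apply, ← pow_add, show t + ((F.X m N).dim - t) = (F.X m N).dim by omega, hqt] at h0
      rcases smul_eq_zero.1 h0 with h3 | h3
      · rcases smul_eq_zero.1 h3 with h4 | h4
        · rw [h4, zero_smul]
        · exact absurd (by exact_mod_cast h4) hq.ne'
      · exact absurd h3 (xi_ne S hN (by omega))
    · refine ⟨0, Submodule.zero_mem _, fun a ha _ => ?_⟩
      rw [odd_of S hN h (by omega)] at ha
      exact (Submodule.mem_bot _).1 ha

theorem fermat_of : IsFermat W σ F m where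
  dim := S.dim
  cyc := S.cyc
  deg := S.deg
  hl N hN := hl_of S hN
  lefB N hN := lefB_of S hN
  act_zero := S.act_zero
  act_add := S.act_add
  act_D := S.act_D
  even N hN j hj x hx := even_of S hN hj hx
  odd N hN i hi hd := odd_of S hN hi hd
  invariants N hN x hx he := by
    by_cases h0 : x = 0
    · exact Or.inl h0
    · rcases S.classes N hN _ 0 x hx (isEigen_iff.2 he) h0 with ⟨-, j, hj, c, hc⟩ | h
      · exact Or.inr ⟨j, hj, c, hc⟩
      · exact absurd rfl (h.1.1 ⟨0, by omega⟩)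
  absent N hN a ha hna x hx he := by
    by_contra h0
    rcases S.classes N hN _ a x hx (isEigen_iff.2 he) h0 with h | h
    · exact ha h.1
    · exact hna h.1
  line N hN a ha := by
    obtain ⟨v, hv, hv0, hve, hl⟩ := S.line N hN a ha
    exact ⟨v, hv, hv0, isEigen_iff.1 hve, fun x _ hx => hl x (isEigen_iff.2 hx)⟩

end Fermat

omit [IsAlgClosed W.K] [NeZero m] in
/-- A morphism which multiplies the intersection numbers. -/
lemma tr_of_degree {X Y : 𝒱.Obj} {f : X ⟶ Y} {δ : ℚ} (h : H62FS.HasDegree W f δ) (x : W.H Y) :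
    W.tr X (W.map f x) = δ * W.tr Y x := by
  have h1 : W.tr X (W.map f x * W.map f 1) = δ * W.tr Y (x * 1) := h x 1
  rwa [map_one, mul_one, mul_one] at h1

omit [IsAlgClosed W.K] [NeZero m] in
theorem maps_of {M : Maps F} (S : H62FS.IsMaps W M m) : IsMaps W F M m where
  perm_act := S.perm_act
  perm_tr N hN π x := by rw [tr_of_degree (S.perm_deg N hN π), Rat.cast_one, one_mul]
  cone_cyc := S.cone_cyc
  cone_act N _ g s t ε v := S.cone_act N (by assumption) g s t ε v
  cone_tr := S.cone_num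
  join_cyc := S.join_cyc
  join_act := S.join_act
  join_tr := S.join_num

omit [IsAlgClosed W.K] [NeZero m] in
theorem pow_of {M : Maps F} {ν : ℕ} (S : H62FS.IsPow W M ν m) : IsPow W F M ν m where
  act := S.act
  cl N hN := by
    have h1 := S.cl N hN
    change W.map (M.pow ν m N) (W.cl _ (F.D m N)) = W.cl _ ((ν : ℚ) • F.D (ν * m) N) at h1
    rw [h1, W.cl_smul, Rat.cast_natCast]
  tr N hN x := by
    rw [tr_of_degree (S.deg N hN)]
    push_cast
    rfl

section Arith

variable (hF : IsFermat W σ F m)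

include hF

lemma occurs_iff {N : ℕ} (hN : 3 ≤ N) {a : Fin N → ZMod m} {x : W.H (F.X m N)} {r : ℕ}
    (hx : x ∈ W.gr (F.X m N) (2 * r)) :
    H62FS.Occurs W σ F a x ↔ component W σ F m N a x ≠ 0 := by
  constructor
  · rintro ⟨v, hv, hne⟩ h0
    apply hne
    have h1 : prj σ (rho W F m N) (-a) v = v := by
      classical
      rw [prj_of_eig (isEigen_iff.1 hv), if_pos rfl]
    change W.tr _ (v * x) = 0
    rw [← h1, ← bil_apply, prj_form (rho_act hF N) (bil_rho hF hN), neg_neg]
    have h2 : prj σ (rho W F m N) a x = 0 := h0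
    rw [h2, map_zero]
  · intro hne
    have h1 : ∃ y, W.tr _ (prj σ (rho W F m N) a x * y) ≠ 0 := by
      by_contra hno
      push Not at hno
      exact hne (W.nondeg _ hno)
    obtain ⟨y, hy⟩ := h1
    refine ⟨prj σ (rho W F m N) (-a) y, isEigen_iff.2 (prj_eig (rho_act hF N) _ _), ?_⟩
    rw [← bil_apply, prj_form (rho_act hF N) (bil_rho hF hN), bil_apply,
      W.even_comm hx] at hy
    exact hy

/-- The linear combinations of the translates of a cycle are cycles. -/
lemma isCyc_combi {N r : ℕ} {z : (F.X m N).Cycles} (hz : (F.X m N).IsCyc r z)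
    (c : (Fin N → ZMod m) → ℚ) :
    (F.X m N).IsCyc r (∑ g, c g • ops.pull (F.act m N g) z) := by
  classical
  have h3 : ∀ s : Finset (Fin N → ZMod m),
      (F.X m N).IsCyc r (∑ g ∈ s, c g • ops.pull (F.act m N g) z) := by
    intro s
    induction s using Finset.induction_on with
    | empty => rw [sum_empty]; exact SmVar.IsCyc.zero _ _
    | insert g s hg ih =>
      rw [sum_insert hg]
      exact ((ops.pull_mem (F.act m N g) hz).smul _).add ih
  exact h3 univ

theorem arith_of {p : ℕ} (S : H62FS.IsArith W σ F p m) : IsArith W σ F p m where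
  tate N r hN _ z hz a ha h :=
    S.tate N r hN z hz a ha ((occurs_iff hF hN (W.cl_mem hz)).2 h)
  surface a ha := by
    obtain ⟨z, hz, h⟩ := S.surface a ha
    exact ⟨z, hz, (occurs_iff hF (by norm_num) (W.cl_mem hz)).1 h⟩
  index z hz c hp h0 := by
    have h1 := isCyc_combi hF hz c
    have hdim := hF.dim 4 (by norm_num)
    refine S.index _ h1 ⟨?_, hp⟩ h0
    have h2 := W.cl_mem h1
    rw [show 2 * 1 = (F.X m 4).dim by omega] at h2
    exact h2
  standard t ht htm a ha := by
    obtain ⟨z, hz, h, hH⟩ := S.standard t ht htm a ha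
    have hN : 3 ≤ 2 * t + 2 := by
      have := ht.two_le
      omega
    refine ⟨z, hz, (occurs_iff hF hN (W.cl_mem hz)).1 h, fun c hp h0 => ?_⟩
    have h1 := isCyc_combi hF hz c
    have hdim := hF.dim (2 * t + 2) hN
    refine hH c ⟨?_, hp⟩ h0
    have h2 : ∀ i, 2 * t = i → W.cl (F.X m (2 * t + 2))
        (∑ g, c g • ops.pull (F.act m (2 * t + 2) g) z) ∈ W.gr (F.X m (2 * t + 2)) i := by
      intro i hi
      subst hi
      exact W.cl_mem h1
    exact h2 _ (by omega)

end Arith

end Pool.Agent.H62FV
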