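import Mathlib

/-!
# Characters of products of cyclic groups with values in an algebraically closed field
-/

open Finset
open scoped ComplexConjugate

namespace Pool.Agent.H62FV

section Chi

variable {K : Type*} [Field K] [CharZero K]

/-- The element of the field `K`, embedded into the complex numbers by `σ`, which corresponds to the
root of unity `exp (2 π i j / m)`. -/
noncomputable def chi (σ : K →+* ℂ) (m : ℕ) [NeZero m] (j : ZMod m) : K :=
  Function.invFun σ (ZMod.stdAddChar j)

lemma exists_root [IsAlgClosed K] (σ : K →+* ℂ) {m : ℕ} [NeZero m] {w : ℂ} (hw : w ^ m = 1) :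
    ∃ x : K, σ x = w := by
  have : NeZero (m : K) := ⟨Nat.cast_ne_zero.2 (NeZero.ne m)⟩
  obtain ⟨ζ, hζ⟩ := HasEnoughRootsOfUnity.exists_primitiveRoot K m
  have h1 : IsPrimitiveRoot (σ ζ) m := hζ.map_of_injective σ.injective
  obtain ⟨i, _, hi⟩ := h1.eq_pow_of_pow_eq_one hw
  exact ⟨ζ ^ i, by rw [map_pow, hi]⟩

lemma std_pow {m : ℕ} [NeZero m] (j : ZMod m) : (ZMod.stdAddChar j : ℂ) ^ m = 1 := by
  rw [← AddChar.map_nsmul_eq_pow, nsmul_eq_mul, ZMod.natCast_self, zero_mul,
    AddChar.map_zero_eq_one]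

lemma sigma_chi [IsAlgClosed K] (σ : K →+* ℂ) {m : ℕ} [NeZero m] (j : ZMod m) :
    σ (chi σ m j) = ZMod.stdAddChar j := by
  obtain ⟨x, hx⟩ := exists_root σ (std_pow j)
  unfold chi
  rw [← hx, Function.leftInverse_invFun σ.injective x]

lemma conj_std {m : ℕ} [NeZero m] (j : ZMod m) :
    conj (ZMod.stdAddChar j : ℂ) = ZMod.stdAddChar (-j) := by
  rw [AddChar.map_neg_eq_inv, ZMod.stdAddChar_apply, ← Circle.coe_inv, Circle.coe_inv_eq_conj]

variable [IsAlgClosed K] (σ : K →+* ℂ) {m : ℕ} [NeZero m]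

lemma conj_chi (j : ZMod m) : conj (σ (chi σ m j)) = σ (chi σ m (-j)) := by
  rw [sigma_chi, sigma_chi, conj_std]

lemma chi_add (i j : ZMod m) : chi σ m (i + j) = chi σ m i * chi σ m j := by
  apply σ.injective
  rw [map_mul, sigma_chi, sigma_chi, sigma_chi, AddChar.map_add_eq_mul]

lemma chi_zero : chi σ m 0 = 1 := by
  apply σ.injective
  rw [map_one, sigma_chi, AddChar.map_zero_eq_one]

lemma chi_neg_mul (j : ZMod m) : chi σ m (-j) * chi σ m j = 1 := by
  rw [← chi_add, neg_add_cancel, chi_zero]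

lemma chi_eq_one {j : ZMod m} (h : chi σ m j = 1) : j = 0 := by
  have h1 : (ZMod.stdAddChar j : ℂ) = 1 := by rw [← sigma_chi σ, h, map_one]
  apply ZMod.injective_stdAddChar
  rw [h1, AddChar.map_zero_eq_one]

/-- As an additive character. -/
noncomputable def chiC (m : ℕ) [NeZero m] : AddChar (ZMod m) K where
  toFun := chi σ m
  map_zero_eq_one' := chi_zero σ
  map_add_eq_mul' := chi_add σ

lemma sum_chi (c : ZMod m) : ∑ j : ZMod m, chi σ m (c * j) = if c = 0 then (m : K) else 0 := by
  split_ifs with h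
  · simp [h, chi_zero, ZMod.card]
  · have h3 := AddChar.sum_mulShift (R := ZMod m) (R' := K) (ψ := chiC σ m) c (by
      rw [AddChar.IsPrimitive]
      intro x hx h4
      apply hx
      have h5 := DFunLike.congr_fun h4 1
      rw [AddChar.mulShift_apply, mul_one, AddChar.one_apply] at h5
      exact chi_eq_one σ h5)
    rw [if_neg h] at h3
    rw [Nat.cast_zero] at h3
    rw [← h3]
    exact sum_congr rfl fun j _ => by rw [mul_comm]; rfl

end Chi

section Pr

variable {ι : Type*} [Fintype ι] {m : ℕ}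

/-- The pairing `∑ a i * g i`. -/
def pr (a g : ι → ZMod m) : ZMod m := ∑ i, a i * g i

lemma pr_add (a g h : ι → ZMod m) : pr a (g + h) = pr a g + pr a h := by
  simp [pr, mul_add, sum_add_distrib]

lemma pr_add_left (a b g : ι → ZMod m) : pr (a + b) g = pr a g + pr b g := by
  simp [pr, add_mul, sum_add_distrib]

lemma pr_zero (a : ι → ZMod m) : pr a 0 = 0 := by simp [pr]

lemma pr_zero_left (g : ι → ZMod m) : pr 0 g = 0 := by simp [pr]

lemma pr_neg (a g : ι → ZMod m) : pr a (-g) = - pr a g := by simp [pr]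

lemma pr_neg_left (a g : ι → ZMod m) : pr (-a) g = - pr a g := by simp [pr]

lemma pr_sub (a g h : ι → ZMod m) : pr a (g - h) = pr a g - pr a h := by
  rw [sub_eq_add_neg, pr_add, pr_neg, sub_eq_add_neg]

variable {K : Type*} [Field K] [CharZero K] [IsAlgClosed K] (σ : K →+* ℂ) [NeZero m]

/-- Orthogonality. -/
lemma sum_chi_pr [DecidableEq ι] (a : ι → ZMod m) :
    ∑ g : ι → ZMod m, chi σ m (pr a g) = if a = 0 then (m : K) ^ Fintype.card ι else 0 := by
  have h1 : ∀ g : ι → ZMod m, chi σ m (pr a g) = ∏ i, chi σ m (a i * g i) := by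
    intro g
    unfold pr
    have h0 : ∀ s : Finset ι, chi σ m (∑ i ∈ s, a i * g i) = ∏ i ∈ s, chi σ m (a i * g i) := by
      intro s
      classical
      induction s using Finset.induction_on with
      | empty => simp [chi_zero]
      | insert i s hi ih => rw [sum_insert hi, prod_insert hi, chi_add, ih]
    exact h0 univ
  rw [sum_congr rfl fun g _ => h1 g, ← Fintype.prod_sum (fun i j => chi σ m (a i * j))]
  have h2 : ∀ i, ∑ j : ZMod m, chi σ m (a i * j) = if a i = 0 then (m : K) else 0 := by
    intro i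
    split_ifs with h
    · simp [h, chi_zero, ZMod.card]
    · have h3 := AddChar.sum_mulShift (R := ZMod m) (R' := K) (ψ := chiC σ m) (a i) (by
        rw [AddChar.IsPrimitive]
        intro x hx h4
        apply hx
        have h5 := DFunLike.congr_fun h4 1
        rw [AddChar.mulShift_apply, mul_one, AddChar.one_apply] at h5
        exact chi_eq_one σ h5)
      rw [if_neg h] at h3
      rw [Nat.cast_zero] at h3
      rw [← h3]
      exact sum_congr rfl fun j _ => by rw [mul_comm]; rfl
  rw [prod_congr rfl fun i _ => h2 i]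
  split_ifs with h
  · subst h
    simp [Finset.card_univ]
  · obtain ⟨i, hi⟩ : ∃ i, a i ≠ 0 := by
      by_contra h3
      push Not at h3
      exact h (funext h3)
    exact prod_eq_zero (mem_univ i) (if_neg hi)

lemma sum_chi_pr' [DecidableEq ι] (g : ι → ZMod m) :
    ∑ a : ι → ZMod m, chi σ m (pr a g) = if g = 0 then (m : K) ^ Fintype.card ι else 0 := by
  rw [← sum_chi_pr σ g]
  exact sum_congr rfl fun a _ => by
    congr 1
    exact sum_congr rfl fun i _ => mul_comm _ _

end Pr

end Pool.Agent.H62FV
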