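import Pool.Agent.H24HS.Pk
import Pool.Agent.H24HS.Iso

/-!
# Operators on the first factor of a product of several factors
-/

set_option autoImplicit false
set_option linter.unusedSectionVars false

open CategoryTheory AlgebraicGeometry Finset

universe u v

namespace Pool.Agent.H62FV

open Pool.Agent.H914 Pool.Agent.H914.VarClass Pool.Agent.H914.VarClass.Obj
  Pool.Agent.H914.WeilCohomology Pool.Agent.H281R3.HT Pool.Agent.W552 Pool.Agent.TH132.A
  Pool.Agent.H24HS

variable {k : Type u} [Field k] {𝒱 : VarClass k} {ops : CycleOps 𝒱}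
  {W : WeilCohomology.{u, v} ops} {X Y Z U X' Y' : 𝒱.Obj}

section AOps

lemma AOp_map (g : X ⟶ Y) : AOp W Y X (W.map g).toLinearMap := by
  refine ⟨W.push (Obj.lift g (𝟙 X)) 1, AS.one.push _, ?_⟩
  apply LinearMap.ext
  intro y
  have e1 : Obj.lift g (𝟙 X) ≫ fst Y X = g := Obj.lift_fst _ _
  have e2 : Obj.lift g (𝟙 X) ≫ snd Y X = 𝟙 X := Obj.lift_snd _ _
  rw [corr_apply, ← W.push_mul, ← W.push_comp, ← W.map_comp, e1, e2, W.push_id, one_mul]
  rfl

lemma AOp_push (g : X ⟶ Y) : AOp W X Y (W.push g) := by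
  refine ⟨W.push (Obj.lift (𝟙 X) g) 1, AS.one.push _, ?_⟩
  apply LinearMap.ext
  intro y
  have e1 : Obj.lift (𝟙 X) g ≫ fst X Y = 𝟙 X := Obj.lift_fst _ _
  have e2 : Obj.lift (𝟙 X) g ≫ snd X Y = g := Obj.lift_snd _ _
  rw [corr_apply, ← W.push_mul, ← W.push_comp, ← W.map_comp, e1, e2, W.map_id, one_mul]

lemma AOp_mulLeft {c : W.H X} (hc : AS W X c) : AOp W X X (LinearMap.mulLeft W.K c) := by
  refine ⟨W.push (diag X) c, hc.push _, ?_⟩
  apply LinearMap.ext
  intro y
  rw [W.corr_diag, LinearMap.mulLeft_apply]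

lemma AOp_lft {u : W.H X →ₗ[W.K] W.H Y} (hu : AOp W X Y u) :
    AOp W (X.prod U) (Y.prod U) (lft W U u) := by
  obtain ⟨c, hc, rfl⟩ := hu
  have h1 : lft W U (W.corr c) = W.push (p23 X Y U) ∘ₗ
      LinearMap.mulLeft W.K (W.map (p12 X Y U) c) ∘ₗ (W.map (p13 X Y U)).toLinearMap := by
    apply LinearMap.ext
    intro z
    exact lft_corr c z
  rw [h1]
  exact (AOp_push _).comp ((AOp_mulLeft (hc.map _)).comp (AOp_map _))

end AOps

/-- A variety with a divisor and a lowering operator. -/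
structure Cx (W : WeilCohomology.{u, v} ops) where
  /-- the variety -/
  X : 𝒱.Obj
  /-- the divisor -/
  D : X.Cycles
  /-- the lowering operator -/
  f : Module.End W.K (W.H X)

/-- The product `((Z × U₁) × U₂) × ⋯`. -/
noncomputable def cObj : List (Cx W) → 𝒱.Obj → 𝒱.Obj
  | [], Z => Z
  | U :: L, Z => cObj L (Z.prod U.X)

/-- The sum of the divisors. -/
noncomputable def cDiv : (L : List (Cx W)) → {Z : 𝒱.Obj} → Z.Cycles → (cObj L Z).Cycles
  | [], _, D => D
  | U :: L, Z, D => cDiv L (Z := Z.prod U.X) (ops.pull (fst Z U.X) D + ops.pull (snd Z U.X) U.D)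

/-- The lowering operator. -/
noncomputable def cLow : (L : List (Cx W)) → {Z : 𝒱.Obj} → Module.End W.K (W.H Z) →
    Module.End W.K (W.H (cObj L Z))
  | [], _, f => f
  | U :: L, Z, f => cLow L (Z := Z.prod U.X) (extSum W f U.f)

/-- The operator `u ⊗ 1 ⊗ 1 ⊗ ⋯`. -/
noncomputable def cMap : (L : List (Cx W)) → {Z Z' : 𝒱.Obj} → (W.H Z →ₗ[W.K] W.H Z') →
    (W.H (cObj L Z) →ₗ[W.K] W.H (cObj L Z'))
  | [], _, _, u => u
  | U :: L, _, _, u => cMap L (lft W U.X u)

/-- The form. -/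
noncomputable abbrev cB (L : List (Cx W)) {Z : 𝒱.Obj} (D : Z.Cycles)
    (f : Module.End W.K (W.H Z)) : W.H (cObj L Z) →ₗ[W.K] W.H (cObj L Z) →ₗ[W.K] W.K :=
  bf W (cObj L Z) (cDiv L D) (cLow L f)

lemma cLw {L : List (Cx W)} (hL : ∀ U ∈ L, Lw W U.X U.D U.f) {D : Z.Cycles}
    {f : Module.End W.K (W.H Z)} (h : Lw W Z D f) : Lw W (cObj L Z) (cDiv L D) (cLow L f) := by
  induction L generalizing Z with
  | nil => exact h
  | cons U L ih =>
    exact ih (fun V hV => hL V (List.mem_cons_of_mem _ hV)) (h.prod (hL U List.mem_cons_self))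

lemma cFr {L : List (Cx W)} (hL : ∀ U ∈ L, Fr W U.X U.D U.f) {D : Z.Cycles}
    {f : Module.End W.K (W.H Z)} (h : Fr W Z D f) : Fr W (cObj L Z) (cDiv L D) (cLow L f) := by
  induction L generalizing Z with
  | nil => exact h
  | cons U L ih =>
    exact ih (fun V hV => hL V (List.mem_cons_of_mem _ hV)) (h.prod (hL U List.mem_cons_self))

lemma cMap_comp (L : List (Cx W)) (u : W.H X →ₗ[W.K] W.H Y) (u' : W.H Y →ₗ[W.K] W.H Z) :
    cMap L (u' ∘ₗ u) = cMap L u' ∘ₗ cMap L u := by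
  induction L generalizing X Y Z with
  | nil => rfl
  | cons U L ih =>
    rw [cMap, lft_comp]
    exact ih _ _

lemma cMap_comp_apply (L : List (Cx W)) (u : W.H X →ₗ[W.K] W.H Y) (u' : W.H Y →ₗ[W.K] W.H Z)
    (z : W.H (cObj L X)) : cMap L u' (cMap L u z) = cMap L (u' ∘ₗ u) z := by
  rw [cMap_comp]
  rfl

lemma cMap_add (L : List (Cx W)) (u u' : W.H X →ₗ[W.K] W.H Y) :
    cMap L (u + u') = cMap L u + cMap L u' := by
  induction L generalizing X Y with
  | nil => rfl
  | cons U L ih =>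
    rw [cMap, lft_add]
    exact ih _ _

lemma cMap_smul (L : List (Cx W)) (c : W.K) (u : W.H X →ₗ[W.K] W.H Y) :
    cMap L (c • u) = c • cMap L u := by
  induction L generalizing X Y with
  | nil => rfl
  | cons U L ih =>
    rw [cMap, lft_smul]
    exact ih _

lemma cMap_zero (L : List (Cx W)) : cMap L (0 : W.H X →ₗ[W.K] W.H Y) = 0 := by
  have := cMap_smul L (0 : W.K) (0 : W.H X →ₗ[W.K] W.H Y)
  rwa [zero_smul, zero_smul] at this

lemma cMap_sum (L : List (Cx W)) {ι : Type*} (s : Finset ι) (u : ι → (W.H X →ₗ[W.K] W.H Y)) :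
    cMap L (∑ i ∈ s, u i) = ∑ i ∈ s, cMap L (u i) := by
  classical
  induction s using Finset.induction_on with
  | empty => rw [Finset.sum_empty, Finset.sum_empty, cMap_zero]
  | insert a s ha ih => rw [Finset.sum_insert ha, Finset.sum_insert ha, cMap_add, ih]

lemma cMap_one (L : List (Cx W)) : cMap L (1 : Module.End W.K (W.H X)) = 1 := by
  induction L generalizing X with
  | nil => rfl
  | cons U L ih =>
    rw [cMap, lft_one]
    exact ih

lemma cMap_AS (L : List (Cx W)) {u : W.H X →ₗ[W.K] W.H Y} (hu : AOp W X Y u)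
    {z : W.H (cObj L X)} (hz : AS W _ z) : AS W _ (cMap L u z) := by
  induction L generalizing X Y with
  | nil => exact hu.apply hz
  | cons U L ih => exact ih (AOp_lft hu) hz

/-- Identities between the values of the forms on a factor imply identities between the values of
the forms on the products. -/
theorem cB_transport (L : List (Cx W)) (hL : ∀ U ∈ L, Lw W U.X U.D U.f) {D : Y.Cycles}
    {f : Module.End W.K (W.H Y)} (h : Lw W Y D f) {D' : Y'.Cycles}
    {f' : Module.End W.K (W.H Y')} (h' : Lw W Y' D' f') {u : W.H X →ₗ[W.K] W.H Y}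
    {v : W.H X' →ₗ[W.K] W.H Y} {u₁ : W.H X →ₗ[W.K] W.H Y'} {v₁ : W.H X' →ₗ[W.K] W.H Y'}
    {c : W.K} (hc : ∀ a b, bf W Y D f (u a) (v b) = c * bf W Y' D' f' (u₁ a) (v₁ b))
    (x : W.H (cObj L X)) (y : W.H (cObj L X')) :
    cB L D f (cMap L u x) (cMap L v y) = c * cB L D' f' (cMap L u₁ x) (cMap L v₁ y) := by
  induction L generalizing X X' Y Y' with
  | nil => exact hc x y
  | cons U L ih =>
    refine ih (fun V hV => hL V (List.mem_cons_of_mem _ hV)) (h.prod (hL U List.mem_cons_self))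
      (h'.prod (hL U List.mem_cons_self)) ?_ x y
    have hU := hL U List.mem_cons_self
    intro a b
    refine W.kunneth_induction (p := fun a => bf W (Y.prod U.X) (ops.pull (fst Y U.X) D +
      ops.pull (snd Y U.X) U.D) (extSum W f U.f) (lft W U.X u a) (lft W U.X v b) =
      c * bf W (Y'.prod U.X) (ops.pull (fst Y' U.X) D' + ops.pull (snd Y' U.X) U.D)
        (extSum W f' U.f) (lft W U.X u₁ a) (lft W U.X v₁ b)) ?_ ?_ a
    · intro a a' ha ha'
      rw [map_add, map_add, LinearMap.add_apply, ha, ha', map_add, map_add, LinearMap.add_apply,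
        mul_add]
    · intro i j a₁ _ a₂ _
      refine W.kunneth_induction (p := fun b => bf W (Y.prod U.X) (ops.pull (fst Y U.X) D +
        ops.pull (snd Y U.X) U.D) (extSum W f U.f)
          (lft W U.X u (W.map (fst X U.X) a₁ * W.map (snd X U.X) a₂)) (lft W U.X v b) =
        c * bf W (Y'.prod U.X) (ops.pull (fst Y' U.X) D' + ops.pull (snd Y' U.X) U.D)
          (extSum W f' U.f) (lft W U.X u₁ (W.map (fst X U.X) a₁ * W.map (snd X U.X) a₂))
            (lft W U.X v₁ b)) ?_ ?_ b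
      · intro b b' hb hb'
        rw [map_add, map_add, hb, hb', map_add, map_add, mul_add]
      · intro i' j' b₁ _ b₂ _
        have e1 : lft W U.X u (W.map (fst X U.X) a₁ * W.map (snd X U.X) a₂) =
          ext W (u a₁) a₂ := lft_ext u a₁ a₂
        have e2 : lft W U.X v (W.map (fst X' U.X) b₁ * W.map (snd X' U.X) b₂) =
          ext W (v b₁) b₂ := lft_ext v b₁ b₂
        have e3 : lft W U.X u₁ (W.map (fst X U.X) a₁ * W.map (snd X U.X) a₂) =
          ext W (u₁ a₁) a₂ := lft_ext u₁ a₁ a₂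
        have e4 : lft W U.X v₁ (W.map (fst X' U.X) b₁ * W.map (snd X' U.X) b₂) =
          ext W (v₁ b₁) b₂ := lft_ext v₁ b₁ b₂
        rw [e1, e2, e3, e4, h.bf_ext hU, h'.bf_ext hU, hc, mul_assoc]

/-- Orthogonality. -/
lemma cB_zero (L : List (Cx W)) (hL : ∀ U ∈ L, Lw W U.X U.D U.f) {D : Y.Cycles}
    {f : Module.End W.K (W.H Y)} (h : Lw W Y D f) {u : W.H X →ₗ[W.K] W.H Y}
    {v : W.H X' →ₗ[W.K] W.H Y} (hc : ∀ a b, bf W Y D f (u a) (v b) = 0)
    (x : W.H (cObj L X)) (y : W.H (cObj L X')) :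
    cB L D f (cMap L u x) (cMap L v y) = 0 := by
  have h1 := cB_transport L hL h h (u := u) (v := v) (u₁ := u) (v₁ := v) (c := 0)
    (by intro a b; rw [hc, zero_mul]) x y
  rw [h1, zero_mul]

/-- The form is nondegenerate. -/
lemma bf_nondeg {D : X.Cycles} {f : Module.End W.K (W.H X)} (F : Lw W X D f) {x : W.H X}
    (h : ∀ y, bf W X D f x y = 0) : x = 0 := by
  have t : LefStr (W.isInternal X) X.dim (LinearMap.mulLeft W.K (W.cl X D)) f :=
    ⟨mulLeft_isHom F.hD, W_hbd, hl_of_lw F, F.sl2⟩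
  apply W.nondeg
  intro y
  have h1 := h (st W X D f y)
  rw [bf_apply, ← Module.End.mul_apply] at h1
  have h2 : st W X D f * st W X D f = 1 := t.star_star
  rwa [h2, Module.End.one_apply] at h1

end Pool.Agent.H62FV
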