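import Pool.Agent.H281R3.HT.Defs
import Pool.Agent.H914R2.HodgeDefs
import Pool.Agent.H914R2.DDefs
import Pool.Agent.H916T.Defs

/-!
# Systems of varieties of Fermat type

The axioms are those properties of the Fermat varieties, their automorphisms, and the cones and
joins on them which are used.
-/

set_option autoImplicit false

open CategoryTheory AlgebraicGeometry

universe u v

namespace Pool.Agent.H62FS

open Pool.Agent.H914 Pool.Agent.H914.VarClass Pool.Agent.H914.VarClass.Obj
  Pool.Agent.H914.WeilCohomology Pool.Agent.H281R3.HT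

variable {k : Type u} [Field k] {𝒱 : VarClass k} {ops : CycleOps 𝒱}

/-- Varieties `X m N` with divisors and endomorphisms. In the example `X m N`, for `3 ≤ N`, is the
Fermat variety `x_1 ^ m + ... + x_N ^ m = 0` of degree `m` and dimension `N - 2`, `D m N` is a
hyperplane section, and `act m N g` multiplies the coordinate `x_i` by `ζ ^ (g i)`, where `ζ` is a
primitive `m`-th root of unity in `k`. -/
structure Family (𝒱 : VarClass k) where
  /-- the varieties -/
  X : ℕ → ℕ → 𝒱.Obj
  /-- the divisors -/
  D : ∀ m N, (X m N).Cycles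
  /-- the action of the groups of roots of unity -/
  act : ∀ m N, (Fin N → ZMod m) → (X m N ⟶ X m N)

/-- Maps and correspondences between the varieties. In the example of the Fermat varieties
* `perm m N π` permutes the coordinates;
* `pow ν m N` is the map `x_i ↦ x_i ^ ν` from `X (ν m) N` to `X m N`;
* `cone m N ε` is the correspondence which maps a subvariety `z` of `X m N` to its cone, in
  `X m (N + 2)`, with the vertex `(0 : ... : 0 : 1 : η ζ ^ ε)`, where `η ^ m = -1`;
* `join m N N'` is the correspondence from `X m N × X m N'` to `X m (N + N')` which maps `z × z'`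
  to the join of `z` and `z'`, the union of the lines which join points of `z` and of `z'`. -/
structure Maps (F : Family 𝒱) where
  /-- permutations of the coordinates -/
  perm : ∀ m N, Equiv.Perm (Fin N) → (F.X m N ⟶ F.X m N)
  /-- powers of the coordinates -/
  pow : ∀ ν m N, F.X (ν * m) N ⟶ F.X m N
  /-- cones -/
  cone : ∀ m N, ZMod m → ((F.X m N).prod (F.X m (N + 2))).Cycles
  /-- joins -/
  join : ∀ m N N', (((F.X m N).prod (F.X m N')).prod (F.X m (N + N'))).Cycles

/-- The characters of the primitive cohomology: no entry vanishes, the sum vanishes. -/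
def Adm {m N : ℕ} (a : Fin N → ZMod m) : Prop := (∀ i, a i ≠ 0) ∧ ∑ i, a i = 0

/-- The multiset of the entries. -/
def ms {m N : ℕ} (a : Fin N → ZMod m) : Multiset (ZMod m) := Finset.univ.val.map a

section Classes

variable (W : WeilCohomology.{u, v} ops) {X Y : 𝒱.Obj}

/-- The class of a cycle. -/
noncomputable def cls (z : X.Cycles) : W.H X := W.cl X z

/-- The pull-back of a class. -/
noncomputable def pb (f : X ⟶ Y) (x : W.H Y) : W.H X := W.map f x

/-- The number `∫ x y`. -/
noncomputable def num (x y : W.H X) : W.K := W.tr X (x * y)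

/-- The class `x` has the degree `i`. -/
def HasDeg (i : ℕ) (x : W.H X) : Prop := x ∈ W.gr X i

/-- The class `x` is a multiple of the class `y`. -/
def IsMult (x y : W.H X) : Prop := ∃ c : W.K, x = c • y

/-- A primitive class of the middle degree. -/
def IsPrim (D : X.Cycles) (x : W.H X) : Prop := HasDeg W X.dim x ∧ cls W D * x = 0

/-- The image of a class under a correspondence. -/
noncomputable def image (Γ : (X.prod Y).Cycles) (x : W.H X) : W.H Y :=
  W.push (snd X Y) (cls W Γ * pb W (fst X Y) x)

/-- The external product of two classes. -/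
noncomputable def box (x : W.H X) (y : W.H Y) : W.H (X.prod Y) :=
  pb W (fst X Y) x * pb W (snd X Y) y

/-- The morphism `f` multiplies the intersection numbers by `δ`. -/
def HasDegree (f : X ⟶ Y) (δ : ℚ) : Prop :=
  ∀ x y, num W (pb W f x) (pb W f y) = δ * num W x y

end Classes

section Family

variable (W : WeilCohomology.{u, v} ops) (σ : W.K →+* ℂ) (F : Family 𝒱) {m N : ℕ}

/-- The action of the group on the cohomology. -/
noncomputable def actOn (g : Fin N → ZMod m) (x : W.H (F.X m N)) : W.H (F.X m N) :=
  pb W (F.act m N g) x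

/-- The class `x` belongs to the character `a`: the element `g` of the group multiplies it by the
element of `K` which `σ` maps to `exp (2 π i (∑ a_i g_i) / m)`. -/
def IsEigen [NeZero m] (a : Fin N → ZMod m) (x : W.H (F.X m N)) : Prop :=
  ∀ g, ∃ c : W.K, σ c = ZMod.stdAddChar (∑ i, a i * g i) ∧ actOn W F g x = c • x

/-- The character `a` occurs in the class `x`: the number `∫ v x` does not vanish for all classes
`v` which belong to the opposite character. -/
def Occurs [NeZero m] (a : Fin N → ZMod m) (x : W.H (F.X m N)) : Prop :=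
  ∃ v, IsEigen W σ F (-a) v ∧ num W v x ≠ 0

/-- **Varieties of Fermat type**: `X m N` has the dimension `N - 2`; the divisor has positive degree;
the group acts and fixes the class `ξ` of the divisor; the classes with the trivial character are
the multiples of the powers of `ξ`; the other characters which occur are those in `Adm`, in the
middle degree, with multiplicity one. -/
structure IsFermat (m : ℕ) [NeZero m] : Prop where
  dim : ∀ N, 3 ≤ N → (F.X m N).dim + 2 = N
  cyc : ∀ N, 3 ≤ N → (F.X m N).IsCyc 1 (F.D m N)
  deg : ∀ N, 3 ≤ N → 0 < (F.X m N).V.degCycle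
    (divPow ops (F.D m N) (F.X m N).dim (F.X m N).V.fundCycle)
  act_zero : ∀ N (x : W.H (F.X m N)), actOn W F 0 x = x
  act_add : ∀ N g h (x : W.H (F.X m N)), actOn W F (g + h) x = actOn W F g (actOn W F h x)
  act_D : ∀ N, 3 ≤ N → ∀ g, actOn W F g (cls W (F.D m N)) = cls W (F.D m N)
  classes : ∀ N, 3 ≤ N → ∀ (i : ℕ) (a : Fin N → ZMod m) (x : W.H (F.X m N)), HasDeg W i x →
    IsEigen W σ F a x → x ≠ 0 →
      (a = 0 ∧ ∃ j, 2 * j = i ∧ IsMult W x (cls W (F.D m N) ^ j)) ∨ (Adm a ∧ i = (F.X m N).dim)
  line : ∀ N, 3 ≤ N → ∀ a : Fin N → ZMod m, Adm a → ∃ v, HasDeg W (F.X m N).dim v ∧ v ≠ 0 ∧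
    IsEigen W σ F a v ∧ ∀ x, IsEigen W σ F a x → IsMult W x v

variable {F} (M : Maps F)

/-- **Permutations, cones and joins.** The permutations normalise the action of the group and
preserve the intersection numbers. The correspondences `cone` and `join` have the expected
codimensions and are equivariant, and on primitive classes of the middle degree they multiply the
intersection numbers by constants.

For the Fermat varieties: the cones with vertices `ε ≠ ε'` over `z` and `z'` have the intersection
number `z · z'`, since they meet transversally in `z ∩ z'`, and the sum of the cones over a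
primitive class with all vertices vanishes; the normal bundle of the blow up of the join
`Σ x_i ^ m = 0 = Σ y_j ^ m` is `O(m (h + h' - H))`, so the intersection number of two joins is that
of the classes on `X m N × X m N'` times `-m`. -/
structure IsMaps (m : ℕ) : Prop where
  perm_act : ∀ N π g x, pb W (M.perm m N π) (actOn W F g x) =
    actOn W F (g ∘ π) (pb W (M.perm m N π) x)
  perm_deg : ∀ N, 3 ≤ N → ∀ π, HasDegree W (M.perm m N π) 1
  cone_cyc : ∀ N, 3 ≤ N → ∀ ε, ((F.X m N).prod (F.X m (N + 2))).IsCyc ((F.X m N).dim + 1)
    (M.cone m N ε)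
  cone_act : ∀ N, 3 ≤ N → ∀ g s t ε v,
    actOn W F (Fin.append g ![s, t]) (image W (M.cone m N ε) v) =
      image W (M.cone m N (ε + s - t)) (actOn W F g v)
  cone_num : ∀ N, 3 ≤ N → ∀ ε ε' v v', IsPrim W (F.D m N) v → IsPrim W (F.D m N) v' →
    num W (image W (M.cone m N ε) v) (image W (M.cone m N ε') v') =
      (1 - if ε = ε' then (m : W.K) else 0) * num W v v'
  join_cyc : ∀ N N', 3 ≤ N → 3 ≤ N' →
    (((F.X m N).prod (F.X m N')).prod (F.X m (N + N'))).IsCyc
      (((F.X m N).prod (F.X m N')).dim + 1) (M.join m N N')
  join_act : ∀ N N', 3 ≤ N → 3 ≤ N' → ∀ g h v w,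
    actOn W F (Fin.append g h) (image W (M.join m N N') (box W v w)) =
      image W (M.join m N N') (box W (actOn W F g v) (actOn W F h w))
  join_num : ∀ N N', 3 ≤ N → 3 ≤ N' → ∀ v v' w w', IsPrim W (F.D m N) v →
    IsPrim W (F.D m N) v' → IsPrim W (F.D m N') w → IsPrim W (F.D m N') w' →
      num W (image W (M.join m N N') (box W v w)) (image W (M.join m N N') (box W v' w')) =
        -(m : W.K) * num W (box W v w) (box W v' w')

/-- The maps `pow` are equivariant, multiply the class of the divisor by `ν` and have the degree
`ν ^ (N - 1)`, as the maps `x_i ↦ x_i ^ ν` between Fermat varieties. -/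
structure IsPow (ν m : ℕ) : Prop where
  act : ∀ N g x, actOn W F g (pb W (M.pow ν m N) x) =
    pb W (M.pow ν m N) (actOn W F (fun i => ZMod.castHom (dvd_mul_left m ν) (ZMod m) (g i)) x)
  cl : ∀ N, 3 ≤ N → pb W (M.pow ν m N) (cls W (F.D m N)) = cls W ((ν : ℚ) • F.D (ν * m) N)
  deg : ∀ N, 3 ≤ N → HasDegree W (M.pow ν m N) (ν ^ (N - 1))

variable (F)

/-- The Hodge-Riemann relation for a cycle `y` of codimension `r` on `X m (2 * r + 2)`: if its class
is primitive and not zero, the intersection number `y · y` has the sign `(-1) ^ r`. -/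
def HodgeRiemann (m r : ℕ) (y : (F.X m (2 * r + 2)).Cycles) : Prop :=
  IsPrim W (F.D m (2 * r + 2)) (cls W y) → cls W y ≠ 0 →
    0 < (-1 : ℚ) ^ r * (F.X m (2 * r + 2)).V.degCycle (ops.mul y y)

/-- **Algebraic classes**, as for the Fermat varieties of degree `m` in characteristic `p`.
* `tate`: the characters of algebraic classes are Tate characters;
* `surface`: the Tate characters of the surface `X m 4` occur in classes of divisors;
* `index`: the Hodge index theorem for the surface `X m 4`;
* `standard`: Aoki's standard characters occur in classes of cycles `z` such that the linear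
  combinations of the cycles `g z` satisfy the Hodge-Riemann relation. For the Fermat varieties these
  cycles lift to characteristic zero, as does the action of the group. -/
structure IsArith (p m : ℕ) [NeZero m] : Prop where
  tate : ∀ N r, 3 ≤ N → ∀ z, (F.X m N).IsCyc r z → ∀ a : Fin N → ZMod m, Adm a →
    Occurs W σ F a (cls W z) → Pool.Agent.H916T.IsTate p m (ms a)
  surface : ∀ a : Fin 4 → ZMod m, Pool.Agent.H916T.IsTate p m (ms a) →
    ∃ z, (F.X m 4).IsCyc 1 z ∧ Occurs W σ F a (cls W z)
  index : ∀ y, (F.X m 4).IsCyc 1 y → HodgeRiemann W F m 1 y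
  standard : ∀ r : ℕ, (2 * r + 1).Prime → (2 * r + 1) ∣ m → ∀ a : Fin (2 * r + 2) → ZMod m,
    Pool.Agent.H916T.Standard (2 * r + 1) m (ms a) →
      ∃ z, (F.X m (2 * r + 2)).IsCyc r z ∧ Occurs W σ F a (cls W z) ∧
        ∀ c : (Fin (2 * r + 2) → ZMod m) → ℚ, HodgeRiemann W F m r
          (∑ g : Fin (2 * r + 2) → ZMod m, c g • ops.pull (F.act m (2 * r + 2) g) z)

/-- **A system of Fermat type in characteristic `p`**: the axioms above hold for all degrees prime to
`p`. -/
structure IsSystem (M : Maps F) (p : ℕ) : Prop where
  fermat : ∀ (m : ℕ) [NeZero m], p.Coprime m → IsFermat W σ F m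
  maps : ∀ (m : ℕ) [NeZero m], p.Coprime m → IsMaps W M m
  pow : ∀ (ν m : ℕ) [NeZero (ν * m)], p.Coprime (ν * m) → IsPow W M ν m
  arith : ∀ (m : ℕ) [NeZero m], p.Coprime m → IsArith W σ F p m

end Family

/-- An index of a member of the family: a degree dividing `m`, a number of variables, and a
positive rational number, by which the divisor is multiplied. -/
structure Index (m : ℕ) where
  /-- the degree -/
  degree : ℕ
  /-- the number of variables -/
  vars : ℕ
  /-- the multiple of the divisor -/
  mult : ℚ
  dvd : degree ∣ m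
  three_le : 3 ≤ vars
  pos : 0 < mult

/-- The member with a given index. -/
noncomputable def member (F : Family 𝒱) {m : ℕ} (i : Index m) : Polarized 𝒱 :=
  ⟨F.X i.degree i.vars, i.mult • F.D i.degree i.vars⟩

/-- `P` covers `Q`: there is a morphism between varieties of the same dimension which has positive
degree and pulls the class of the divisor back to that of the divisor. -/
def Cover (W : WeilCohomology.{u, v} ops) (P Q : Polarized 𝒱) : Prop :=
  P.X.dim = Q.X.dim ∧ ∃ f : P.X ⟶ Q.X, cls W P.D = pb W f (cls W Q.D) ∧
    ∃ δ : ℚ, 0 < δ ∧ HasDegree W f δ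

end Pool.Agent.H62FS
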