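import Pool.Agent.H62FV.Tor
import Pool.Agent.H62FV.Sys
import Pool.Agent.H24HS.Main
import Pool.Agent.H916T.Defs

/-!
# Systems of varieties of Fermat type

The axioms are those properties of the Fermat varieties, their automorphisms, and the cones and
joins on them which are used.
-/

set_option autoImplicit false

open CategoryTheory AlgebraicGeometry

universe u v u₀ v₀

namespace Pool.Agent.H62FV

open Pool.Agent.H914 Pool.Agent.H914.VarClass Pool.Agent.H914.VarClass.Obj
  Pool.Agent.H914.WeilCohomology Pool.Agent.H281R3.HT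

variable {k : Type u} [Field k] {𝒱 : VarClass k} {ops : CycleOps 𝒱}

export Pool.Agent.H62FS (Family Maps Adm ms)

/-- The action of the group on the cohomology. -/
noncomputable def rho (W : WeilCohomology.{u, v} ops) (F : Family 𝒱) (m N : ℕ)
    (g : Fin N → ZMod m) : Module.End W.K (W.H (F.X m N)) :=
  (W.map (F.act m N g)).toLinearMap

/-- The component of the class `v` on the variety `X m N` which belongs to the character
`g ↦ ζ ^ (∑ i, a i * g i)` of the group. -/
noncomputable def component (W : WeilCohomology.{u, v} ops) (σ : W.K →+* ℂ) (F : Family 𝒱) (m : ℕ)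
    [NeZero m] (N : ℕ) (a : Fin N → ZMod m) (v : W.H (F.X m N)) : W.H (F.X m N) :=
  prj σ (rho W F m N) a v

/-- **Varieties of Fermat type**: `X m N` has the dimension `N - 2`; the divisor has positive degree
and satisfies hard Lefschetz and the Lefschetz standard conjecture; the group acts and fixes the
class `ξ` of the divisor; outside of the middle degree the cohomology is spanned by the powers of
`ξ`; in the middle degree the invariants are spanned by the power of `ξ`, if there is one, and the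
other characters which occur are those in `Adm`, with multiplicity one. -/
structure IsFermat (W : WeilCohomology.{u, v} ops) (σ : W.K →+* ℂ) (F : Family 𝒱) (m : ℕ)
    [NeZero m] : Prop where
  dim : ∀ N, 3 ≤ N → (F.X m N).dim + 2 = N
  cyc : ∀ N, 3 ≤ N → (F.X m N).IsCyc 1 (F.D m N)
  deg : ∀ N, 3 ≤ N → 0 < (F.X m N).V.degCycle
    (divPow ops (F.D m N) (F.X m N).dim (F.X m N).V.fundCycle)
  hl : ∀ N, 3 ≤ N → HardLefschetz W (F.X m N) (F.D m N)
  lefB : ∀ N, 3 ≤ N → LefschetzB W (F.X m N) (F.D m N)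
  act_zero : ∀ N x, W.map (F.act m N 0) x = x
  act_add : ∀ N g h x, W.map (F.act m N (g + h)) x =
    W.map (F.act m N g) (W.map (F.act m N h) x)
  act_D : ∀ N, 3 ≤ N → ∀ g, W.map (F.act m N g) (W.cl _ (F.D m N)) = W.cl _ (F.D m N)
  even : ∀ N, 3 ≤ N → ∀ j, 2 * j ≠ (F.X m N).dim → ∀ x ∈ W.gr (F.X m N) (2 * j),
    ∃ c : W.K, x = c • W.cl _ (F.D m N) ^ j
  odd : ∀ N, 3 ≤ N → ∀ i, Odd i → i ≠ (F.X m N).dim → W.gr (F.X m N) i = ⊥
  invariants : ∀ N, 3 ≤ N → ∀ x ∈ W.gr (F.X m N) (F.X m N).dim, Eig σ (rho W F m N) 0 x →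
    x = 0 ∨ ∃ r, 2 * r = (F.X m N).dim ∧ ∃ c : W.K, x = c • W.cl _ (F.D m N) ^ r
  absent : ∀ N, 3 ≤ N → ∀ a : Fin N → ZMod m, a ≠ 0 → ¬ Adm a →
    ∀ x ∈ W.gr (F.X m N) (F.X m N).dim, Eig σ (rho W F m N) a x → x = 0
  line : ∀ N, 3 ≤ N → ∀ a : Fin N → ZMod m, Adm a →
    ∃ v ∈ W.gr (F.X m N) (F.X m N).dim, v ≠ 0 ∧ Eig σ (rho W F m N) a v ∧
      ∀ x ∈ W.gr (F.X m N) (F.X m N).dim, Eig σ (rho W F m N) a x → ∃ c : W.K, x = c • v

/-- The operator defined by the cones. -/
noncomputable def coneOp (W : WeilCohomology.{u, v} ops) {F : Family 𝒱} (M : Maps F) (m N : ℕ)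
    (ε : ZMod m) : W.H (F.X m N) →ₗ[W.K] W.H (F.X m (N + 2)) :=
  W.corr (W.cl _ (M.cone m N ε))

/-- The operator defined by the joins. -/
noncomputable def joinOp (W : WeilCohomology.{u, v} ops) {F : Family 𝒱} (M : Maps F)
    (m N N' : ℕ) : W.H ((F.X m N).prod (F.X m N')) →ₗ[W.K] W.H (F.X m (N + N')) :=
  W.corr (W.cl _ (M.join m N N'))

/-- A primitive class of the middle degree. -/
def MidPrim (W : WeilCohomology.{u, v} ops) (F : Family 𝒱) (m N : ℕ) (v : W.H (F.X m N)) : Prop :=
  v ∈ W.gr (F.X m N) (F.X m N).dim ∧ W.cl _ (F.D m N) * v = 0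

/-- **Permutations, cones and joins.** The permutations normalise the action of the group. The
correspondences `cone` and `join` have the expected codimensions and are equivariant, and on
primitive classes of the middle degree they multiply the intersection numbers by constants.

For the Fermat varieties: the cones with vertices `ε ≠ ε'` over `z` and `z'` have the intersection
number `z · z'`, since they meet transversally in `z ∩ z'`, and the sum of the cones over a
primitive class with all vertices vanishes; the normal bundle of the blow up of the join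
`Σ x_i ^ m = 0 = Σ y_j ^ m` is `O(m (h + h' - H))`, so the intersection number of two joins is that
of the classes on `X m N × X m N'` times `-m`. -/
structure IsMaps (W : WeilCohomology.{u, v} ops) (F : Family 𝒱) (M : Maps F) (m : ℕ) : Prop where
  perm_act : ∀ N π g x, W.map (M.perm m N π) (W.map (F.act m N g) x) =
    W.map (F.act m N (g ∘ π)) (W.map (M.perm m N π) x)
  perm_tr : ∀ N, 3 ≤ N → ∀ π x, W.tr _ (W.map (M.perm m N π) x) = W.tr _ x
  cone_cyc : ∀ N, 3 ≤ N → ∀ ε, ((F.X m N).prod (F.X m (N + 2))).IsCyc ((F.X m N).dim + 1)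
    (M.cone m N ε)
  cone_act : ∀ N, 3 ≤ N → ∀ g s t ε v,
    W.map (F.act m (N + 2) (Fin.append g ![s, t])) (coneOp W M m N ε v) =
      coneOp W M m N (ε + s - t) (W.map (F.act m N g) v)
  cone_tr : ∀ N, 3 ≤ N → ∀ ε ε' v v', MidPrim W F m N v → MidPrim W F m N v' →
    W.tr _ (coneOp W M m N ε v * coneOp W M m N ε' v') =
      (1 - if ε = ε' then (m : W.K) else 0) * W.tr _ (v * v')
  join_cyc : ∀ N N', 3 ≤ N → 3 ≤ N' →
    (((F.X m N).prod (F.X m N')).prod (F.X m (N + N'))).IsCyc
      (((F.X m N).prod (F.X m N')).dim + 1) (M.join m N N')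
  join_act : ∀ N N', 3 ≤ N → 3 ≤ N' → ∀ g h v w,
    W.map (F.act m (N + N') (Fin.append g h)) (joinOp W M m N N' (ext W v w)) =
      joinOp W M m N N' (ext W (W.map (F.act m N g) v) (W.map (F.act m N' h) w))
  join_tr : ∀ N N', 3 ≤ N → 3 ≤ N' → ∀ v v' w w', MidPrim W F m N v → MidPrim W F m N v' →
    MidPrim W F m N' w → MidPrim W F m N' w' →
    W.tr _ (joinOp W M m N N' (ext W v w) * joinOp W M m N N' (ext W v' w')) =
      -(m : W.K) * W.tr _ (ext W v w * ext W v' w')

/-- The maps `pow` are equivariant, multiply the class of the divisor by `ν` and have the degree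
`ν ^ (N - 1)`, as the maps `x_i ↦ x_i ^ ν` between Fermat varieties. -/
structure IsPow (W : WeilCohomology.{u, v} ops) (F : Family 𝒱) (M : Maps F) (ν m : ℕ) :
    Prop where
  act : ∀ N g x, W.map (F.act (ν * m) N g) (W.map (M.pow ν m N) x) =
    W.map (M.pow ν m N)
      (W.map (F.act m N (fun i => ZMod.castHom (dvd_mul_left m ν) (ZMod m) (g i))) x)
  cl : ∀ N, 3 ≤ N → W.map (M.pow ν m N) (W.cl _ (F.D m N)) =
    (ν : W.K) • W.cl _ (F.D (ν * m) N)
  tr : ∀ N, 3 ≤ N → ∀ x, W.tr _ (W.map (M.pow ν m N) x) = (ν : W.K) ^ (N - 1) * W.tr _ x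

/-- The Hodge-Riemann relation for the linear combinations of the translates of a cycle. -/
def HRel (W : WeilCohomology.{u, v} ops) (F : Family 𝒱) (m N r : ℕ) [NeZero m]
    (z : (F.X m N).Cycles) : Prop :=
  ∀ c : (Fin N → ZMod m) → ℚ,
    W.cl _ (F.D m N) * W.cl _ (∑ g, c g • ops.pull (F.act m N g) z) = 0 →
      W.cl _ (∑ g, c g • ops.pull (F.act m N g) z) ≠ 0 →
        0 < (-1 : ℚ) ^ r * (F.X m N).V.degCycle
          (ops.mul (∑ g, c g • ops.pull (F.act m N g) z) (∑ g, c g • ops.pull (F.act m N g) z))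

/-- **Algebraic classes**, as for the Fermat varieties of degree `m` in characteristic `p`. -/
structure IsArith (W : WeilCohomology.{u, v} ops) (σ : W.K →+* ℂ) (F : Family 𝒱) (p m : ℕ)
    [NeZero m] : Prop where
  tate : ∀ N r, 3 ≤ N → 2 * r = (F.X m N).dim → ∀ z, (F.X m N).IsCyc r z →
    ∀ a : Fin N → ZMod m, Adm a → component W σ F m N a (W.cl _ z) ≠ 0 →
      Pool.Agent.H916T.IsTate p m (ms a)
  surface : ∀ a : Fin 4 → ZMod m, Pool.Agent.H916T.IsTate p m (ms a) →
    ∃ z, (F.X m 4).IsCyc 1 z ∧ component W σ F m 4 a (W.cl _ z) ≠ 0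
  index : ∀ z, (F.X m 4).IsCyc 1 z → HRel W F m 4 1 z
  standard : ∀ t : ℕ, (2 * t + 1).Prime → 2 * t + 1 ∣ m → ∀ a : Fin (2 * t + 1 + 1) → ZMod m,
    Pool.Agent.H916T.Standard (2 * t + 1) m (ms a) →
      ∃ z, (F.X m (2 * t + 1 + 1)).IsCyc t z ∧
        component W σ F m (2 * t + 1 + 1) a (W.cl _ z) ≠ 0 ∧ HRel W F m (2 * t + 1 + 1) t z

end Pool.Agent.H62FV
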