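import Pool.Agent.H62FV.Final
import Pool.Agent.H62FV.GoodDeg
import Pool.Agent.H916Y.Fams3
import Pool.Agent.H916U.Main
import Pool.Agent.TH540.Main

/-!
# Degrees of Fermat varieties whose Tate characters are reached
-/

set_option autoImplicit false

namespace Pool.Agent.H62FV

open Pool.Agent.H916T

/-- The Tate characters of these degrees are reached. -/
theorem good_all {p m : ℕ} (hp : p.Prime) (hm : 0 < m) (hpm : p.Coprime m)
    (h : H62FS.GoodDegree p m) {s : Multiset (ZMod m)} (hs : IsTate p m s) (hne : s ≠ 0) :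
    H62FS.Reached p m s := by
  have key : ∀ {s : Multiset (ZMod m)}, H916Y.Concl p m s → H62FS.Reached p m s := by
    rintro s ⟨N, hN, hpN, H⟩
    exact ⟨N, hN, hpN, H (N * m) rfl⟩
  rcases h with ⟨m', e, he, hcase, h⟩ | h | h | ⟨q, hq, hq7, h⟩ | ⟨h4, h⟩ | ⟨h4, h⟩ |
    ⟨hp2, hQR, hord, h4⟩ | h
  · obtain ⟨N, hN, hpN, H⟩ := H916U.main p m m' e hp hm he
      (hcase.imp id fun h => ⟨h.1, h.2.not_two_dvd_nat⟩) hpm h
    refine ⟨N, hN, hpN, H916Z.generated_mono ?_ (H s hs hne)⟩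
    rintro t (ht | ⟨q, hq, hqm, ht⟩)
    · exact Or.inl ht
    · exact Or.inr ⟨q, hq, hqm.mul_left N, ht⟩
  · exact key (H916Y.all235 hp hm hpm h hs hne)
  · exact key (H916Y.all237 hp hm hpm h hs hne)
  · exact key (H916Y.allq7 hp hm hpm hq hq7
      (fun r hr hrm => (h r hr hrm).imp id (fun h' => h'.elim id id)) hs hne)
  · exact key (H916Y.all2311 hp hm h4 hpm h hs hne)
  · exact key (H916Y.all2313 hp hm h4 hpm h hs hne)
  · have hv : ∀ q : ℕ, TH540.vv p q = H62FS.twoPart p q := fun q =>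
      Nat.factorization_def _ Nat.prime_two
    obtain ⟨N, hN, hpN, H⟩ := TH540.main hp hm hpm
      ⟨fun q hq hq2 hqm => hp2 q hq (hq.odd_of_ne_two hq2) hqm,
        fun q r hq hr hq2 hr2 hqm hrm hqr =>
          hQR q r hq hr (hq.odd_of_ne_two hq2) (hr.odd_of_ne_two hr2) hqm hrm hqr,
        fun q r hq hr hq2 hr2 hqm hrm hqr hlt =>
          hord q r hq hr (hq.odd_of_ne_two hq2) (hr.odd_of_ne_two hr2) hqm hrm hqr
            (by rwa [hv, hv] at hlt),
        fun h q hq hq2 hqm => h4 h q hq (hq.odd_of_ne_two hq2) hqm⟩ hs hne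
    exact ⟨N, hN, hpN, H (N * m) rfl⟩
  · exact h s hs hne

end Pool.Agent.H62FV
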