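import Pool.Agent.H62FV.Degrees

/-!
# The Hodge standard conjecture for products of varieties of Fermat type

`IsSystem W σ F M p` says that `F` is a system of varieties of Fermat type in characteristic `p`:
varieties `X m N` for all degrees `m` prime to `p` and all numbers `N ≥ 3` of variables, with the
action of the group of roots of unity and with permutations, power maps, cones and joins, which are
subject to the axioms in `Pool.Agent.H62FV.Sys`; the example is the Fermat variety
`x_1 ^ m + ... + x_N ^ m = 0` over an algebraic closure of the field with `p` elements.

Let `m` be one of the degrees `GoodDegree p m`, for example a number with all prime divisors in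
`{2, 3, 5}` or in `{2, 3, 7}`, a prime power or twice an odd prime power. Then the conjecture of
Hodge type holds, and homological and numerical equivalence agree, for all products of members of
degrees dividing `m` and for all varieties covered by such products. The divisor on a product is any
positive combination of the divisors of its factors.

Hard Lefschetz and the Lefschetz standard conjecture are not assumed.
-/

set_option autoImplicit false

universe u v

namespace Pool.Agent.Results.MP_361a6f_ag.FermatVarieties

open Pool.Agent.H914 Pool.Agent.H281R3.HT Pool.Agent.H62FS

theorem result {k : Type u} [Field k] {𝒱 : VarClass k} {ops : CycleOps 𝒱}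
    (W : WeilCohomology.{u, v} ops) [IsAlgClosed W.K] (σ : W.K →+* ℂ) (F : Family 𝒱)
    (M : Maps F) (p : ℕ) (hp : p.Prime) (S : IsSystem W σ F M p) (m : ℕ) (hm : 1 < m)
    (hpm : p.Coprime m) (hdeg : GoodDegree p m) (Q R : Polarized 𝒱)
    (hQ : IsProduct ops (member F (m := m)) Q) (hR : Cover W Q R) (hD : R.X.IsCyc 1 R.D) :
    HodgeType W R.X R.D ∧ HomEqNum W R.X :=
  Pool.Agent.H62FV.main hm hpm S
    (fun _ hs hne => Pool.Agent.H62FV.good_all hp (by omega) hpm hdeg hs hne) hQ hR hD

end Pool.Agent.Results.MP_361a6f_ag.FermatVarieties
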