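import Pool.Agent.H62FV.Bridge

/-!
# The Hodge standard conjecture for products of varieties of Fermat type
-/

set_option autoImplicit false
set_option linter.unusedSectionVars false

open CategoryTheory AlgebraicGeometry Finset

universe u v

namespace Pool.Agent.H62FV

open Pool.Agent.H914 Pool.Agent.H914.VarClass Pool.Agent.H914.VarClass.Obj
  Pool.Agent.H914.WeilCohomology Pool.Agent.H281R3.HT Pool.Agent.W552 Pool.Agent.TH132.A
  Pool.Agent.H24HS

open Pool.Agent.H62FS (Index member Reached)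

variable {k : Type u} [Field k] {𝒱 : VarClass k} {ops : CycleOps 𝒱}
  {W : WeilCohomology.{u, v} ops} [IsAlgClosed W.K] {σ : W.K →+* ℂ} {F : Family 𝒱}
  {M : Maps F} {p : ℕ}

omit [IsAlgClosed W.K] in
lemma covers_of {P Q : Polarized 𝒱} (h : H62FS.Cover W P Q) : Covers W P Q := by
  obtain ⟨hd, f, hc, δ, hδ, hf⟩ := h
  refine ⟨hd, f, ⟨δ, hδ, ?_⟩, hc⟩
  apply W.tr_ext
  intro c
  rw [W.tr_push, one_mul, smul_mul_assoc, one_mul, map_smul, smul_eq_mul, tr_of_degree hf]

/-- The member of degree `m` covers the member of a degree dividing `m`. -/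
lemma covers_member (S : H62FS.IsSystem W σ F M p) {m' ν : ℕ} [NeZero (ν * m')] [NeZero m']
    (hpm : p.Coprime (ν * m')) {N : ℕ} (hN : 3 ≤ N) {c : ℚ} :
    Covers W ⟨F.X (ν * m') N, (c * ν) • F.D (ν * m') N⟩ ⟨F.X m' N, c • F.D m' N⟩ := by
  have hpm' : p.Coprime m' := Nat.Coprime.coprime_mul_left_right hpm
  have hF := S.fermat (ν * m') hpm
  have hF' := S.fermat m' hpm'
  have hP := pow_of (S.pow ν m' hpm)
  have hdim : (F.X (ν * m') N).dim = (F.X m' N).dim := by
    have h1 := hF.dim N hN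
    have h2 := hF'.dim N hN
    omega
  have hν : 0 < ν := nu_pos ν m'
  refine ⟨hdim, M.pow ν m' N, ⟨(ν : ℚ) ^ (N - 1), pow_pos (by exact_mod_cast hν) _, ?_⟩, ?_⟩
  · apply W.tr_ext
    intro c
    rw [W.tr_push, one_mul, smul_mul_assoc, one_mul, map_smul, smul_eq_mul, hP.tr N hN]
    push_cast
    rfl
  · rw [W.cl_smul, W.cl_smul, map_smul, hP.cl N hN, smul_smul]
    push_cast
    rfl

/-- **The Hodge standard conjecture for products of varieties of Fermat type.** -/
theorem main {m : ℕ} (hm : 1 < m) (hpm : p.Coprime m) (S : H62FS.IsSystem W σ F M p)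
    (hR : ∀ s : Multiset (ZMod m), H916T.IsTate p m s → s ≠ 0 → Reached p m s)
    {Q R : Polarized 𝒱} (hQ : IsProduct ops (member F (m := m)) Q) (hc : H62FS.Cover W Q R)
    (hRD : R.X.IsCyc 1 R.D) : HodgeType W R.X R.D ∧ HomEqNum W R.X := by
  have hz : NeZero m := ⟨by omega⟩
  have hF := fermat_of (S.fermat m hpm)
  have hM := maps_of (S.maps m hpm)
  have hA := arith_of hF (S.arith m hpm)
  have htt : TT σ F m ([] : List (Cx W)) := by
    refine tt_nil hF (M := M) hA ?_
    intro s hs hs0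
    obtain ⟨ν, hν, hpν, hG⟩ := hR s hs hs0
    have hνm : NeZero (ν * m) := ⟨(Nat.mul_pos hν (by omega)).ne'⟩
    have hpν' : p.Coprime (ν * m) := Nat.Coprime.mul_right hpν hpm
    have hFν := fermat_of (S.fermat _ hpν')
    refine ⟨ν, hνm, hFν, pow_of (S.pow ν m hpν'), ?_⟩
    exact goodS_of_generated hFν (maps_of (S.maps _ hpν')) hpν' (arith_of hFν (S.arith _ hpν')) hG
  -- the product is covered by a product of members of degree `m`
  obtain ⟨i, L, hL⟩ := exists_tower (W := W) hQ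
  have hcov : ∀ i : Index m, ∃ N : ℕ, 3 ≤ N ∧ ∃ c : ℚ, 0 < c ∧
      Covers W ⟨F.X m N, c • F.D m N⟩ (member F i) := by
    intro i
    obtain ⟨m', N, c, hdvd, hN, hc⟩ := i
    obtain ⟨ν, rfl⟩ := hdvd
    have h1 : m' ≠ 0 := by
      rintro rfl
      omega
    have h2 : NeZero m' := ⟨h1⟩
    have h3 : NeZero (ν * m') := ⟨by rw [mul_comm]; omega⟩
    have hν : 0 < ν := nu_pos ν m'
    refine ⟨N, hN, c * ν, mul_pos hc (by exact_mod_cast hν), ?_⟩
    have h4 := covers_member S (m' := m') (ν := ν) (by rwa [mul_comm]) hN (c := c)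
    rw [mul_comm ν m'] at h4
    exact h4
  choose N hN c hc0 hcN using hcov
  have hT := tower_of_tt hm hF hM hpm hA htt (hN i) (hc0 i)
    (L := L.map fun j => ⟨F.X m (N j), c j • F.D m (N j)⟩) (by
      intro P hP
      obtain ⟨j, _, rfl⟩ := List.mem_map.1 hP
      exact ⟨N j, hN j, c j, hc0 j, rfl⟩)
  have h1 : Covers W (tower ops ⟨F.X m (N i), c i • F.D m (N i)⟩
      (L.map fun j => ⟨F.X m (N j), c j • F.D m (N j)⟩)) (tower ops (member F i) (L.map (member F))) :=
    covers_tower (by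
      rw [List.forall₂_map_left_iff, List.forall₂_map_right_iff]
      exact List.forall₂_same.2 fun j _ => hcN j) (hcN i)
  have h2 := covers_trans (covers_trans h1 hL) (covers_of hc)
  refine ⟨hodge_of_covers h2 ?_ hRD hT.1, homEqNum_of_covers h2 hT.2⟩
  have h5 : ∀ (P : Polarized 𝒱) (L : List (Polarized 𝒱)), P.X.IsCyc 1 P.D →
      (∀ Q ∈ L, Q.X.IsCyc 1 Q.D) → (tower ops P L).X.IsCyc 1 (tower ops P L).D := by
    intro P L
    induction L generalizing P with
    | nil => exact fun h _ => h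
    | cons Q L ih =>
      intro hP hL
      exact ih _ (SmVar.IsCyc.add (ops.pull_mem _ hP) (ops.pull_mem _ (hL Q List.mem_cons_self)))
        (fun R hR => hL R (List.mem_cons_of_mem _ hR))
  apply h5
  · exact SmVar.IsCyc.smul _ (hF.cyc _ (hN i))
  · intro Q hQ
    obtain ⟨j, _, rfl⟩ := List.mem_map.1 hQ
    exact SmVar.IsCyc.smul _ (hF.cyc _ (hN j))

end Pool.Agent.H62FV
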