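import Pool.Agent.H62FV.Def

/-!
# The cohomology of a Fermat variety
-/

set_option autoImplicit false
set_option linter.unusedSectionVars false

open CategoryTheory AlgebraicGeometry Finset
open scoped ComplexConjugate

universe u v

namespace Pool.Agent.H62FV

open Pool.Agent.H914 Pool.Agent.H914.VarClass Pool.Agent.H914.VarClass.Obj
  Pool.Agent.H914.WeilCohomology Pool.Agent.H281R3.HT Pool.Agent.W552 Pool.Agent.TH132.A
  Pool.Agent.H24HS

variable {k : Type u} [Field k] {𝒱 : VarClass k} {ops : CycleOps 𝒱}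
  {W : WeilCohomology.{u, v} ops} [IsAlgClosed W.K] {σ : W.K →+* ℂ} {F : Family 𝒱} {m : ℕ}
  [NeZero m]

section Basic

variable (hF : IsFermat W σ F m)

include hF

lemma rho_act (N : ℕ) : IsAct (rho W F m N) where
  zero := by
    apply LinearMap.ext
    intro x
    exact hF.act_zero N x
  add g h := by
    apply LinearMap.ext
    intro x
    exact hF.act_add N g h x

omit hF in
lemma rho_gr {N : ℕ} (g : Fin N → ZMod m) {i : ℕ} {x : W.H (F.X m N)}
    (hx : x ∈ W.gr (F.X m N) i) : rho W F m N g x ∈ W.gr (F.X m N) i := W.map_mem _ hx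

omit hF in
lemma rho_mul {N : ℕ} (g : Fin N → ZMod m) (x y : W.H (F.X m N)) :
    rho W F m N g (x * y) = rho W F m N g x * rho W F m N g y := map_mul (W.map _) x y

lemma rho_xi {N : ℕ} (hN : 3 ≤ N) (g : Fin N → ZMod m) (j : ℕ) :
    rho W F m N g (W.cl _ (F.D m N) ^ j) = W.cl _ (F.D m N) ^ j := by
  change W.map (F.act m N g) (W.cl _ (F.D m N) ^ j) = _
  rw [map_pow, hF.act_D N hN g]

lemma dim_pos {N : ℕ} (hN : 3 ≤ N) : 0 < (F.X m N).dim := by
  have := hF.dim N hN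
  omega

omit hF in
lemma prj_gr {N : ℕ} (a : Fin N → ZMod m) {i : ℕ} {x : W.H (F.X m N)}
    (hx : x ∈ W.gr (F.X m N) i) : prj σ (rho W F m N) a x ∈ W.gr (F.X m N) i :=
  Submodule.smul_mem _ _ (Submodule.sum_mem _ fun g _ => Submodule.smul_mem _ _ (rho_gr g hx))

lemma eig_deg {N : ℕ} (hN : 3 ≤ N) {a : Fin N → ZMod m} (ha : a ≠ 0) {i : ℕ}
    (hi : i ≠ (F.X m N).dim) {x : W.H (F.X m N)} (hx : x ∈ W.gr (F.X m N) i)
    (he : Eig σ (rho W F m N) a x) : x = 0 := by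
  rcases Nat.even_or_odd i with h | h
  · obtain ⟨j, rfl⟩ := h
    rw [← two_mul] at hx hi
    obtain ⟨c, rfl⟩ := hF.even N hN j hi x hx
    have h1 : Eig σ (rho W F m N) 0 (c • W.cl _ (F.D m N) ^ j) := by
      intro g
      rw [map_smul, rho_xi hF hN, pr_zero_left, chi_zero, one_smul]
    have h2 := prj_of_eig (b := a) he
    have h3 := prj_of_eig (b := a) h1
    rw [if_pos rfl] at h2
    rw [if_neg ha] at h3
    rw [← h2, h3]
  · rw [hF.odd N hN i h hi] at hx
    exact (Submodule.mem_bot _).1 hx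

lemma prj_mid {N : ℕ} (hN : 3 ≤ N) {a : Fin N → ZMod m} (ha : a ≠ 0) (x : W.H (F.X m N)) :
    prj σ (rho W F m N) a x ∈ W.gr (F.X m N) (F.X m N).dim := by
  refine gr_induction (W.isInternal (F.X m N))
    (p := fun x => prj σ (rho W F m N) a x ∈ W.gr (F.X m N) (F.X m N).dim) ?_ ?_ x
  · intro i x hx
    by_cases hi : i = (F.X m N).dim
    · rw [← hi]
      exact prj_gr a hx
    · rw [eig_deg hF hN ha hi (prj_gr a hx) (prj_eig (rho_act hF N) a x)]
      exact Submodule.zero_mem _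
  · intro x y hx hy
    rw [prj_add]
    exact Submodule.add_mem _ hx hy

lemma prj_prim {N : ℕ} (hN : 3 ≤ N) {a : Fin N → ZMod m} (ha : a ≠ 0) (x : W.H (F.X m N)) :
    W.cl _ (F.D m N) * prj σ (rho W F m N) a x = 0 := by
  have h1 := W.mul_mem (W.cl_mem (hF.cyc N hN)) (prj_mid hF hN ha x)
  refine eig_deg hF hN ha (by omega) h1 fun g => ?_
  have h2 := rho_xi hF hN g 1
  rw [pow_one] at h2
  rw [rho_mul, h2, prj_eig (rho_act hF N) a x g, mul_smul_comm]

lemma midPrim {N : ℕ} (hN : 3 ≤ N) {a : Fin N → ZMod m} (ha : a ≠ 0) (x : W.H (F.X m N)) :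
    MidPrim W F m N (prj σ (rho W F m N) a x) := ⟨prj_mid hF hN ha x, prj_prim hF hN ha x⟩

lemma prj_bad {N : ℕ} (hN : 3 ≤ N) {a : Fin N → ZMod m} (ha : a ≠ 0) (h : ¬ Adm a)
    (x : W.H (F.X m N)) : prj σ (rho W F m N) a x = 0 :=
  hF.absent N hN a ha h _ (prj_mid hF hN ha x) (prj_eig (rho_act hF N) a x)

omit hF in
lemma Adm.ne_zero {N : ℕ} (hN : 3 ≤ N) {a : Fin N → ZMod m} (ha : Adm a) : a ≠ 0 := by
  rintro rfl
  exact ha.1 ⟨0, by omega⟩ rfl

lemma tr_xi {N : ℕ} (hN : 3 ≤ N) : ∃ q : ℚ, 0 < q ∧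
    W.tr (F.X m N) (W.cl _ (F.D m N) ^ (F.X m N).dim) = q := by
  refine ⟨_, hF.deg N hN, ?_⟩
  have h1 := divPow_mem (ops := ops) (hF.cyc N hN) (F.X m N).dim (F.X m N).V.fundCycle_mem
  rw [zero_add] at h1
  rw [← W.tr_cl h1, cl_divPow, W.cl_fund, LinearMap.pow_mulLeft, LinearMap.mulLeft_apply, mul_one]

/-- The action preserves the trace. -/
lemma tr_rho {N : ℕ} (hN : 3 ≤ N) (g : Fin N → ZMod m) (x : W.H (F.X m N)) :
    W.tr _ (rho W F m N g x) = W.tr _ x := by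
  refine gr_induction (W.isInternal (F.X m N))
    (p := fun x => W.tr _ (rho W F m N g x) = W.tr _ x) ?_ ?_ x
  · intro i x hx
    by_cases hi : i = 2 * (F.X m N).dim
    · subst hi
      obtain ⟨c, rfl⟩ := hF.even N hN (F.X m N).dim (by have := dim_pos hF hN; omega) x hx
      rw [map_smul, rho_xi hF hN]
    · rw [W.tr_eq_zero (rho_gr g hx) hi, W.tr_eq_zero hx hi]
  · intro x y hx hy
    rw [map_add, map_add, hx, hy, map_add]

lemma bil_rho {N : ℕ} (hN : 3 ≤ N) (g : Fin N → ZMod m) (x y : W.H (F.X m N)) :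
    bil W _ (rho W F m N g x) (rho W F m N g y) = bil W _ x y := by
  rw [bil_apply, bil_apply, ← rho_mul, tr_rho hF hN]

/-- The eigenspaces are lines. -/
lemma prj_line {N : ℕ} (hN : 3 ≤ N) {a : Fin N → ZMod m} (ha : a ≠ 0) (x y : W.H (F.X m N))
    (hx : prj σ (rho W F m N) a x ≠ 0) :
    ∃ c : W.K, prj σ (rho W F m N) a y = c • prj σ (rho W F m N) a x := by
  by_cases h : Adm a
  · obtain ⟨v, -, hv0, -, hv⟩ := hF.line N hN a h
    obtain ⟨c, hc⟩ := hv _ (prj_mid hF hN ha x) (prj_eig (rho_act hF N) a x)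
    obtain ⟨d, hd⟩ := hv _ (prj_mid hF hN ha y) (prj_eig (rho_act hF N) a y)
    have hc0 : c ≠ 0 := by
      rintro rfl
      rw [zero_smul] at hc
      exact hx hc
    exact ⟨d * c⁻¹, by rw [hc, hd, smul_smul, inv_mul_cancel_right₀ hc0]⟩
  · exact absurd (prj_bad hF hN ha h x) hx

/-- The trace pairs the component `a` with the component `-a`. -/
lemma exists_pair {N : ℕ} (hN : 3 ≤ N) {a : Fin N → ZMod m} {x : W.H (F.X m N)}
    (hx : prj σ (rho W F m N) a x ≠ 0) :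
    ∃ y, W.tr _ (prj σ (rho W F m N) a x * prj σ (rho W F m N) (-a) y) ≠ 0 := by
  by_contra hno
  push Not at hno
  apply hx
  apply W.nondeg
  intro y
  have h1 := prj_form' (B := bil W (F.X m N)) (σ := σ) (rho_act hF N) (bil_rho hF hN) a x y
  rw [bil_apply, bil_apply] at h1
  rw [← h1]
  exact hno y

lemma adm_of_ne {N : ℕ} (hN : 3 ≤ N) {a : Fin N → ZMod m} (ha : a ≠ 0) {x : W.H (F.X m N)}
    (hx : prj σ (rho W F m N) a x ≠ 0) : Adm a := by
  by_contra h
  exact hx (prj_bad hF hN ha h x)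

end Basic

end Pool.Agent.H62FV
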