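import Pool.Agent.H62FV.Line

/-!
# The cohomology of a Fermat variety: the decomposition
-/

set_option autoImplicit false
set_option linter.unusedSectionVars false

open CategoryTheory AlgebraicGeometry Finset
open scoped ComplexConjugate

universe u v

namespace Pool.Agent.H62FV

open Pool.Agent.H914 Pool.Agent.H914.VarClass Pool.Agent.H914.VarClass.Obj
  Pool.Agent.H914.WeilCohomology Pool.Agent.H281R3.HT Pool.Agent.W552 Pool.Agent.TH132.A
  Pool.Agent.H24HS

variable {k : Type u} [Field k] {𝒱 : VarClass k} {ops : CycleOps 𝒱}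
  {W : WeilCohomology.{u, v} ops}

/-- A rational multiple of the divisor of a Fermat variety, with a lowering operator. -/
structure FV (W : WeilCohomology.{u, v} ops) (F : Family 𝒱) (m N : ℕ) (D : (F.X m N).Cycles)
    (f : Module.End W.K (W.H (F.X m N))) : Prop where
  fr : Fr W (F.X m N) D f
  cl : ∃ c : ℚ, 0 < c ∧ W.cl _ D = (c : W.K) • W.cl _ (F.D m N)

/-- The projector to the power of the class `ξ`. -/
noncomputable def pw (W : WeilCohomology.{u, v} ops) (X : 𝒱.Obj) (ξ : W.H X) (q : ℚ) (j : ℕ) :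
    Module.End W.K (W.H X) :=
  ((q : W.K)⁻¹ • (W.tr X ∘ₗ LinearMap.mulRight W.K (ξ ^ (X.dim - j)))).smulRight (ξ ^ j)

lemma pw_apply {X : 𝒱.Obj} (ξ : W.H X) (q : ℚ) (j : ℕ) (x : W.H X) :
    pw W X ξ q j x = ((q : W.K)⁻¹ * W.tr X (x * ξ ^ (X.dim - j))) • ξ ^ j := rfl

lemma xi_pow_mem {X : 𝒱.Obj} {D : X.Cycles} (hD : X.IsCyc 1 D) (j : ℕ) :
    W.cl X D ^ j ∈ W.gr X (2 * j) := by
  induction j with
  | zero => simpa using W.one_mem X
  | succ j ih =>
    rw [pow_succ]
    exact W.mul_mem ih (W.cl_mem hD)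

lemma pw_sum {X : 𝒱.Obj} {D : X.Cycles} (hD : X.IsCyc 1 D) {q : ℚ} (hq : q ≠ 0)
    (hqq : W.tr X (W.cl X D ^ X.dim) = q) {j : ℕ} (hj : j ≤ X.dim) (c : W.K) :
    ∑ i ∈ range (X.dim + 1), pw W X (W.cl X D) q i (c • W.cl X D ^ j) = c • W.cl X D ^ j := by
  have hq' : (q : W.K) ≠ 0 := Rat.cast_ne_zero.2 hq
  rw [sum_eq_single j]
  · rw [pw_apply, smul_mul_assoc, ← pow_add, show j + (X.dim - j) = X.dim by omega, map_smul, hqq,
      smul_eq_mul, mul_comm c, ← mul_assoc, inv_mul_cancel₀ hq', one_mul]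
  · intro i hi hij
    have := mem_range.1 hi
    rw [pw_apply, smul_mul_assoc, ← pow_add, map_smul, W.tr_eq_zero (xi_pow_mem hD _) (by omega),
      smul_zero, mul_zero, zero_smul]
  · intro h
    exact absurd (mem_range.2 (by omega)) h

lemma sl2_smul {K A : Type*} [Field K] [Ring A] [Algebra K A] {h e f : A} (t : Sl2 h e f)
    {c c' : K} (hc : c * c' = 1) : Sl2 h (c • e) (c' • f) := by
  refine ⟨?_, ?_, ?_⟩
  · rw [smul_mul_smul_comm, smul_mul_smul_comm, mul_comm c' c, hc, one_smul, one_smul, t.ef]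
  · rw [mul_smul_comm, smul_mul_assoc, ← smul_sub, t.he, mul_smul_comm]
  · rw [mul_smul_comm, smul_mul_assoc, ← smul_sub, t.hf, mul_smul_comm, smul_neg]

variable [IsAlgClosed W.K] {σ : W.K →+* ℂ} {F : Family 𝒱} {m : ℕ} [NeZero m]
  (hF : IsFermat W σ F m) {N : ℕ} (hN : 3 ≤ N) {D : (F.X m N).Cycles}
  {f : Module.End W.K (W.H (F.X m N))} (hD : FV W F m N D f)

include hF hN

lemma comm_of_even (he : Even N) (x y : W.H (F.X m N)) : x * y = y * x := by
  refine gr_induction (W.isInternal (F.X m N)) (p := fun x => x * y = y * x) ?_ ?_ x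
  · intro i x hx
    rcases Nat.even_or_odd i with h | h
    · obtain ⟨j, rfl⟩ := h
      rw [← two_mul] at hx
      exact W.even_comm hx y
    · have hd := hF.dim N hN
      rw [hF.odd N hN i h (by
        rintro rfl
        have h1 : Odd ((F.X m N).dim + 2) := h.add_even even_two
        rw [hd] at h1
        exact (Nat.not_even_iff_odd.2 h1) he)] at hx
      rw [(Submodule.mem_bot _).1 hx, zero_mul, mul_zero]
  · intro a b ha hb
    rw [add_mul, mul_add, ha, hb]

omit hN in
/-- Existence of frames. -/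
lemma exists_fv (hN : 3 ≤ N) {c : ℚ} (hc : 0 < c) : ∃ f, FV W F m N (c • F.D m N) f := by
  obtain ⟨f, h1, -⟩ := exists_fr (hF.cyc N hN) (hF.hl N hN) (hF.lefB N hN)
  have hcl : W.cl _ (c • F.D m N) = (c : W.K) • W.cl _ (F.D m N) := W.cl_smul c _
  have hc0 : (c : W.K) ≠ 0 := Rat.cast_ne_zero.2 hc.ne'
  have hL : LinearMap.mulLeft W.K (W.cl _ (c • F.D m N)) =
      (c : W.K) • LinearMap.mulLeft W.K (W.cl _ (F.D m N)) := by
    apply LinearMap.ext
    intro x
    rw [hcl, LinearMap.mulLeft_apply, smul_mul_assoc]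
    rfl
  refine ⟨((c⁻¹ : ℚ) : W.K) • f, ⟨(hF.cyc N hN).smul c, ?_, h1.aop.smul _⟩, c, hc, hcl⟩
  rw [hL]
  have hcc : (c : W.K) * ((c⁻¹ : ℚ) : W.K) = 1 := by rw [Rat.cast_inv, mul_inv_cancel₀ hc0]
  exact sl2_smul h1.sl2 hcc

include hD

lemma FV.tr_pos : ∃ q : ℚ, 0 < q ∧ W.tr (F.X m N) (W.cl _ D ^ (F.X m N).dim) = q := by
  obtain ⟨c, hc, hcl⟩ := hD.cl
  obtain ⟨q, hq, hq'⟩ := tr_xi hF hN
  refine ⟨c ^ (F.X m N).dim * q, by positivity, ?_⟩
  rw [hcl, smul_pow, map_smul, hq', smul_eq_mul]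
  push_cast
  rfl

lemma FV.of_pow (c : W.K) (j : ℕ) : ∃ c' : W.K, c • W.cl _ (F.D m N) ^ j = c' • W.cl _ D ^ j := by
  obtain ⟨t, ht, hcl⟩ := hD.cl
  have ht0 : (t : W.K) ≠ 0 := Rat.cast_ne_zero.2 ht.ne'
  refine ⟨c * ((t : W.K) ^ j)⁻¹, ?_⟩
  rw [hcl, smul_pow, smul_smul, inv_mul_cancel_right₀ (pow_ne_zero _ ht0)]

lemma FV.rho_pow (g : Fin N → ZMod m) (j : ℕ) :
    rho W F m N g (W.cl _ D ^ j) = W.cl _ D ^ j := by
  obtain ⟨t, ht, hcl⟩ := hD.cl
  rw [hcl, smul_pow, map_smul, rho_xi hF hN]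

lemma FV.eig_pow (c : W.K) (j : ℕ) : Eig σ (rho W F m N) 0 (c • W.cl _ D ^ j) := by
  intro g
  rw [map_smul, hD.rho_pow hF hN, pr_zero_left, chi_zero, one_smul]

/-- The decomposition. -/
lemma FV.decomp [DecidablePred (Adm (m := m) (N := N))] {q : ℚ} (hq : q ≠ 0)
    (hqq : W.tr (F.X m N) (W.cl _ D ^ (F.X m N).dim) = q) (x : W.H (F.X m N)) :
    x = ∑ j ∈ range ((F.X m N).dim + 1), pw W _ (W.cl _ D) q j x +
      ∑ a : Fin N → ZMod m, if Adm a then prj σ (rho W F m N) a x else 0 := by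
  have hadm : ∀ (c : W.K) (j : ℕ), (∑ a : Fin N → ZMod m,
      if Adm a then prj σ (rho W F m N) a (c • W.cl _ D ^ j) else 0) = 0 := by
    intro c j
    refine sum_eq_zero fun a _ => ?_
    split_ifs with h
    · rw [prj_of_eig (hD.eig_pow hF hN c j), if_neg (Adm.ne_zero hN h)]
    · rfl
  refine gr_induction (W.isInternal (F.X m N)) (p := fun x =>
    x = ∑ j ∈ range ((F.X m N).dim + 1), pw W _ (W.cl _ D) q j x +
      ∑ a : Fin N → ZMod m, if Adm a then prj σ (rho W F m N) a x else 0) ?_ ?_ x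
  · intro i x hx
    by_cases hi : i = (F.X m N).dim
    · subst hi
      have h1 := sum_prj (σ := σ) (rho_act hF N) x
      have h2 : ∀ j, pw W _ (W.cl _ D) q j x =
          pw W _ (W.cl _ D) q j (prj σ (rho W F m N) 0 x) := by
        intro j
        rw [pw_apply, pw_apply]
        congr 2
        conv_lhs => rw [← h1]
        rw [sum_mul, map_sum, sum_eq_single 0]
        · intro a _ ha
          have h3 := hD.eig_pow hF hN 1 ((F.X m N).dim - j)
          rw [one_smul] at h3
          exact eig_ortho (B := bil W _) (bil_rho hF hN) (prj_eig (rho_act hF N) a x) h3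
            (by rwa [add_zero])
        · intro h
          exact absurd (mem_univ _) h
      have h3 : ∑ j ∈ range ((F.X m N).dim + 1), pw W _ (W.cl _ D) q j x =
          prj σ (rho W F m N) 0 x := by
        rw [sum_congr rfl fun j _ => h2 j]
        rcases hF.invariants N hN _ (prj_gr 0 hx) (prj_eig (rho_act hF N) 0 x) with
          h | ⟨r, hr, c, hc⟩
        · rw [h]
          simp
        · obtain ⟨c', hc'⟩ := hD.of_pow hF hN c r
          rw [hc, hc']
          exact pw_sum hD.fr.hD hq hqq (by omega) c'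
      have h4 : ∑ a : Fin N → ZMod m, (if Adm a then prj σ (rho W F m N) a x else 0) =
          ∑ a ∈ univ.erase (0 : Fin N → ZMod m), prj σ (rho W F m N) a x := by
        rw [← add_sum_erase univ _ (mem_univ (0 : Fin N → ZMod m)),
          if_neg (fun h => Adm.ne_zero hN h rfl), zero_add]
        refine sum_congr rfl fun a ha => ?_
        split_ifs with h
        · rfl
        · exact (prj_bad hF hN (ne_of_mem_erase ha) h x).symm
      rw [h3, h4, add_sum_erase univ (fun a => prj σ (rho W F m N) a x)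
        (mem_univ (0 : Fin N → ZMod m)), h1]
    · rcases Nat.even_or_odd i with h | h
      · obtain ⟨j, rfl⟩ := h
        rw [← two_mul] at hx hi
        by_cases hj : j ≤ (F.X m N).dim
        · obtain ⟨c, hc⟩ := hF.even N hN j hi x hx
          obtain ⟨c', hc'⟩ := hD.of_pow hF hN c j
          rw [hc, hc', hadm, add_zero, pw_sum hD.fr.hD hq hqq hj]
        · rw [W.gr_eq_bot _ _ (by omega)] at hx
          rw [(Submodule.mem_bot _).1 hx]
          simp [prj]
      · rw [hF.odd N hN i h hi] at hx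
        rw [(Submodule.mem_bot _).1 hx]
        simp [prj]
  · intro x y hx hy
    conv_lhs => rw [hx, hy]
    simp only [map_add, sum_add_distrib, prj_add]
    have h5 : ∀ a : Fin N → ZMod m, (if Adm a then prj σ (rho W F m N) a x +
        prj σ (rho W F m N) a y else 0) = (if Adm a then prj σ (rho W F m N) a x else 0) +
        (if Adm a then prj σ (rho W F m N) a y else 0) := by
      intro a
      split_ifs
      · rfl
      · rw [add_zero]
    rw [sum_congr rfl fun a _ => h5 a, sum_add_distrib]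
    abel

end Pool.Agent.H62FV
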