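import Pool.Agent.H62FV.Line2
import Pool.Agent.H62FV.Ctx

/-!
# The cohomology of a Fermat variety: the form
-/

set_option autoImplicit false
set_option linter.unusedSectionVars false

open CategoryTheory AlgebraicGeometry Finset
open scoped ComplexConjugate

universe u v

namespace Pool.Agent.H62FV

open Pool.Agent.H914 Pool.Agent.H914.VarClass Pool.Agent.H914.VarClass.Obj
  Pool.Agent.H914.WeilCohomology Pool.Agent.H281R3.HT Pool.Agent.W552 Pool.Agent.TH132.A
  Pool.Agent.H24HS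

variable {k : Type u} [Field k] {𝒱 : VarClass k} {ops : CycleOps 𝒱}
  {W : WeilCohomology.{u, v} ops}

section Gen

variable {X : 𝒱.Obj} {D : X.Cycles} {f : Module.End W.K (W.H X)}

/-- The star operator on primitive classes of the middle degree. -/
lemma st_mid (G : Lw W X D f) {v : W.H X} (hv : v ∈ W.gr X X.dim) (hp : W.cl X D * v = 0) :
    st W X D f v = (sg X.dim : W.K) • v := by
  have hwt : wt (W.isInternal X) X.dim v = -((0 : ℕ) : W.K) • v := wt_mid hv
  have hfz : f v = 0 := by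
    apply G.sl2.f_eq_zero (M := 0) hwt
    rw [zero_add, pow_one, LinearMap.mulLeft_apply, hp]
  have h4 := wey_lowest G.sl2 hfz hwt
  rw [st_apply hv, wop, h4]
  simp

lemma bf_mid (G : Lw W X D f) {v : W.H X} (hv : v ∈ W.gr X X.dim) (hp : W.cl X D * v = 0)
    (y : W.H X) : bf W X D f y v = (sg X.dim : W.K) * W.tr X (y * v) := by
  rw [bf_apply, st_mid G hv hp, mul_smul_comm, map_smul, smul_eq_mul]

/-- The form on the powers of the class of the divisor. -/
lemma bf_xi (G : Lw W X D f) {q : ℚ} (hq : 0 < q) (hqq : W.tr X (W.cl X D ^ X.dim) = q) {j : ℕ}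
    (hj : j ≤ X.dim) : ∃ κ : ℚ, 0 < κ ∧ bf W X D f (W.cl X D ^ j) (W.cl X D ^ j) = κ := by
  have t : LefStr (W.isInternal X) X.dim (LinearMap.mulLeft W.K (W.cl X D)) f :=
    ⟨mulLeft_isHom G.hD, W_hbd, hl_of_lw G, G.sl2⟩
  have h1 : (LinearMap.mulLeft W.K (W.cl X D) ^ j) (1 : W.H X) = W.cl X D ^ j := by
    rw [LinearMap.pow_mulLeft, LinearMap.mulLeft_apply, mul_one]
  have hp : (LinearMap.mulLeft W.K (W.cl X D) ^ (X.dim - 0 + 1)) (1 : W.H X) = 0 := by
    rw [LinearMap.pow_mulLeft, LinearMap.mulLeft_apply, mul_one]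
    have h2 := xi_pow_mem (W := W) G.hD (X.dim - 0 + 1)
    rw [W.gr_eq_bot X _ (by omega)] at h2
    exact (Submodule.mem_bot _).1 h2
  have h3 := t.w_L_pow (i := 0) (Nat.zero_le _) (W.one_mem X) hp (j := j) (by omega)
  rw [h1] at h3
  refine ⟨(j.factorial * ((X.dim - j).factorial : ℚ)⁻¹) * q, by positivity, ?_⟩
  rw [bf_apply, st_apply (xi_pow_mem G.hD j), wop, h3, LinearMap.pow_mulLeft,
    LinearMap.mulLeft_apply, mul_one, mul_smul_comm, mul_smul_comm, ← pow_add,
    show j + (X.dim - 0 - j) = X.dim by omega, map_smul, map_smul, hqq, sg_two_mul]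
  have h4 : (((-1) ^ j : ℤ) : W.K) * (-1) ^ j = 1 := by
    push_cast
    rw [← mul_pow]
    simp
  simp only [smul_eq_mul, Nat.sub_zero]
  push_cast at h4 ⊢
  linear_combination (((j.factorial : W.K) * ((X.dim - j).factorial : W.K)⁻¹) * q) * h4

lemma bf_comm_xi (G : Lw W X D f) (j : ℕ) (c : W.K) (y : W.H X) :
    bf W X D f y (c • W.cl X D ^ j) = bf W X D f (c • W.cl X D ^ j) y := by
  rw [bf_par G, par, scal_apply _ _ (Submodule.smul_mem _ _ (xi_pow_mem G.hD j)), pow_mul]
  simp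

end Gen

variable [IsAlgClosed W.K] {σ : W.K →+* ℂ} {F : Family 𝒱} {m : ℕ} [NeZero m]
  (hF : IsFermat W σ F m) {N : ℕ} (hN : 3 ≤ N) {D : (F.X m N).Cycles}
  {f : Module.End W.K (W.H (F.X m N))} (hD : FV W F m N D f)

lemma FV.lw (hD : FV W F m N D f) : Lw W (F.X m N) D f := ⟨hD.fr.hD, hD.fr.sl2⟩

omit [IsAlgClosed W.K] in
lemma FV.mid (hD : FV W F m N D f) {v : W.H (F.X m N)} (h : MidPrim W F m N v) :
    W.cl _ D * v = 0 := by
  obtain ⟨c, -, hc⟩ := hD.cl
  rw [hc, smul_mul_assoc, h.2, smul_zero]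

include hF hN in
lemma FV.bf_prj (hD : FV W F m N D f) {a : Fin N → ZMod m} (ha : a ≠ 0) (x y : W.H (F.X m N)) :
    bf W _ D f y (prj σ (rho W F m N) a x) =
      (sg (F.X m N).dim : W.K) * W.tr _ (y * prj σ (rho W F m N) a x) :=
  bf_mid hD.lw (midPrim hF hN ha x).1 (hD.mid (midPrim hF hN ha x)) y

include hF hN in
lemma FV.bf_xi_prj (hD : FV W F m N D f) {a : Fin N → ZMod m} (ha : a ≠ 0) (x : W.H (F.X m N))
    (c : W.K) (j : ℕ) :
    bf W _ D f (c • W.cl _ D ^ j) (prj σ (rho W F m N) a x) = 0 := by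
  rw [hD.bf_prj hF hN ha, ← bil_apply, eig_ortho (bil_rho hF hN) (hD.eig_pow hF hN c j)
    (prj_eig (rho_act hF N) a x) (by rwa [zero_add]), mul_zero]

section Index

noncomputable instance {N : ℕ} : Fintype {a : Fin N → ZMod m // Adm a} := Fintype.ofFinite _

/-- The indices of the projectors. -/
abbrev Ix (F : Family 𝒱) (m N : ℕ) : Type :=
  Fin ((F.X m N).dim + 1) ⊕ {a : Fin N → ZMod m // Adm a}

lemma Adm.neg {m N : ℕ} {a : Fin N → ZMod m} (ha : Adm a) : Adm (-a) :=
  ⟨fun i => neg_ne_zero.2 (ha.1 i), by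
    simp only [Pi.neg_apply, sum_neg_distrib, ha.2, neg_zero]⟩

/-- The projectors. -/
noncomputable def pI (W : WeilCohomology.{u, v} ops) (σ : W.K →+* ℂ) (F : Family 𝒱) (m : ℕ)
    [NeZero m] (N : ℕ) (D : (F.X m N).Cycles) (q : ℚ) : Ix F m N → Module.End W.K (W.H (F.X m N))
  | Sum.inl j => pw W _ (W.cl _ D) q j
  | Sum.inr a => prjL σ (rho W F m N) a.1

/-- The dual index. -/
def nI {F : Family 𝒱} {m N : ℕ} : Ix F m N → Ix F m N
  | Sum.inl j => Sum.inl j
  | Sum.inr a => Sum.inr ⟨-a.1, Adm.neg a.2⟩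

variable {q : ℚ} (hq : 0 < q) (hqq : W.tr (F.X m N) (W.cl _ D ^ (F.X m N).dim) = q)

include hF hN hD hq hqq

omit hq in
lemma sum_pI (hq : q ≠ 0) : ∑ i, pI W σ F m N D q i = 1 := by
  classical
  apply LinearMap.ext
  intro x
  rw [LinearMap.sum_apply, Fintype.sum_sum_type, Module.End.one_apply]
  conv_rhs => rw [hD.decomp hF hN hq hqq x]
  congr 1
  · rw [← Fin.sum_univ_eq_sum_range (fun j => pw W _ (W.cl _ D) q j x)]
    rfl
  · rw [← sum_filter, sum_subtype (p := fun a : Fin N → ZMod m => Adm a) (univ.filter _)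
      (fun a => by simp)]
    exact sum_congr rfl fun a _ => prjL_apply _ _ _

omit hq hqq in
/-- Orthogonality of the projectors. -/
lemma pI_ortho {i l : Ix F m N} (h : l ≠ nI i) (x y : W.H (F.X m N)) :
    bf W _ D f (pI W σ F m N D q i x) (pI W σ F m N D q l y) = 0 := by
  rcases i with i | a
  · rcases l with l | b
    · have hij : 2 * (i : ℕ) ≠ 2 * (l : ℕ) := by
        intro h0
        apply h
        rw [nI]
        congr 1
        ext
        omega
      exact hD.lw.bf_deg (Submodule.smul_mem _ _ (xi_pow_mem hD.fr.hD i))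
        (Submodule.smul_mem _ _ (xi_pow_mem hD.fr.hD l)) hij
    · rw [pI, pI, prjL_apply, pw_apply]
      exact hD.bf_xi_prj hF hN (Adm.ne_zero hN b.2) y _ _
  · rcases l with l | b
    · rw [pI, pI, prjL_apply, pw_apply, bf_comm_xi hD.lw]
      exact hD.bf_xi_prj hF hN (Adm.ne_zero hN a.2) x _ _
    · rw [pI, pI, prjL_apply, prjL_apply, hD.bf_prj hF hN (Adm.ne_zero hN b.2), ← bil_apply,
        eig_ortho (bil_rho hF hN) (prj_eig (rho_act hF N) a.1 x) (prj_eig (rho_act hF N) b.1 y),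
        mul_zero]
      intro h0
      apply h
      rw [nI]
      congr 1
      apply Subtype.ext
      exact (neg_eq_of_add_eq_zero_right h0).symm

/-- The adjoint projectors. -/
lemma pI_adj (i : Ix F m N) (x y : W.H (F.X m N)) :
    bf W _ D f (pI W σ F m N D q i x) y =
      bf W _ D f (pI W σ F m N D q i x) (pI W σ F m N D q (nI i) y) := by
  classical
  have h1 := congrArg (fun G => G y) (sum_pI hF hN hD hqq hq.ne')
  rw [LinearMap.sum_apply, Module.End.one_apply] at h1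
  conv_lhs => rw [← h1]
  rw [map_sum, sum_eq_single (nI i)]
  · intro l _ hl
    exact pI_ortho hF hN hD hl x y
  · intro h0
    exact absurd (mem_univ _) h0

end Index

end Pool.Agent.H62FV
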