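import Pool.Agent.H62FV.Prod
import Pool.Agent.H916T.Tate

/-!
# Positivity on a Fermat variety: closure properties
-/

set_option autoImplicit false
set_option linter.unusedSectionVars false

open CategoryTheory AlgebraicGeometry Finset
open scoped ComplexConjugate

universe u v

namespace Pool.Agent.H62FV

open Pool.Agent.H914 Pool.Agent.H914.VarClass Pool.Agent.H914.VarClass.Obj
  Pool.Agent.H914.WeilCohomology Pool.Agent.H281R3.HT Pool.Agent.W552 Pool.Agent.TH132.A
  Pool.Agent.H24HS

variable {k : Type u} [Field k] {𝒱 : VarClass k} {ops : CycleOps 𝒱}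
  {W : WeilCohomology.{u, v} ops} [IsAlgClosed W.K] {σ : W.K →+* ℂ} {F : Family 𝒱} {m : ℕ}
  [NeZero m]

/-- Some algebraic class has a component of the right sign. -/
def Good (W : WeilCohomology.{u, v} ops) (σ : W.K →+* ℂ) (F : Family 𝒱) (m : ℕ) [NeZero m] {N : ℕ}
    (a : Fin N → ZMod m) : Prop :=
  ∃ w, AS W (F.X m N) w ∧ 0 < (-1 : ℝ) ^ (N / 2 + 1) *
    (σ (W.tr _ (prj σ (rho W F m N) a w * prj σ (rho W F m N) (-a) w))).re

section Basic

variable (hF : IsFermat W σ F m) {N : ℕ} (hN : 3 ≤ N) (he : Even N)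

include hF hN he

lemma bil_symm (x y : W.H (F.X m N)) : bil W _ x y = bil W _ y x := by
  rw [bil_apply, bil_apply, comm_of_even hF hN he]

omit hF hN he in
lemma rat_rho {z w : W.H (F.X m N)} (hz : AS W _ z) (hw : AS W _ w) (g : Fin N → ZMod m) :
    ∃ q : ℚ, bil W _ (rho W F m N g z) w = (q : W.K) := by
  rw [bil_apply]
  exact ((hz.map _).mul hw).tr

omit he in
omit hF hN in
lemma prj_ne_of_pos {a : Fin N → ZMod m} {w : W.H (F.X m N)} {s : ℝ}
    (h : 0 < s * (σ (W.tr _ (prj σ (rho W F m N) a w * prj σ (rho W F m N) (-a) w))).re) :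
    prj σ (rho W F m N) a w ≠ 0 ∧ prj σ (rho W F m N) (-a) w ≠ 0 := by
  constructor
  · intro h0
    rw [h0, zero_mul, map_zero, map_zero, Complex.zero_re, mul_zero] at h
    exact lt_irrefl _ h
  · intro h0
    rw [h0, mul_zero, map_zero, map_zero, Complex.zero_re, mul_zero] at h
    exact lt_irrefl _ h

/-- Positivity for all algebraic classes. -/
lemma Good.all {a : Fin N → ZMod m} (ha : a ≠ 0) (h : Good W σ F m a) {z : W.H (F.X m N)}
    (hz : AS W _ z) (hz0 : prj σ (rho W F m N) a z ≠ 0) :
    0 < (-1 : ℝ) ^ (N / 2 + 1) *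
      (σ (W.tr _ (prj σ (rho W F m N) a z * prj σ (rho W F m N) (-a) z))).re := by
  obtain ⟨w, hw, hpos⟩ := h
  obtain ⟨h1, h2⟩ := prj_ne_of_pos hpos
  exact pos_of_pos (B := bil W (F.X m N)) (rho_act hF N) (bil_rho hF hN) (bil_symm hF hN he)
    (rat_rho hw hw) (rat_rho hz hw) hpos (prj_line hF hN ha w z h1)
    (prj_line hF hN (neg_ne_zero.2 ha) w z h2) hz0

/-- The products of the components are real. -/
lemma tr_real (a : Fin N → ZMod m) {w : W.H (F.X m N)} (hw : AS W _ w) :
    conj (σ (W.tr _ (prj σ (rho W F m N) a w * prj σ (rho W F m N) (-a) w))) =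
      σ (W.tr _ (prj σ (rho W F m N) a w * prj σ (rho W F m N) (-a) w)) := by
  have h1 := conj_form (B := bil W (F.X m N)) (σ := σ) (rho_act hF N) (bil_rho hF hN)
    (rat_rho hw hw) a
  rw [bil_apply, bil_apply] at h1
  rw [h1, comm_of_even hF hN he]

end Basic

section Rho

variable (hF : IsFermat W σ F m) {N : ℕ}

include hF

lemma prj_rho (a g : Fin N → ZMod m) (w : W.H (F.X m N)) :
    prj σ (rho W F m N) a (rho W F m N g w) = chi σ m (pr a g) • prj σ (rho W F m N) a w := by
  classical
  have h1 : rho W F m N g w = ∑ b, chi σ m (pr b g) • prj σ (rho W F m N) b w := by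
    conv_lhs => rw [← sum_prj (σ := σ) (rho_act hF N) w]
    rw [map_sum]
    exact sum_congr rfl fun b _ => prj_eig (rho_act hF N) b w g
  rw [h1, ← prjL_apply, map_sum, sum_eq_single a]
  · rw [map_smul, prjL_apply, prj_prj (rho_act hF N), if_pos rfl]
  · intro b _ hb
    rw [map_smul, prjL_apply, prj_prj (rho_act hF N), if_neg (Ne.symm hb), smul_zero]
  · intro h
    exact absurd (mem_univ _) h

lemma xi_sub (hN : 3 ≤ N) (g : Fin N → ZMod m) (w : W.H (F.X m N)) :
    W.cl _ (F.D m N) * (rho W F m N g w - w) = 0 := by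
  classical
  rw [← sum_prj (σ := σ) (rho_act hF N) (rho W F m N g w - w), mul_sum]
  refine sum_eq_zero fun a _ => ?_
  by_cases ha : a = 0
  · subst ha
    have h1 : prj σ (rho W F m N) 0 (rho W F m N g w - w) = 0 := by
      rw [← prjL_apply, map_sub, prjL_apply, prjL_apply, prj_rho hF, pr_zero_left, chi_zero,
        one_smul, sub_self]
    rw [h1, mul_zero]
  · exact prj_prim hF hN ha _

/-- The Hodge index theorem gives the positivity on the components. -/
lemma pos_of_hodge (hN : 3 ≤ N) {r : ℕ} (hr : 2 * r + 2 = N) {a : Fin N → ZMod m} (ha : a ≠ 0)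
    {z : (F.X m N).Cycles} (hz : (F.X m N).IsCyc r z) (hH : HRel W F m N r z)
    (hne : prj σ (rho W F m N) a (W.cl _ z) ≠ 0) :
    0 < (-1 : ℝ) ^ (N / 2 + 1) * (σ (W.tr _ (prj σ (rho W F m N) a (W.cl _ z) *
      prj σ (rho W F m N) (-a) (W.cl _ z)))).re := by
  have he : Even N := ⟨r + 1, by omega⟩
  have hdim : (F.X m N).dim = 2 * r := by have := hF.dim N hN; omega
  have hsign : (-1 : ℝ) ^ (N / 2 + 1) = (((-1) ^ r : ℚ) : ℝ) := by
    rw [show N / 2 + 1 = r + 2 by omega, pow_add]
    push_cast
    ring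
  rw [hsign]
  have hw : W.cl _ z ∈ algClasses W (F.X m N) r := ⟨z, hz, rfl⟩
  have hsub : ∀ g, rho W F m N g (W.cl _ z) - W.cl _ z ∈ algClasses W (F.X m N) r :=
    fun g => alg_sub (alg_map _ hw) hw
  choose q hq using fun g h => alg_rat (hsub g) (hsub h)
  refine pos_of_rational (B := bil W (F.X m N)) ha q hq ?_ ?_ hne
  · intro g h
    have h1 := hq g h
    rw [bil_symm hF hN he, hq h g] at h1
    exact (Rat.cast_injective (α := W.K) h1).symm
  · intro c hc
    classical
    set c' : (Fin N → ZMod m) → ℚ := fun g => c g - if g = 0 then ∑ h, c h else 0 with hc'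
    set y : (F.X m N).Cycles := ∑ g : Fin N → ZMod m, c' g • ops.pull (F.act m N g) z with hy
    have hyc : (F.X m N).IsCyc r y := by
      have h3 : ∀ s : Finset (Fin N → ZMod m),
          (F.X m N).IsCyc r (∑ g ∈ s, c' g • ops.pull (F.act m N g) z) := by
        intro s
        induction s using Finset.induction_on with
        | empty => rw [sum_empty]; exact SmVar.IsCyc.zero _ _
        | insert g s hg ih =>
          rw [sum_insert hg]
          exact ((ops.pull_mem (F.act m N g) hz).smul _).add ih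
      exact h3 univ
    have hcl : W.cl _ y = ∑ g, (c g : W.K) • (rho W F m N g (W.cl _ z) - W.cl _ z) := by
      have e1 : W.cl _ y = ∑ g, (c' g : W.K) • rho W F m N g (W.cl _ z) := by
        rw [hy, map_sum]
        refine sum_congr rfl fun g _ => ?_
        rw [W.cl_smul, W.cl_pull]
        rfl
      have e2 : rho W F m N 0 (W.cl _ z) = W.cl _ z := hF.act_zero N _
      rw [e1]
      have e3 : ∀ g, (c' g : W.K) • rho W F m N g (W.cl _ z) =
          (c g : W.K) • rho W F m N g (W.cl _ z) -
            (if g = 0 then (((∑ h, c h : ℚ)) : W.K) • W.cl _ z else 0) := by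
        intro g
        rw [hc']
        by_cases hg : g = 0
        · subst hg
          simp only [if_true]
          rw [Rat.cast_sub, sub_smul, e2]
        · simp only [if_neg hg, sub_zero]
      simp only [e3, sum_sub_distrib, smul_sub]
      rw [sum_ite_eq' univ (0 : Fin N → ZMod m), if_pos (mem_univ _), Rat.cast_sum, sum_smul]
    have hprim : W.cl _ (F.D m N) * W.cl _ y = 0 := by
      rw [hcl, mul_sum]
      refine sum_eq_zero fun g _ => ?_
      rw [mul_smul_comm, xi_sub hF hN, smul_zero]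
    have h4 := hH c' hprim (by rwa [hcl])
    have h5 : (F.X m N).V.degCycle (ops.mul y y) = ∑ g, ∑ h, c g * c h * q g h := by
      have h6 : (F.X m N).IsCyc (F.X m N).dim (ops.mul y y) := by
        have h7 := ops.mul_mem hyc hyc
        rw [hdim]
        rwa [← two_mul] at h7
      apply Rat.cast_injective (α := W.K)
      rw [← W.tr_cl h6, W.cl_mul, ← bil_apply, hcl]
      simp only [map_sum, map_smul, LinearMap.sum_apply, LinearMap.smul_apply, smul_eq_mul, hq]
      push_cast
      simp only [mul_sum]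
      rw [sum_comm]
      exact sum_congr rfl fun g _ => sum_congr rfl fun h _ => by ring
    rw [← h5]
    exact h4

/-- The product of the components of a class as a sum of intersection numbers. -/
lemma sigma_form (hN : 3 ≤ N) {r : ℕ} (hr : 2 * r + 2 = N) (a : Fin N → ZMod m)
    {z : (F.X m N).Cycles} (hz : (F.X m N).IsCyc r z) :
    σ (W.tr _ (prj σ (rho W F m N) a (W.cl _ z) * prj σ (rho W F m N) (-a) (W.cl _ z))) =
      ((m : ℂ) ^ N)⁻¹ * ∑ g : Fin N → ZMod m, (ZMod.stdAddChar (-(pr a g)) : ℂ) *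
        ((F.X m N).V.degCycle (ops.mul (ops.pull (F.act m N g) z) z) : ℂ) := by
  have hdim : (F.X m N).dim = 2 * r := by have := hF.dim N hN; omega
  have h1 := prj_form' (B := bil W (F.X m N)) (σ := σ) (rho_act hF N) (bil_rho hF hN) a
    (W.cl _ z) (W.cl _ z)
  rw [bil_apply] at h1
  rw [h1]
  unfold prj
  rw [map_smul, LinearMap.smul_apply, smul_eq_mul, map_mul, map_sum, LinearMap.sum_apply, map_sum]
  congr 1
  · simp
  · refine sum_congr rfl fun g _ => ?_
    rw [map_smul, LinearMap.smul_apply, smul_eq_mul, map_mul, sigma_chi, bil_apply]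
    congr 1
    have h2 : (F.X m N).IsCyc (F.X m N).dim (ops.mul (ops.pull (F.act m N g) z) z) := by
      have h3 := ops.mul_mem (ops.pull_mem (F.act m N g) hz) hz
      rw [hdim]
      rwa [← two_mul] at h3
    have h4 : W.tr _ (rho W F m N g (W.cl _ z) * W.cl _ z) =
        ((F.X m N).V.degCycle (ops.mul (ops.pull (F.act m N g) z) z) : W.K) := by
      rw [← W.tr_cl h2, W.cl_mul, W.cl_pull]
      rfl
    rw [h4, map_ratCast]

end Rho

end Pool.Agent.H62FV
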