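import Pool.Agent.H62FV.Pos0

/-!
# Positivity on a Fermat variety: surfaces, lifts, joins, permutations, powers
-/

set_option autoImplicit false
set_option linter.unusedSectionVars false

open CategoryTheory AlgebraicGeometry Finset
open scoped ComplexConjugate

universe u v u₀ v₀

namespace Pool.Agent.H62FV

open Pool.Agent.H914 Pool.Agent.H914.VarClass Pool.Agent.H914.VarClass.Obj
  Pool.Agent.H914.WeilCohomology Pool.Agent.H281R3.HT Pool.Agent.W552 Pool.Agent.TH132.A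
  Pool.Agent.H24HS

lemma mem_ms {m N : ℕ} {a : Fin N → ZMod m} {x : ZMod m} : x ∈ ms a ↔ ∃ i, a i = x := by
  simp [ms]

lemma sum_ms {m N : ℕ} (a : Fin N → ZMod m) : (ms a).sum = ∑ i, a i := rfl

lemma card_ms {m N : ℕ} (a : Fin N → ZMod m) : Multiset.card (ms a) = N := by simp [ms]

lemma adm_iff {m N : ℕ} {a : Fin N → ZMod m} : Adm a ↔ (0 : ZMod m) ∉ ms a ∧ (ms a).sum = 0 := by
  rw [sum_ms]
  constructor
  · rintro ⟨h1, h2⟩
    exact ⟨fun h => by obtain ⟨i, hi⟩ := mem_ms.1 h; exact h1 i hi, h2⟩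
  · rintro ⟨h1, h2⟩
    exact ⟨fun i hi => h1 (mem_ms.2 ⟨i, hi⟩), h2⟩

variable {k : Type u} [Field k] {𝒱 : VarClass k} {ops : CycleOps 𝒱}
  {W : WeilCohomology.{u, v} ops} [IsAlgClosed W.K] {σ : W.K →+* ℂ} {F : Family 𝒱} {m : ℕ}
  [NeZero m]

lemma good_surface (hF : IsFermat W σ F m) {p : ℕ} (hA : IsArith W σ F p m)
    {a : Fin 4 → ZMod m} (ha : H916T.IsTate p m (ms a)) : Good W σ F m a := by
  obtain ⟨z, hz, hne⟩ := hA.surface a ha
  have hadm : Adm a := adm_iff.2 ⟨ha.1, ha.2.2.1⟩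
  exact ⟨W.cl _ z, AS.of ⟨z, hz, rfl⟩,
    pos_of_hodge hF (by norm_num) (r := 1) rfl (Adm.ne_zero (by norm_num) hadm) hz
      (hA.index z hz) hne⟩

lemma good_lift (hF : IsFermat W σ F m) {p : ℕ} (hA : IsArith W σ F p m) {q : ℕ}
    (hq : q.Prime) (hqm : q ∣ m) {a : Fin (q + 1) → ZMod m}
    (ha : H916T.Standard q m (ms a)) : Good W σ F m a := by
  have ha' := ha
  obtain ⟨hodd, b, hb, hs⟩ := ha
  obtain ⟨t, rfl⟩ := hodd
  obtain ⟨z, hz, hne, hH⟩ := hA.standard t hq hqm a ha'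
  have ht : 0 < t := by
    rcases Nat.eq_zero_or_pos t with rfl | h
    · exact absurd hq (by norm_num)
    · exact h
  have hN : 3 ≤ 2 * t + 1 + 1 := by omega
  have hr : 2 * t + 2 = 2 * t + 1 + 1 := by omega
  have ha0 : a ≠ 0 := by
    rintro rfl
    have h1 : -((((2 * t + 1 : ℕ)) : ZMod m) * b) ∈ ms (0 : Fin (2 * t + 1 + 1) → ZMod m) := by
      rw [hs]
      exact Multiset.mem_cons_self _ _
    obtain ⟨i, hi⟩ := mem_ms.1 h1
    rw [Pi.zero_apply] at hi
    exact hb (neg_eq_zero.1 hi.symm)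
  exact ⟨W.cl _ z, AS.of ⟨z, hz, rfl⟩, pos_of_hodge hF hN hr ha0 hz hH hne⟩

/-- Pull-back and the trace. -/
lemma tr_map (hF : IsFermat W σ F m) {N : ℕ} (hN : 3 ≤ N) {X : 𝒱.Obj} (g : X ⟶ F.X m N)
    (hdim : X.dim = (F.X m N).dim) {c : ℚ}
    (h : ∀ z, (F.X m N).IsCyc (F.X m N).dim z →
      X.V.degCycle (ops.pull g z) = c * (F.X m N).V.degCycle z) (x : W.H (F.X m N)) :
    W.tr X (W.map g x) = c * W.tr _ x := by
  refine gr_induction (W.isInternal (F.X m N))
    (p := fun x => W.tr X (W.map g x) = c * W.tr _ x) ?_ ?_ x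
  · intro i x hx
    by_cases hi : i = 2 * (F.X m N).dim
    · subst hi
      obtain ⟨t, rfl⟩ := hF.even N hN (F.X m N).dim (by have := dim_pos hF hN; omega) x hx
      have h1 := divPow_mem (ops := ops) (hF.cyc N hN) (F.X m N).dim (F.X m N).V.fundCycle_mem
      rw [zero_add] at h1
      have h2 : W.cl _ (F.D m N) ^ (F.X m N).dim =
          W.cl _ (divPow ops (F.D m N) (F.X m N).dim (F.X m N).V.fundCycle) := by
        rw [cl_divPow, W.cl_fund, LinearMap.pow_mulLeft, LinearMap.mulLeft_apply, mul_one]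
      have h3 := ops.pull_mem g h1
      rw [← hdim] at h3
      rw [h2, map_smul, map_smul, map_smul, ← W.cl_pull, W.tr_cl h1, W.tr_cl (by rwa [hdim] at h3 ⊢),
        ← hdim, h _ (by rwa [hdim])]
      simp only [smul_eq_mul]
      push_cast
      ring
    · rw [W.tr_eq_zero (W.map_mem g hx) (by omega), W.tr_eq_zero hx hi, mul_zero]
  · intro x y hx hy
    rw [map_add, map_add, hx, hy, map_add, mul_add]

section Join

variable (hF : IsFermat W σ F m) {M : Maps F} (hM : IsMaps W F M m) {N N' : ℕ} (hN : 3 ≤ N)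
  (hN' : 3 ≤ N') (he : Even N) (he' : Even N')

include hF hM hN hN' he he'

lemma good_join {a : Fin N → ZMod m} (ha : a ≠ 0) {b : Fin N' → ZMod m} (hb : b ≠ 0)
    (hGa : Good W σ F m a) (hGb : Good W σ F m b) : Good W σ F m (Fin.append a b) := by
  obtain ⟨w, hw, hpos⟩ := hGa
  obtain ⟨w', hw', hpos'⟩ := hGb
  refine ⟨joinOp W M m N N' (ext W w w'), AOp.apply (u := joinOp W M m N N')
    ⟨_, AS.of ⟨_, hM.join_cyc N N' hN hN', rfl⟩, rfl⟩ (hw.ext hw'), ?_⟩
  have hna := neg_ne_zero.2 ha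
  have hnb := neg_ne_zero.2 hb
  rw [append_neg, join_prj hF hM hN hN', join_prj hF hM hN hN', hM.join_tr N N' hN hN' _ _ _ _
    (midPrim hF hN ha w) (midPrim hF hN hna w) (midPrim hF hN' hb w') (midPrim hF hN' hnb w')]
  set v := prj σ (rho W F m N) a w with hv
  set v' := prj σ (rho W F m N) (-a) w with hv'
  set u := prj σ (rho W F m N') b w' with hu
  set u' := prj σ (rho W F m N') (-b) w' with hu'
  have hdim := hF.dim N hN
  have h1 : ext W v u * ext W v' u' = ext W (v * v') (u * u') := by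
    obtain ⟨r, hr⟩ : ∃ r, (F.X m N).dim = 2 * r := by
      obtain ⟨t, ht⟩ := he
      exact ⟨t - 1, by omega⟩
    have h2 : v' ∈ W.gr (F.X m N) (2 * r) := by
      rw [← hr]
      exact (midPrim hF hN hna w).1
    have h3 := W.even_comm (W.map_mem (fst (F.X m N) (F.X m N')) h2)
      (W.map (snd (F.X m N) (F.X m N')) u)
    rw [H281R3.HT.ext, H281R3.HT.ext, H281R3.HT.ext, map_mul, map_mul]
    calc W.map (fst (F.X m N) (F.X m N')) v * W.map (snd (F.X m N) (F.X m N')) u *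
          (W.map (fst (F.X m N) (F.X m N')) v' * W.map (snd (F.X m N) (F.X m N')) u') =
        W.map (fst (F.X m N) (F.X m N')) v * (W.map (snd (F.X m N) (F.X m N')) u *
          W.map (fst (F.X m N) (F.X m N')) v') * W.map (snd (F.X m N) (F.X m N')) u' := by
            simp only [mul_assoc]
      _ = _ := by
        rw [← h3]
        simp only [mul_assoc]
  rw [h1, tr_ext', map_mul, map_mul, map_neg, map_natCast]
  have hT := tr_real (σ := σ) hF hN he a hw
  rw [← hv, ← hv'] at hT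
  obtain ⟨T, hT'⟩ := Complex.conj_eq_iff_real.1 hT
  have hU := tr_real (σ := σ) hF hN' he' b hw'
  rw [← hu, ← hu'] at hU
  obtain ⟨U, hU'⟩ := Complex.conj_eq_iff_real.1 hU
  rw [hT', Complex.ofReal_re] at hpos
  rw [hU', Complex.ofReal_re] at hpos'
  rw [hT', hU']
  have h4 : (-(m : ℂ) * ((T : ℂ) * (U : ℂ))).re = -(m : ℝ) * (T * U) := by
    rw [← Complex.ofReal_mul, ← Complex.ofReal_natCast, ← Complex.ofReal_neg,
      ← Complex.ofReal_mul, Complex.ofReal_re]
  rw [h4]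
  have hm : (0 : ℝ) < m := by exact_mod_cast Nat.pos_of_ne_zero (NeZero.ne m)
  have h5 : (-1 : ℝ) ^ ((N + N') / 2 + 1) = -((-1) ^ (N / 2 + 1) * (-1) ^ (N' / 2 + 1)) := by
    obtain ⟨s, rfl⟩ := he
    obtain ⟨t, rfl⟩ := he'
    rw [show (s + s + (t + t)) / 2 = s + t by omega, show (s + s) / 2 = s by omega,
      show (t + t) / 2 = t by omega]
    ring
  rw [h5]
  have h6 := mul_pos hm (mul_pos hpos hpos')
  calc (0 : ℝ) < m * ((-1) ^ (N / 2 + 1) * T * ((-1) ^ (N' / 2 + 1) * U)) := h6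
    _ = _ := by ring

end Join

section Perm

variable (hF : IsFermat W σ F m) {M : Maps F} (hM : IsMaps W F M m) {N : ℕ} (hN : 3 ≤ N)

include hM in
lemma perm_eig (π : Equiv.Perm (Fin N)) {a : Fin N → ZMod m} {x : W.H (F.X m N)}
    (hx : Eig σ (rho W F m N) a x) :
    Eig σ (rho W F m N) (a ∘ π) (W.map (M.perm m N π) x) := by
  intro h
  have h3 := hM.perm_act N π (h ∘ π.symm) x
  have h2 : (h ∘ π.symm) ∘ π = h := by
    funext i
    simp
  rw [h2] at h3
  have h4 : W.map (F.act m N (h ∘ π.symm)) x = chi σ m (pr a (h ∘ π.symm)) • x :=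
    hx (h ∘ π.symm)
  rw [h4, map_smul] at h3
  have h5 : pr (a ∘ π) h = pr a (h ∘ π.symm) := by
    rw [pr, pr, ← Equiv.sum_comp π (fun i => a i * (h ∘ π.symm) i)]
    simp
  rw [h5]
  exact h3.symm

include hF hM hN

omit hN in
lemma perm_prj (π : Equiv.Perm (Fin N)) (a : Fin N → ZMod m) (x : W.H (F.X m N)) :
    prj σ (rho W F m N) (a ∘ π) (W.map (M.perm m N π) x) =
      W.map (M.perm m N π) (prj σ (rho W F m N) a x) := by
  classical
  have h1 : W.map (M.perm m N π) x =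
      ∑ b, W.map (M.perm m N π) (prj σ (rho W F m N) b x) := by
    conv_lhs => rw [← sum_prj (σ := σ) (rho_act hF N) x]
    rw [map_sum]
  conv_lhs => rw [h1]
  rw [← prjL_apply, map_sum, sum_eq_single a]
  · rw [prjL_apply, prj_of_eig (perm_eig hM π (prj_eig (rho_act hF N) a x)), if_pos rfl]
  · intro b _ hb
    rw [prjL_apply, prj_of_eig (perm_eig hM π (prj_eig (rho_act hF N) b x)), if_neg]
    intro h
    apply hb
    funext i
    have := congrFun h (π.symm i)
    simpa using this.symm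
  · intro h
    exact absurd (mem_univ _) h

lemma good_perm (π : Equiv.Perm (Fin N)) {a : Fin N → ZMod m} (hG : Good W σ F m a) :
    Good W σ F m (a ∘ π) := by
  obtain ⟨w, hw, hpos⟩ := hG
  refine ⟨W.map (M.perm m N π) w, hw.map _, ?_⟩
  have h1 : -(a ∘ π) = (-a) ∘ π := rfl
  rw [h1, perm_prj hF hM, perm_prj hF hM, ← map_mul, hM.perm_tr N hN]
  exact hpos

end Perm

end Pool.Agent.H62FV
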