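import Pool.Agent.H62FV.Pos1

/-!
# Positivity on a Fermat variety: cones
-/

set_option autoImplicit false
set_option linter.unusedSectionVars false

open CategoryTheory AlgebraicGeometry Finset
open scoped ComplexConjugate

universe u v u₀ v₀

namespace Pool.Agent.H62FV

open Pool.Agent.H914 Pool.Agent.H914.VarClass Pool.Agent.H914.VarClass.Obj
  Pool.Agent.H914.WeilCohomology Pool.Agent.H281R3.HT Pool.Agent.W552 Pool.Agent.TH132.A
  Pool.Agent.H24HS

variable {k : Type u} [Field k] {𝒱 : VarClass k} {ops : CycleOps 𝒱}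
  {W : WeilCohomology.{u, v} ops} [IsAlgClosed W.K] {σ : W.K →+* ℂ} {F : Family 𝒱} {m : ℕ}
  [NeZero m]

/-- The character `a` extended by `c, -c`. -/
def app {N : ℕ} (a : Fin N → ZMod m) (c : ZMod m) : Fin (N + 2) → ZMod m := Fin.append a ![c, -c]

lemma app_inj {N : ℕ} {a a' : Fin N → ZMod m} {c c' : ZMod m} :
    app a c = app a' c' ↔ a = a' ∧ c = c' := by
  rw [app, app, append_inj]
  constructor
  · rintro ⟨h1, h2⟩
    exact ⟨h1, by simpa using congrFun h2 0⟩
  · rintro ⟨rfl, rfl⟩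
    exact ⟨rfl, rfl⟩

lemma app_neg {N : ℕ} (a : Fin N → ZMod m) (c : ZMod m) : -app a c = app (-a) (-c) := by
  rw [app, app, append_neg]
  congr 1
  funext i
  fin_cases i <;> simp

lemma app_adm {N : ℕ} {a : Fin N → ZMod m} (ha : Adm a) {c : ZMod m} (hc : c ≠ 0) :
    Adm (app a c) := by
  refine Adm.append ha ⟨fun i => ?_, ?_⟩
  · fin_cases i
    · simpa using hc
    · simpa using hc
  · simp

lemma app_adm' {N : ℕ} {a : Fin N → ZMod m} {c : ZMod m} (h : Adm (app a c)) :
    Adm a ∧ c ≠ 0 := by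
  refine ⟨⟨fun i => ?_, ?_⟩, ?_⟩
  · have := h.1 (Fin.castAdd 2 i)
    rwa [app, Fin.append_left] at this
  · have := h.2
    rw [Fin.sum_univ_add] at this
    simp only [app, Fin.append_left, Fin.append_right] at this
    simpa using this
  · have := h.1 (Fin.natAdd N 0)
    rw [app, Fin.append_right] at this
    simpa using this

/-- The components of the cones. -/
noncomputable def cc (W : WeilCohomology.{u, v} ops) (σ : W.K →+* ℂ) {F : Family 𝒱} (M : Maps F)
    (m : ℕ) [NeZero m] (N : ℕ) (c : ZMod m) : W.H (F.X m N) →ₗ[W.K] W.H (F.X m (N + 2)) :=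
  (m : W.K)⁻¹ • ∑ ε : ZMod m, chi σ m (-(c * ε)) • coneOp W M m N ε

variable (hF : IsFermat W σ F m) {M : Maps F} (hM : IsMaps W F M m) {N : ℕ} (hN : 3 ≤ N)

omit [IsAlgClosed W.K] in
lemma cc_apply (c : ZMod m) (x : W.H (F.X m N)) : cc W σ M m N c x =
    (m : W.K)⁻¹ • ∑ ε : ZMod m, chi σ m (-(c * ε)) • coneOp W M m N ε x := by
  rw [cc, LinearMap.smul_apply, LinearMap.sum_apply]
  rfl

include hM hN in
lemma cc_eig (c : ZMod m) {a : Fin N → ZMod m} {x : W.H (F.X m N)}
    (hx : Eig σ (rho W F m N) a x) :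
    Eig σ (rho W F m (N + 2)) (app a c) (cc W σ M m N c x) := by
  intro G
  obtain ⟨g, s, t, rfl⟩ : ∃ (g : Fin N → ZMod m) (s t : ZMod m), G = Fin.append g ![s, t] := by
    refine ⟨fun i => G (Fin.castAdd 2 i), G (Fin.natAdd N 0), G (Fin.natAdd N 1), ?_⟩
    conv_lhs => rw [← append_parts G]
    congr 1
    funext i
    fin_cases i <;> rfl
  have hpr : pr (app a c) (Fin.append g ![s, t]) = pr a g + c * (s - t) := by
    rw [app, pr_append]
    congr 1
    simp [pr]
    ring
  have h1 : ∀ ε, rho W F m (N + 2) (Fin.append g ![s, t]) (coneOp W M m N ε x) =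
      chi σ m (pr a g) • coneOp W M m N (ε + s - t) x := by
    intro ε
    have h2 := hM.cone_act N hN g s t ε x
    have h3 : W.map (F.act m N g) x = chi σ m (pr a g) • x := hx g
    rw [h3, map_smul] at h2
    exact h2
  rw [cc_apply, map_smul, map_sum, smul_comm _ ((m : W.K)⁻¹)]
  congr 1
  rw [smul_sum]
  refine Fintype.sum_equiv (Equiv.addRight (s - t)) _ _ fun ε => ?_
  rw [map_smul, h1, Equiv.coe_addRight, smul_smul, smul_smul, ← chi_add, ← chi_add, hpr]
  congr 2
  · ring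
  · congr 1
    ring

omit [IsAlgClosed W.K] in
lemma sum_cc [IsAlgClosed W.K] (x : W.H (F.X m N)) :
    ∑ c : ZMod m, cc W σ M m N c x = coneOp W M m N 0 x := by
  have hm : (m : W.K) ≠ 0 := Nat.cast_ne_zero.2 (NeZero.ne m)
  simp only [cc_apply]
  rw [← smul_sum, sum_comm]
  have h1 : ∀ ε : ZMod m, ∑ c : ZMod m, chi σ m (-(c * ε)) • coneOp W M m N ε x =
      (if ε = 0 then (m : W.K) else 0) • coneOp W M m N ε x := by
    intro ε
    rw [← sum_smul]
    congr 1
    have h2 := sum_chi σ (-ε)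
    simp only [neg_eq_zero] at h2
    rw [← h2]
    exact sum_congr rfl fun c _ => by congr 1; ring
  rw [sum_congr rfl fun ε _ => h1 ε, sum_eq_single 0, if_pos rfl, smul_smul, inv_mul_cancel₀ hm,
    one_smul]
  · intro ε _ hε
    rw [if_neg hε, zero_smul]
  · intro h
    exact absurd (mem_univ _) h

include hF hM hN

lemma cone_prj (a : Fin N → ZMod m) (c : ZMod m) (x : W.H (F.X m N)) :
    prj σ (rho W F m (N + 2)) (app a c) (coneOp W M m N 0 x) =
      cc W σ M m N c (prj σ (rho W F m N) a x) := by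
  classical
  have h1 : coneOp W M m N 0 x =
      ∑ b, ∑ d, cc W σ M m N d (prj σ (rho W F m N) b x) := by
    conv_lhs => rw [← sum_prj (σ := σ) (rho_act hF N) x]
    rw [map_sum]
    exact sum_congr rfl fun b _ => (sum_cc _).symm
  rw [h1, ← prjL_apply, map_sum, sum_eq_single a, map_sum, sum_eq_single c]
  · rw [prjL_apply, prj_of_eig (cc_eig hM hN c (prj_eig (rho_act hF N) a x)), if_pos rfl]
  · intro d _ hd
    rw [prjL_apply, prj_of_eig (cc_eig hM hN d (prj_eig (rho_act hF N) a x)), if_neg]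
    rw [app_inj]
    exact fun h => hd h.2.symm
  · intro h; exact absurd (mem_univ _) h
  · intro b _ hb
    rw [map_sum]
    refine sum_eq_zero fun d _ => ?_
    rw [prjL_apply, prj_of_eig (cc_eig hM hN d (prj_eig (rho_act hF N) b x)), if_neg]
    rw [app_inj]
    exact fun h => hb h.1.symm
  · intro h; exact absurd (mem_univ _) h

omit hF in
lemma cc_tr {c : ZMod m} (hc : c ≠ 0) {v v' : W.H (F.X m N)} (hv : MidPrim W F m N v)
    (hv' : MidPrim W F m N v') :
    W.tr _ (cc W σ M m N c v * cc W σ M m N (-c) v') = -W.tr _ (v * v') := by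
  have hm : (m : W.K) ≠ 0 := Nat.cast_ne_zero.2 (NeZero.ne m)
  rw [cc_apply, cc_apply, smul_mul_smul_comm, map_smul, sum_mul_sum, map_sum]
  have h1 : ∀ ε : ZMod m, W.tr _ (∑ ε' : ZMod m, (chi σ m (-(c * ε)) • coneOp W M m N ε v) *
      (chi σ m (-(-c * ε')) • coneOp W M m N ε' v')) = -(m : W.K) * W.tr _ (v * v') := by
    intro ε
    rw [map_sum]
    have h2 : ∀ ε' : ZMod m, W.tr _ ((chi σ m (-(c * ε)) • coneOp W M m N ε v) *
      (chi σ m (-(-c * ε')) • coneOp W M m N ε' v')) =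
        (chi σ m (-(c * ε)) * W.tr _ (v * v')) * chi σ m (c * ε') -
        (if ε' = ε then (m : W.K) * W.tr _ (v * v') else 0) := by
      intro ε'
      rw [smul_mul_smul_comm, map_smul, hM.cone_tr N hN ε ε' v v' hv hv', smul_eq_mul]
      by_cases h : ε' = ε
      · subst h
        have h3 : chi σ m (-(c * ε')) * chi σ m (c * ε') = 1 := by
          rw [← chi_add, neg_add_cancel, chi_zero]
        rw [if_pos rfl, if_pos rfl, neg_mul, neg_neg]
        linear_combination (-(m : W.K) * W.tr _ (v * v')) * h3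
      · rw [if_neg (Ne.symm h), if_neg h, neg_mul, neg_neg]
        ring
    rw [sum_congr rfl fun ε' _ => h2 ε', sum_sub_distrib, ← mul_sum, sum_chi σ c, if_neg hc,
      sum_ite_eq' univ ε, if_pos (mem_univ _)]
    ring
  rw [sum_congr rfl fun ε _ => h1 ε, sum_const, card_univ, ZMod.card, smul_eq_mul, nsmul_eq_mul]
  field_simp

lemma good_add (he : Even N) {a : Fin N → ZMod m} (ha : a ≠ 0) {c : ZMod m} (hc : c ≠ 0)
    (hG : Good W σ F m a) : Good W σ F m (app a c) := by
  obtain ⟨w, hw, hpos⟩ := hG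
  refine ⟨coneOp W M m N 0 w, AOp.apply (u := coneOp W M m N 0)
    ⟨_, AS.of ⟨_, hM.cone_cyc N hN 0, rfl⟩, rfl⟩ hw, ?_⟩
  rw [app_neg, cone_prj hF hM hN, cone_prj hF hM hN, cc_tr hM hN hc (midPrim hF hN ha w)
    (midPrim hF hN (neg_ne_zero.2 ha) w)]
  rw [show (N + 2) / 2 + 1 = N / 2 + 1 + 1 by omega, pow_succ, map_neg, Complex.neg_re]
  linarith

lemma good_remove (he : Even N) {a : Fin N → ZMod m} (ha : Adm a) {c : ZMod m} (hc : c ≠ 0)
    (hG : Good W σ F m (app a c)) : Good W σ F m a := by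
  have ha0 := Adm.ne_zero hN ha
  have hna := neg_ne_zero.2 ha0
  have hN2 : 3 ≤ N + 2 := by omega
  have he2 : Even (N + 2) := he.add even_two
  have hA0 := Adm.ne_zero hN2 (app_adm ha hc)
  obtain ⟨w, hw, hpos⟩ := hG
  obtain ⟨hwA, -⟩ := prj_ne_of_pos hpos
  have hcone : ∀ ε, AOp W _ _ (coneOp W M m N ε) := fun ε =>
    ⟨_, AS.of ⟨_, hM.cone_cyc N hN ε, rfl⟩, rfl⟩
  choose u' hu' hadj using fun ε => (hcone ε).adj
  -- some transposed cone has a component
  obtain ⟨ε, hε⟩ : ∃ ε, prj σ (rho W F m N) a (u' ε w) ≠ 0 := by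
    by_contra hno
    push Not at hno
    obtain ⟨v, hvm, hv0, hve, -⟩ := hF.line N hN a ha
    have hvp : prj σ (rho W F m N) a v = v := by rw [prj_of_eig hve, if_pos rfl]
    obtain ⟨y, hy⟩ := exists_pair hF hN (a := a) (x := v) (by rwa [hvp])
    rw [hvp] at hy
    set v' := prj σ (rho W F m N) (-a) y with hv'
    have hmp : MidPrim W F m N v := by rw [← hvp]; exact midPrim hF hN ha0 v
    have hmp' : MidPrim W F m N v' := midPrim hF hN hna y
    have h1 := cc_tr (σ := σ) hM hN hc hmp hmp'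
    have hcv : cc W σ M m N c v ≠ 0 := by
      intro h0
      rw [h0, zero_mul, map_zero] at h1
      exact hy (neg_eq_zero.1 h1.symm)
    have hccA : prj σ (rho W F m (N + 2)) (app a c) (cc W σ M m N c v) = cc W σ M m N c v := by
      rw [prj_of_eig (cc_eig hM hN c hve), if_pos rfl]
    obtain ⟨κ, hκ⟩ := prj_line hF hN2 hA0 (cc W σ M m N c v) w (by rwa [hccA])
    rw [hccA] at hκ
    have hκ0 : κ ≠ 0 := by
      rintro rfl
      rw [zero_smul] at hκ
      exact hwA hκ
    have hcc' : prj σ (rho W F m (N + 2)) (-app a c) (cc W σ M m N (-c) v') =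
        cc W σ M m N (-c) v' := by
      rw [prj_of_eig (cc_eig hM hN (-c) (prj_eig (rho_act hF N) (-a) y)), if_pos]
      rw [app_neg]
    have h2 : W.tr _ (w * cc W σ M m N (-c) v') = κ * -W.tr _ (v * v') := by
      have h3 := prj_form (B := bil W _) (σ := σ) (rho_act hF (N + 2)) (bil_rho hF hN2) (app a c)
        w (cc W σ M m N (-c) v')
      rw [hcc', bil_apply, bil_apply, hκ, smul_mul_assoc, map_smul, smul_eq_mul, h1] at h3
      exact h3.symm
    have h4 : W.tr _ (w * cc W σ M m N (-c) v') = 0 := by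
      rw [comm_of_even hF hN2 he2, cc_apply, smul_mul_assoc, map_smul, sum_mul, map_sum]
      have h5 : ∑ ε : ZMod m, W.tr _ (chi σ m (-(-c * ε)) • coneOp W M m N ε v' * w) = 0 := by
        refine sum_eq_zero fun ε _ => ?_
        rw [smul_mul_assoc, map_smul, hadj]
        have h6 := prj_form (B := bil W _) (σ := σ) (rho_act hF N) (bil_rho hF hN) (-a)
          v' (u' ε w)
        rw [neg_neg, hno ε, map_zero, hv', prj_prj (rho_act hF N), if_pos rfl, bil_apply] at h6
        rw [h6, smul_zero]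
      rw [h5, smul_zero]
    rw [h4] at h2
    rcases mul_eq_zero.1 h2.symm with h7 | h7
    · exact hκ0 h7
    · exact hy (neg_eq_zero.1 h7)
  refine ⟨u' ε w, (hu' ε).apply hw, ?_⟩
  set z := u' ε w with hz
  have hzA : AS W _ z := (hu' ε).apply hw
  have h1 := cc_tr (σ := σ) hM hN hc (midPrim hF hN ha0 z) (midPrim hF hN hna z)
  have hne : prj σ (rho W F m (N + 2)) (app a c) (coneOp W M m N 0 z) ≠ 0 := by
    rw [cone_prj hF hM hN]
    intro h0
    obtain ⟨y, hy⟩ := exists_pair hF hN hε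
    have h2 := cc_tr (σ := σ) hM hN hc (midPrim hF hN ha0 z) (midPrim hF hN hna y)
    rw [h0, zero_mul, map_zero] at h2
    exact hy (neg_eq_zero.1 h2.symm)
  have h3 := Good.all hF hN2 he2 hA0 ⟨w, hw, hpos⟩ ((hcone 0).apply hzA) hne
  rw [app_neg, cone_prj hF hM hN, cone_prj hF hM hN, h1,
    show (N + 2) / 2 + 1 = N / 2 + 1 + 1 by omega, pow_succ, map_neg, Complex.neg_re] at h3
  linarith

end Pool.Agent.H62FV
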