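import Pool.Agent.H62FV.Pos2

/-!
# Positivity on a Fermat variety: the induction, and powers of the coordinates
-/

set_option autoImplicit false
set_option linter.unusedSectionVars false

open CategoryTheory AlgebraicGeometry Finset
open scoped ComplexConjugate

universe u v u₀ v₀

namespace Pool.Agent.H62FV

open Pool.Agent.H914 Pool.Agent.H914.VarClass Pool.Agent.H914.VarClass.Obj
  Pool.Agent.H914.WeilCohomology Pool.Agent.H281R3.HT Pool.Agent.W552 Pool.Agent.TH132.A
  Pool.Agent.H24HS

section Perm

lemma exists_perm {m N : ℕ} {a b : Fin N → ZMod m} (h : ms a = ms b) :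
    ∃ π : Equiv.Perm (Fin N), b = a ∘ π := by
  classical
  have h1 : ∀ x : ZMod m, Fintype.card {i // b i = x} = Fintype.card {i // a i = x} := by
    intro x
    have h2 := congrArg (Multiset.count x) h
    rw [ms, ms, Multiset.count_map, Multiset.count_map] at h2
    rw [Fintype.card_subtype, Fintype.card_subtype]
    have h3 : ∀ c : Fin N → ZMod m, (univ.filter fun i => c i = x).card =
        Multiset.card (Multiset.filter (fun i => x = c i) univ.val) := by
      intro c
      rw [← Finset.filter_val, Finset.card_val]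
      congr 1
      ext i
      simp [eq_comm]
    rw [h3, h3, h2]
  let e : ∀ x : ZMod m, {i // b i = x} ≃ {i // a i = x} := fun x => Fintype.equivOfCardEq (h1 x)
  let π : Equiv.Perm (Fin N) := (Equiv.sigmaFiberEquiv b).symm.trans
    ((Equiv.sigmaCongrRight e).trans (Equiv.sigmaFiberEquiv a))
  refine ⟨π, ?_⟩
  funext i
  have h4 : π i = (e (b i) ⟨i, rfl⟩ : Fin N) := rfl
  rw [Function.comp_apply, h4]
  exact (e (b i) ⟨i, rfl⟩).2.symm

lemma exists_ms {m : ℕ} (s : Multiset (ZMod m)) :
    ∃ a : Fin (Multiset.card s) → ZMod m, ms a = s := by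
  obtain ⟨l, rfl⟩ := Quot.exists_rep s
  refine ⟨fun i => l.get ⟨i.1, i.2⟩, ?_⟩
  rw [ms, Fin.univ_val_map]
  exact congrArg _ (List.ofFn_get l)

lemma ms_append {m N N' : ℕ} (a : Fin N → ZMod m) (b : Fin N' → ZMod m) :
    ms (Fin.append a b) = ms a + ms b := by
  rw [ms, ms, ms, Fin.univ_val_map, Fin.univ_val_map, Fin.univ_val_map, List.ofFn_fin_append]
  rfl

lemma ms_app {m N : ℕ} (a : Fin N → ZMod m) (c : ZMod m) :
    ms (app a c) = ms a + {c, -c} := by
  rw [app, ms_append]
  congr 1

end Perm

variable {k : Type u} [Field k] {𝒱 : VarClass k} {ops : CycleOps 𝒱}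
  {W : WeilCohomology.{u, v} ops} [IsAlgClosed W.K] {σ : W.K →+* ℂ} {F : Family 𝒱} {m : ℕ}
  [NeZero m]

lemma good_of_ms (hF : IsFermat W σ F m) {M : Maps F} (hM : IsMaps W F M m) {N : ℕ}
    (hN : 3 ≤ N) {a b : Fin N → ZMod m} (hab : ms a = ms b) (hG : Good W σ F m a) :
    Good W σ F m b := by
  obtain ⟨π, rfl⟩ := exists_perm hab
  exact good_perm hF hM hN π hG

/-- The positivity for all enumerations of a multiset. -/
def GoodS (W : WeilCohomology.{u, v} ops) (σ : W.K →+* ℂ) (F : Family 𝒱) (m : ℕ) [NeZero m]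
    (s : Multiset (ZMod m)) : Prop :=
  (0 : ZMod m) ∉ s ∧ s.sum = 0 ∧ Even (Multiset.card s) ∧
    ∀ N, 3 ≤ N → ∀ a : Fin N → ZMod m, ms a = s → Good W σ F m a

lemma goodS_of {s : Multiset (ZMod m)} (h0 : (0 : ZMod m) ∉ s) (hs : s.sum = 0)
    (he : Even (Multiset.card s)) (hF : IsFermat W σ F m) {M : Maps F} (hM : IsMaps W F M m)
    {N : ℕ} (hN : 3 ≤ N) {a : Fin N → ZMod m} (ha : ms a = s) (hG : Good W σ F m a) :
    GoodS W σ F m s := by
  refine ⟨h0, hs, he, fun N' hN' b hb => ?_⟩
  have h1 : N = N' := by rw [← card_ms a, ← card_ms b, ha, hb]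
  subst h1
  exact good_of_ms hF hM hN (ha.trans hb.symm) hG

/-- Pairs. -/
lemma card_two {s : Multiset (ZMod m)} (h0 : (0 : ZMod m) ∉ s) (hs : s.sum = 0)
    (hc : Multiset.card s = 2) : ∃ c : ZMod m, c ≠ 0 ∧ s = {c, -c} := by
  obtain ⟨c, d, rfl⟩ := Multiset.card_eq_two.1 hc
  have hd : d = -c := by
    simp only [Multiset.insert_eq_cons, Multiset.sum_cons, Multiset.sum_singleton] at hs
    exact (neg_eq_of_add_eq_zero_right hs).symm
  subst hd
  exact ⟨c, fun h => h0 (by rw [h]; simp), rfl⟩

/-- **The induction.** -/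
theorem goodS_of_generated (hF : IsFermat W σ F m) {M : Maps F} (hM : IsMaps W F M m) {p : ℕ}
    (hp : p.Coprime m) (hA : IsArith W σ F p m) {s : Multiset (ZMod m)}
    (h : H916T.Generated m (fun t => H916T.SurfaceTate p m t ∨
      ∃ q : ℕ, q.Prime ∧ q ∣ m ∧ H916T.Standard q m t) s) : GoodS W σ F m s := by
  -- adding a pair
  have hadd : ∀ (s : Multiset (ZMod m)) (c : ZMod m), c ≠ 0 → GoodS W σ F m s →
      GoodS W σ F m (s + {c, -c}) := by
    intro s c hc hs
    have h0 : (0 : ZMod m) ∉ s + {c, -c} := by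
      rw [Multiset.mem_add]
      rintro (h | h)
      · exact hs.1 h
      · simp only [Multiset.insert_eq_cons, Multiset.mem_cons, Multiset.mem_singleton] at h
        rcases h with h | h
        · exact hc h.symm
        · exact hc (neg_eq_zero.1 h.symm)
    have hsum : (s + {c, -c}).sum = 0 := by
      rw [Multiset.sum_add, hs.2.1]
      simp
    have hcard : Multiset.card (s + {c, -c}) = Multiset.card s + 2 := by
      rw [Multiset.card_add]
      rfl
    have heven : Even (Multiset.card (s + {c, -c})) := by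
      rw [hcard]
      exact hs.2.2.1.add even_two
    by_cases h3 : 3 ≤ Multiset.card s
    · obtain ⟨a, ha⟩ := exists_ms s
      have hadm : Adm a := adm_iff.2 (by rw [ha]; exact ⟨hs.1, hs.2.1⟩)
      exact goodS_of h0 hsum heven hF hM (N := Multiset.card s + 2) (by omega)
        (by rw [ms_app, ha]) (good_add hF hM h3 hs.2.2.1 (Adm.ne_zero h3 hadm) hc
          (hs.2.2.2 _ h3 a ha))
    · obtain ⟨t, ht⟩ := hs.2.2.1
      have ht2 : t = 0 ∨ t = 1 := by omega
      rcases ht2 with rfl | rfl
      · refine ⟨h0, hsum, heven, fun N hN a ha => ?_⟩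
        have h4 := card_ms a
        rw [ha, hcard] at h4
        omega
      · obtain ⟨d, hd, hsd⟩ := card_two hs.1 hs.2.1 ht
        refine ⟨h0, hsum, heven, fun N hN a ha => ?_⟩
        have h4 := card_ms a
        rw [ha, hcard, ht] at h4
        subst h4
        apply good_surface hF hA
        rw [ha, hsd]
        have h5 := (H916T.surface_of hp hd (neg_ne_zero.2 hd) hc (neg_ne_zero.2 hc) (by ring)
          (fun t => by rw [mul_neg, mul_neg, H916T.W_neg, H916T.W_neg]; ring)).1
        exact h5
  induction h with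
  | ofBase s hs =>
    rcases hs with hs | ⟨q, hq, hqm, hs⟩
    · refine ⟨hs.1.1, hs.1.2.2.1, hs.1.2.1, fun N hN a ha => ?_⟩
      have h4 := card_ms a
      rw [ha, hs.2] at h4
      subst h4
      exact good_surface hF hA (by rw [ha]; exact hs.1)
    · have hs' := hs
      obtain ⟨hodd, b, hb, hsb⟩ := hs
      have hq0 : q ≠ 0 := hq.ne_zero
      have hcard : Multiset.card s = q + 1 := by rw [hsb]; simp
      have hq' : ((q : ℕ) : ZMod m) * ((m / q : ℕ) : ZMod m) = 0 := by
        rw [← Nat.cast_mul, Nat.mul_div_cancel' hqm, ZMod.natCast_self]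
      refine ⟨?_, ?_, ?_, fun N hN a ha => ?_⟩
      · rw [hsb]
        simp only [Multiset.mem_cons, Multiset.mem_map, Multiset.mem_range, not_or, not_exists,
          not_and]
        refine ⟨fun h => hb (neg_eq_zero.1 h.symm), fun i _ hi => hb ?_⟩
        have h6 : b = -((i : ZMod m) * ((m / q : ℕ) : ZMod m)) := by linear_combination hi
        rw [h6]
        linear_combination (-(i : ZMod m)) * hq'
      · rw [hsb, Multiset.sum_cons, Multiset.sum_map_add]
        have h7 : ((Multiset.range q).map fun _ : ℕ => b).sum = (q : ZMod m) * b := by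
          simp
        have h8 : ((Multiset.range q).map fun i : ℕ =>
            (i : ZMod m) * ((m / q : ℕ) : ZMod m)).sum = 0 := by
          rw [Multiset.sum_map_mul_right]
          have h9 : ((Multiset.range q).map fun i : ℕ => (i : ZMod m)).sum =
              ((∑ i ∈ range q, i : ℕ) : ZMod m) := by
            push_cast
            rfl
          rw [h9, Finset.sum_range_id]
          obtain ⟨t, ht⟩ := hodd
          have h10 : q * (q - 1) / 2 = q * t := by
            rw [show q * (q - 1) = (q * t) * 2 by rw [show q - 1 = 2 * t by omega]; ring]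
            exact Nat.mul_div_cancel _ (by norm_num)
          rw [h10]
          push_cast
          linear_combination (t : ZMod m) * hq'
        rw [h7, h8]
        ring
      · rw [hcard]
        exact hodd.add_odd odd_one
      · have h4 := card_ms a
        rw [ha, hcard] at h4
        subst h4
        exact good_lift hF hA hq hqm (by rw [ha]; exact hs')
  | pair a ha =>
    refine ⟨?_, by simp, ?_, fun N hN b hb => ?_⟩
    · simp only [Multiset.insert_eq_cons, Multiset.mem_cons, Multiset.mem_singleton, not_or]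
      exact ⟨ha.symm, fun h => ha (neg_eq_zero.1 h.symm)⟩
    · exact ⟨1, rfl⟩
    · have h4 := card_ms b
      rw [hb] at h4
      have h5 : Multiset.card ({a, -a} : Multiset (ZMod m)) = 2 := rfl
      omega
  | join s t _ _ hs ht =>
    have hs3 : 3 ≤ Multiset.card s ∨ Multiset.card s = 2 ∨ Multiset.card s = 0 := by
      obtain ⟨r, hr⟩ := hs.2.2.1
      omega
    have ht3 : 3 ≤ Multiset.card t ∨ Multiset.card t = 2 ∨ Multiset.card t = 0 := by
      obtain ⟨r, hr⟩ := ht.2.2.1
      omega
    rcases ht3 with ht3 | ht3 | ht3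
    · rcases hs3 with hs3 | hs3 | hs3
      · obtain ⟨a, ha⟩ := exists_ms s
        obtain ⟨b, hb⟩ := exists_ms t
        have hadm : Adm a := adm_iff.2 (by rw [ha]; exact ⟨hs.1, hs.2.1⟩)
        have hbdm : Adm b := adm_iff.2 (by rw [hb]; exact ⟨ht.1, ht.2.1⟩)
        have hG := good_join hF hM hs3 ht3 hs.2.2.1 ht.2.2.1 (Adm.ne_zero hs3 hadm)
          (Adm.ne_zero ht3 hbdm) (hs.2.2.2 _ hs3 a ha) (ht.2.2.2 _ ht3 b hb)
        refine goodS_of ?_ ?_ ?_ hF hM (N := Multiset.card s + Multiset.card t) (by omega)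
          (by rw [ms_append, ha, hb]) hG
        · rw [Multiset.mem_add]
          rintro (h | h)
          · exact hs.1 h
          · exact ht.1 h
        · rw [Multiset.sum_add, hs.2.1, ht.2.1, add_zero]
        · rw [Multiset.card_add]
          exact hs.2.2.1.add ht.2.2.1
      · obtain ⟨c, hc, rfl⟩ := card_two hs.1 hs.2.1 hs3
        rw [add_comm]
        exact hadd t c hc ht
      · rw [Multiset.card_eq_zero.1 hs3, zero_add]
        exact ht
    · obtain ⟨c, hc, rfl⟩ := card_two ht.1 ht.2.1 ht3
      exact hadd s c hc hs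
    · rw [Multiset.card_eq_zero.1 ht3, add_zero]
      exact hs
  | cancel c s _ ih =>
    have h0 : (0 : ZMod m) ∉ s := fun h => ih.1 (Multiset.mem_cons_of_mem
      (Multiset.mem_cons_of_mem h))
    have hc : c ≠ 0 := fun h => ih.1 (by rw [h]; exact Multiset.mem_cons_self _ _)
    have hsum : s.sum = 0 := by
      have := ih.2.1
      rw [Multiset.sum_cons, Multiset.sum_cons] at this
      rwa [add_neg_cancel_left] at this
    have heven : Even (Multiset.card s) := by
      have := ih.2.2.1
      rw [Multiset.card_cons, Multiset.card_cons] at this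
      obtain ⟨r, hr⟩ := this
      exact ⟨r - 1, by omega⟩
    refine ⟨h0, hsum, heven, fun N hN a ha => ?_⟩
    have hNN : N = Multiset.card s := by rw [← card_ms a, ha]
    have he : Even N := by rw [hNN]; exact heven
    have hadm : Adm a := adm_iff.2 (by rw [ha]; exact ⟨h0, hsum⟩)
    refine good_remove hF hM hN he hadm hc (ih.2.2.2 (N + 2) (by omega) (app a c) ?_)
    rw [ms_app, ha, add_comm, Multiset.insert_eq_cons, Multiset.cons_add, Multiset.singleton_add]

end Pool.Agent.H62FV
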