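import Pool.Agent.H62FV.Step

/-!
# Positivity on products of Fermat varieties: conclusion
-/

set_option autoImplicit false
set_option linter.unusedSectionVars false

open CategoryTheory AlgebraicGeometry Finset
open scoped ComplexConjugate

universe u v

namespace Pool.Agent.H62FV

open Pool.Agent.H914 Pool.Agent.H914.VarClass Pool.Agent.H914.VarClass.Obj
  Pool.Agent.H914.WeilCohomology Pool.Agent.H281R3.HT Pool.Agent.W552 Pool.Agent.TH132.A
  Pool.Agent.H24HS

variable {k : Type u} [Field k] {𝒱 : VarClass k} {ops : CycleOps 𝒱}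
  {W : WeilCohomology.{u, v} ops} [IsAlgClosed W.K] {σ : W.K →+* ℂ} {F : Family 𝒱} {m : ℕ}
  [NeZero m]

/-- The external product with a fixed class. -/
noncomputable def lext (W : WeilCohomology.{u, v} ops) (X Y : 𝒱.Obj) (w : W.H X) :
    W.H Y →ₗ[W.K] W.H (X.prod Y) :=
  LinearMap.mulLeft W.K (W.map (fst X Y) w) ∘ₗ (W.map (snd X Y)).toLinearMap

lemma lext_apply {X Y : 𝒱.Obj} (w : W.H X) (y : W.H Y) : lext W X Y w y = ext W w y := rfl

lemma lext_AOp {X Y : 𝒱.Obj} {w : W.H X} (hw : AS W X w) : AOp W Y (X.prod Y) (lext W X Y w) :=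
  (AOp_mulLeft (hw.map _)).comp (AOp_map _)

lemma lft_lext {X Y : 𝒱.Obj} (u : Module.End W.K (W.H X)) (w : W.H X) :
    lft W Y u ∘ₗ lext W X Y w = lext W X Y (u w) := by
  apply LinearMap.ext
  intro y
  rw [LinearMap.comp_apply, lext_apply, lft_ext, lext_apply]

/-- Positivity on the products. -/
theorem pos_of_tt {L : List (Cx W)} (hL : ∀ U ∈ L, Fr W U.X U.D U.f) {N : ℕ}
    {D : (F.X m N).Cycles} {f : Module.End W.K (W.H (F.X m N))} (hD : FV W F m N D f)
    (h : TT σ F m (⟨F.X m N, D, f⟩ :: L)) {D₄ : (F.X m 4).Cycles}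
    {f₄ : Module.End W.K (W.H (F.X m 4))} (hD₄ : FV W F m 4 D₄ f₄) {a : Fin 4 → ZMod m}
    (ha : Adm a) {v : W.H (F.X m 4)} (hv : AS W _ v)
    (hpos : 0 < (σ (bf W _ D₄ f₄ (prj σ (rho W F m 4) a v)
      (prj σ (rho W F m 4) (-a) v))).re)
    {y : W.H (cObj L (F.X m N))} (hy : AS W _ y) (hy0 : y ≠ 0) :
    ∃ q : ℚ, 0 < q ∧ cB L D f y y = q := by
  have hL' : ∀ U ∈ L, Lw W U.X U.D U.f := fun U hU => ⟨(hL U hU).hD, (hL U hU).sl2⟩
  obtain ⟨q, hq⟩ := (cFr hL hD.fr).bf_rat hy hy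
  refine ⟨q, ?_, hq⟩
  set β := bf W _ D₄ f₄ (prj σ (rho W F m 4) a v) (prj σ (rho W F m 4) (-a) v) with hβ
  have hβ0 : β ≠ 0 := by
    intro h0
    rw [h0, map_zero, Complex.zero_re] at hpos
    exact lt_irrefl _ hpos
  have key : ∀ y', cB L (ops.pull (fst (F.X m 4) (F.X m N)) D₄ +
      ops.pull (snd (F.X m 4) (F.X m N)) D) (extSum W f₄ f)
        (cMap L (lext W (F.X m 4) (F.X m N) (prjL σ (rho W F m 4) a v)) y)
        (cMap L (lext W (F.X m 4) (F.X m N) (prjL σ (rho W F m 4) (-a) v)) y') =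
      β * cB L D f y y' := by
    intro y'
    have h1 := cB_transport L hL' (hD₄.lw.prod hD.lw) hD.lw
      (u := lext W (F.X m 4) (F.X m N) (prjL σ (rho W F m 4) a v))
      (v := lext W (F.X m 4) (F.X m N) (prjL σ (rho W F m 4) (-a) v))
      (u₁ := (1 : Module.End W.K (W.H (F.X m N)))) (v₁ := (1 : Module.End W.K (W.H (F.X m N))))
      (c := β) (by
        intro s t
        rw [lext_apply, lext_apply, hD₄.lw.bf_ext hD.lw, prjL_apply, prjL_apply]
        rfl) y y'
    rw [cMap_one, Module.End.one_apply, Module.End.one_apply] at h1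
    exact h1
  have hz := cMap_AS L (lext_AOp (Y := F.X m N) hv) hy
  have e1 : cMap L (lft W (F.X m N) (prjL σ (rho W F m 4) a))
      (cMap L (lext W (F.X m 4) (F.X m N) v) y) =
      cMap L (lext W (F.X m 4) (F.X m N) (prjL σ (rho W F m 4) a v)) y := by
    rw [cMap_comp_apply, lft_lext]
  have e2 : cMap L (lft W (F.X m N) (prjL σ (rho W F m 4) (-a)))
      (cMap L (lext W (F.X m 4) (F.X m N) v) y) =
      cMap L (lext W (F.X m 4) (F.X m N) (prjL σ (rho W F m 4) (-a) v)) y := by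
    rw [cMap_comp_apply, lft_lext]
  have h2 := h 4 (by norm_num) D₄ f₄ hD₄ a ha
    (cMap L (lext W (F.X m 4) (F.X m N) v) y) hz
  change cMap L (lft W (F.X m N) (prjL σ (rho W F m 4) a))
    (cMap L (lext W (F.X m 4) (F.X m N) v) y) ≠ 0 → 0 < (σ (cB L
      (ops.pull (fst (F.X m 4) (F.X m N)) D₄ + ops.pull (snd (F.X m 4) (F.X m N)) D)
      (extSum W f₄ f) (cMap L (lft W (F.X m N) (prjL σ (rho W F m 4) a))
      (cMap L (lext W (F.X m 4) (F.X m N) v) y))
      (cMap L (lft W (F.X m N) (prjL σ (rho W F m 4) (-a)))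
      (cMap L (lext W (F.X m 4) (F.X m N) v) y)))).re at h2
  rw [e1, e2, key] at h2
  have h3 := h2 (by
    intro h0
    apply hy0
    apply bf_nondeg (cLw hL' hD.lw)
    intro y'
    have h4 := key y'
    rw [h0, map_zero, LinearMap.zero_apply] at h4
    rcases mul_eq_zero.1 h4.symm with h5 | h5
    · exact absurd h5 hβ0
    · exact h5)
  have h6 : (σ (β * cB L D f y y)).re = q * (σ β).re := by
    rw [hq, mul_comm, map_mul, map_ratCast, ← Complex.ofReal_ratCast, Complex.re_ofReal_mul]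
  rw [h6] at h3
  have h7 : (0 : ℝ) < q := (pos_iff_pos_of_mul_pos h3).2 hpos
  exact_mod_cast h7

/-- Lists of multiples of the divisors of Fermat varieties. -/
def FList (F : Family 𝒱) (m : ℕ) (L : List (Cx W)) : Prop :=
  ∀ U ∈ L, ∃ N, 3 ≤ N ∧ ∃ (D : (F.X m N).Cycles) (f : Module.End W.K (W.H (F.X m N))),
    FV W F m N D f ∧ U = ⟨F.X m N, D, f⟩

lemma FList.fr {L : List (Cx W)} (h : FList F m L) : ∀ U ∈ L, Fr W U.X U.D U.f := by
  intro U hU
  obtain ⟨N, _, D, f, hD, rfl⟩ := h U hU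
  exact hD.fr

lemma FList.lw {L : List (Cx W)} (h : FList F m L) : ∀ U ∈ L, Lw W U.X U.D U.f :=
  fun U hU => ⟨(h.fr U hU).hD, (h.fr U hU).sl2⟩

theorem tt_all (hF : IsFermat W σ F m) {M : Maps F} (hM : IsMaps W F M m)
    (h : TT σ F m ([] : List (Cx W))) {L : List (Cx W)} (hL : FList F m L) : TT σ F m L := by
  induction L with
  | nil => exact h
  | cons U L ih =>
    have hL' : FList F m L := fun V hV => hL V (List.mem_cons_of_mem _ hV)
    obtain ⟨N, hN, D, f, hD, rfl⟩ := hL U List.mem_cons_self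
    exact tt_step hF hM hL'.lw (ih hL') hN hD

end Pool.Agent.H62FV
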