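import Pool.Agent.H62FV.Pos3
import Pool.Agent.H62FV.Step2

/-!
# Positivity on a Fermat variety: powers of the coordinates
-/

set_option autoImplicit false
set_option linter.unusedSectionVars false

open CategoryTheory AlgebraicGeometry Finset
open scoped ComplexConjugate

universe u v u₀ v₀

namespace Pool.Agent.H62FV

open Pool.Agent.H914 Pool.Agent.H914.VarClass Pool.Agent.H914.VarClass.Obj
  Pool.Agent.H914.WeilCohomology Pool.Agent.H281R3.HT Pool.Agent.W552 Pool.Agent.TH132.A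
  Pool.Agent.H24HS

section Scale

variable {ν m : ℕ} [NeZero m] [NeZero (ν * m)]

/-- The residue `ν x` modulo `ν m`. -/
def scl (ν m : ℕ) (x : ZMod m) : ZMod (ν * m) := ((ν * x.val : ℕ) : ZMod (ν * m))

omit [NeZero m] [NeZero (ν * m)] in
lemma nu_pos (ν m : ℕ) [NeZero (ν * m)] : 0 < ν :=
  Nat.pos_of_ne_zero fun h => NeZero.ne (ν * m) (by rw [h, zero_mul])

lemma scl_inj {x y : ZMod m} (h : scl ν m x = scl ν m y) : x = y := by
  have hν : 0 < ν := nu_pos ν m
  have h1 := (ZMod.natCast_eq_natCast_iff' _ _ _).1 h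
  rw [Nat.mod_eq_of_lt (Nat.mul_lt_mul_of_pos_left (ZMod.val_lt x) hν),
    Nat.mod_eq_of_lt (Nat.mul_lt_mul_of_pos_left (ZMod.val_lt y) hν)] at h1
  exact ZMod.val_injective m (Nat.eq_of_mul_eq_mul_left hν h1)

lemma scl_ne {x : ZMod m} (h : x ≠ 0) : scl ν m x ≠ 0 := by
  intro h0
  apply h
  apply scl_inj (ν := ν)
  rw [h0, scl, ZMod.val_zero, mul_zero, Nat.cast_zero]

omit [NeZero (ν * m)] in
lemma scl_neg (x : ZMod m) : scl ν m (-x) = -scl ν m x := by
  rw [eq_neg_iff_add_eq_zero, scl, scl, ← Nat.cast_add, ← mul_add]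
  have h1 : m ∣ (-x).val + x.val := by
    rw [← ZMod.natCast_eq_zero_iff]
    push_cast
    rw [ZMod.natCast_zmod_val, ZMod.natCast_zmod_val, neg_add_cancel]
  rw [ZMod.natCast_eq_zero_iff]
  exact Nat.mul_dvd_mul_left ν h1

variable {K : Type*} [Field K] [CharZero K] [IsAlgClosed K] (σ : K →+* ℂ)

lemma chi_scl (u : ZMod (ν * m)) : chi σ (ν * m) ((ν : ZMod (ν * m)) * u) =
    chi σ m (ZMod.castHom (dvd_mul_left m ν) (ZMod m) u) := by
  apply σ.injective
  rw [sigma_chi, sigma_chi]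
  obtain ⟨j, rfl⟩ := ZMod.intCast_surjective u
  have h1 : (ν : ZMod (ν * m)) * (j : ZMod (ν * m)) = (((ν : ℤ) * j : ℤ) : ZMod (ν * m)) := by
    push_cast; rfl
  have h2 : ZMod.castHom (dvd_mul_left m ν) (ZMod m) ((j : ℤ) : ZMod (ν * m)) =
    ((j : ℤ) : ZMod m) := map_intCast _ _
  rw [h1, h2, ZMod.stdAddChar_coe, ZMod.stdAddChar_coe]
  congr 1
  have hν : (ν : ℂ) ≠ 0 := Nat.cast_ne_zero.2 (nu_pos ν m).ne'
  have hm : (m : ℂ) ≠ 0 := Nat.cast_ne_zero.2 (NeZero.ne m)
  push_cast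
  field_simp

lemma chi_pr_scl {N : ℕ} (a : Fin N → ZMod m) (g : Fin N → ZMod (ν * m)) :
    chi σ (ν * m) (pr (fun i => scl ν m (a i)) g) =
      chi σ m (pr a (fun i => ZMod.castHom (dvd_mul_left m ν) (ZMod m) (g i))) := by
  have h1 : pr (fun i => scl ν m (a i)) g =
      (ν : ZMod (ν * m)) * ∑ i, (((a i).val : ℕ) : ZMod (ν * m)) * g i := by
    rw [pr, mul_sum]
    refine sum_congr rfl fun i _ => ?_
    rw [scl]
    push_cast
    ring
  rw [h1, chi_scl]
  congr 1
  rw [map_sum, pr]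
  refine sum_congr rfl fun i _ => ?_
  rw [map_mul, map_natCast, ZMod.natCast_zmod_val]

end Scale

variable {k : Type u} [Field k] {𝒱 : VarClass k} {ops : CycleOps 𝒱}
  {W : WeilCohomology.{u, v} ops} [IsAlgClosed W.K] {σ : W.K →+* ℂ} {F : Family 𝒱} {m : ℕ}
  [NeZero m]

section Pow

variable {ν : ℕ} [NeZero (ν * m)] (hF : IsFermat W σ F m) (hF' : IsFermat W σ F (ν * m))
  {M : Maps F} (hP : IsPow W F M ν m) {N : ℕ}

include hP in
lemma pow_eig {a : Fin N → ZMod m} {x : W.H (F.X m N)} (hx : Eig σ (rho W F m N) a x) :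
    Eig σ (rho W F (ν * m) N) (fun i => scl ν m (a i)) (W.map (M.pow ν m N) x) := by
  intro g
  have h3 := hP.act N g x
  have h4 : W.map (F.act m N fun i => ZMod.castHom (dvd_mul_left m ν) (ZMod m) (g i)) x =
      chi σ m (pr a fun i => ZMod.castHom (dvd_mul_left m ν) (ZMod m) (g i)) • x := hx _
  rw [h4, map_smul] at h3
  rw [chi_pr_scl]
  exact h3

include hF hP in
lemma pow_prj (a : Fin N → ZMod m) (x : W.H (F.X m N)) :
    prj σ (rho W F (ν * m) N) (fun i => scl ν m (a i)) (W.map (M.pow ν m N) x) =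
      W.map (M.pow ν m N) (prj σ (rho W F m N) a x) := by
  classical
  have h1 : W.map (M.pow ν m N) x =
      ∑ b, W.map (M.pow ν m N) (prj σ (rho W F m N) b x) := by
    conv_lhs => rw [← sum_prj (σ := σ) (rho_act hF N) x]
    rw [map_sum]
  conv_lhs => rw [h1]
  rw [← prjL_apply, map_sum, sum_eq_single a]
  · rw [prjL_apply, prj_of_eig (pow_eig hP (prj_eig (rho_act hF N) a x)), if_pos rfl]
  · intro b _ hb
    rw [prjL_apply, prj_of_eig (pow_eig hP (prj_eig (rho_act hF N) b x)), if_neg]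
    intro h
    apply hb
    funext i
    exact (scl_inj (congrFun h i)).symm
  · intro h
    exact absurd (mem_univ _) h

include hF hF' hP in
/-- Positivity in degree `m` follows from positivity in degree `ν m`. -/
lemma pos_pow (hN : 3 ≤ N) (he : Even N) {a : Fin N → ZMod m} (ha : Adm a)
    (hG : Good W σ F (ν * m) (fun i => scl ν m (a i))) {z : W.H (F.X m N)} (hz : AS W _ z)
    (hz0 : prj σ (rho W F m N) a z ≠ 0) :
    0 < (-1 : ℝ) ^ (N / 2 + 1) *
      (σ (W.tr _ (prj σ (rho W F m N) a z * prj σ (rho W F m N) (-a) z))).re := by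
  have hν : (0 : ℝ) < ν := by exact_mod_cast nu_pos ν m
  have hdim : (F.X (ν * m) N).dim = (F.X m N).dim := by
    have h1 := hF.dim N hN
    have h2 := hF'.dim N hN
    omega
  have htr : ∀ x, W.tr _ (W.map (M.pow ν m N) x) = (((ν : ℚ) ^ (N - 1) : ℚ) : W.K) * W.tr _ x := by
    intro x
    rw [hP.tr N hN x]
    push_cast
    rfl
  have ha0 : (fun i => scl ν m (a i)) ≠ 0 := by
    intro h
    exact scl_ne (ha.1 ⟨0, by omega⟩) (congrFun h ⟨0, by omega⟩)
  have hneg : -(fun i => scl ν m (a i)) = fun i => scl ν m ((-a) i) := by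
    funext i
    rw [Pi.neg_apply, Pi.neg_apply, scl_neg]
  have hne : prj σ (rho W F (ν * m) N) (fun i => scl ν m (a i)) (W.map (M.pow ν m N) z) ≠ 0 := by
    rw [pow_prj hF hP]
    intro h0
    apply hz0
    apply W.nondeg
    intro y
    have h1 := htr (prj σ (rho W F m N) a z * y)
    rw [map_mul, h0, zero_mul, map_zero] at h1
    rcases mul_eq_zero.1 h1.symm with h2 | h2
    · exfalso
      have h3 : ((ν : ℚ) ^ (N - 1)) ≠ 0 := pow_ne_zero _ (by
        have := nu_pos ν m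
        positivity)
      exact h3 (by exact_mod_cast h2)
    · exact h2
  have h1 := Good.all hF' hN he ha0 hG (hz.map (M.pow ν m N)) hne
  rw [hneg, pow_prj hF hP, pow_prj hF hP, ← map_mul, htr, map_mul, map_ratCast,
    ← Complex.ofReal_ratCast, Complex.re_ofReal_mul] at h1
  push_cast at h1
  have h2 : (0 : ℝ) < (ν : ℝ) ^ (N - 1) := pow_pos hν _
  have h3 : (-1 : ℝ) ^ (N / 2 + 1) * ((ν : ℝ) ^ (N - 1) *
      (σ (W.tr _ (prj σ (rho W F m N) a z * prj σ (rho W F m N) (-a) z))).re) =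
      (ν : ℝ) ^ (N - 1) * ((-1 : ℝ) ^ (N / 2 + 1) *
      (σ (W.tr _ (prj σ (rho W F m N) a z * prj σ (rho W F m N) (-a) z))).re) := by ring
  rw [h3] at h1
  exact (pos_iff_pos_of_mul_pos h1).1 h2

end Pow

/-- The characters of algebraic classes. -/
lemma tate_of_AS (hF : IsFermat W σ F m) {p : ℕ} (hA : IsArith W σ F p m) {N : ℕ} (hN : 3 ≤ N)
    {a : Fin N → ZMod m} (ha : Adm a) {z : W.H (F.X m N)} (hz : AS W _ z)
    (hz0 : prj σ (rho W F m N) a z ≠ 0) : Even N ∧ H916T.IsTate p m (ms a) := by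
  have h1 : ∀ z, AS W (F.X m N) z → prj σ (rho W F m N) a z ≠ 0 →
      Even N ∧ H916T.IsTate p m (ms a) := by
    intro z hz
    refine AS.ind (p := fun z => prj σ (rho W F m N) a z ≠ 0 →
      Even N ∧ H916T.IsTate p m (ms a)) ?_ ?_ hz
    · rintro j _ ⟨y, hy, rfl⟩ h0
      by_cases hj : 2 * j = (F.X m N).dim
      · have h2 := hF.dim N hN
        exact ⟨⟨j + 1, by omega⟩, hA.tate N j hN hj y hy a ha h0⟩
      · exfalso
        apply h0
        exact eig_deg hF hN (Adm.ne_zero hN ha) hj (prj_gr a (W.cl_mem hy))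
          (prj_eig (rho_act hF N) a _)
    · intro x y hx hy h0
      by_cases hx0 : prj σ (rho W F m N) a x = 0
      · by_cases hy0 : prj σ (rho W F m N) a y = 0
        · exfalso
          apply h0
          rw [prj_add, hx0, hy0, add_zero]
        · exact hy hy0
      · exact hx hx0
  exact h1 z hz hz0

lemma tt_nil_aux (hF : IsFermat W σ F m) {M : Maps F} {p : ℕ} (hA : IsArith W σ F p m)
    (h : ∀ s, H916T.IsTate p m s → s ≠ 0 → ∃ ν : ℕ, ∃ _ : NeZero (ν * m), IsFermat W σ F (ν * m) ∧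
      IsPow W F M ν m ∧ GoodS W σ F (ν * m) (s.map (scl ν m))) {N : ℕ} (hN : 3 ≤ N)
    {D : (F.X m N).Cycles} {f : Module.End W.K (W.H (F.X m N))} (hD : FV W F m N D f)
    {a : Fin N → ZMod m} (ha : Adm a) {z : W.H (F.X m N)} (hz : AS W _ z)
    (hz0 : prjL σ (rho W F m N) a z ≠ 0) :
    0 < (σ (bf W _ D f (prjL σ (rho W F m N) a z) (prjL σ (rho W F m N) (-a) z))).re := by
  rw [prjL_apply] at hz0
  rw [prjL_apply, prjL_apply]
  obtain ⟨he, hT⟩ := tate_of_AS hF hA hN ha hz hz0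
  obtain ⟨ν, hν, hF', hP, hG⟩ := h _ hT (fun h0 => by
    have h1 := card_ms a
    rw [h0, Multiset.card_zero] at h1
    omega)
  have ha0 := Adm.ne_zero hN ha
  have h1 := pos_pow hF hF' hP hN he ha (hG.2.2.2 N hN (fun i => scl ν m (a i)) (by
    rw [ms, ms, Multiset.map_map]
    rfl)) hz hz0
  rw [hD.bf_prj hF hN (neg_ne_zero.2 ha0), map_mul, map_intCast]
  have hdim := hF.dim N hN
  obtain ⟨t, ht⟩ := he
  have h2 : sg (F.X m N).dim = (-1) ^ (N / 2 + 1) := by
    rw [show (F.X m N).dim = 2 * (t - 1) by omega, sg_two_mul, show N / 2 + 1 = (t - 1) + 2 by omega,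
      pow_add]
    simp
  rw [h2]
  have h3 : (((((-1) ^ (N / 2 + 1) : ℤ) : ℂ)) * σ (W.tr _ (prj σ (rho W F m N) a z *
      prj σ (rho W F m N) (-a) z))).re = (-1 : ℝ) ^ (N / 2 + 1) *
      (σ (W.tr _ (prj σ (rho W F m N) a z * prj σ (rho W F m N) (-a) z))).re := by
    rw [← Complex.ofReal_intCast, Complex.re_ofReal_mul]
    push_cast
    rfl
  rw [h3]
  exact h1

/-- **Positivity on a single Fermat variety.** -/
theorem tt_nil (hF : IsFermat W σ F m) {M : Maps F} {p : ℕ} (hA : IsArith W σ F p m)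
    (h : ∀ s, H916T.IsTate p m s → s ≠ 0 → ∃ ν : ℕ, ∃ _ : NeZero (ν * m), IsFermat W σ F (ν * m) ∧
      IsPow W F M ν m ∧ GoodS W σ F (ν * m) (s.map (scl ν m))) :
    TT σ F m ([] : List (Cx W)) :=
  fun _ hN _ _ hD _ ha _ hz hz0 => tt_nil_aux hF hA h hN hD ha hz hz0

end Pool.Agent.H62FV
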