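import Pool.Agent.H62FV.Line3

/-!
# Positivity on products of Fermat varieties: the induction step
-/

set_option autoImplicit false
set_option linter.unusedSectionVars false

open CategoryTheory AlgebraicGeometry Finset
open scoped ComplexConjugate

universe u v

namespace Pool.Agent.H62FV

open Pool.Agent.H914 Pool.Agent.H914.VarClass Pool.Agent.H914.VarClass.Obj
  Pool.Agent.H914.WeilCohomology Pool.Agent.H281R3.HT Pool.Agent.W552 Pool.Agent.TH132.A
  Pool.Agent.H24HS

variable {k : Type u} [Field k] {𝒱 : VarClass k} {ops : CycleOps 𝒱}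
  {W : WeilCohomology.{u, v} ops}

section Gen

variable {X X₁ X₂ X₃ X₄ Y Y' : 𝒱.Obj}

/-- Bilinear identities on products. -/
lemma bf_bil {D : Y.Cycles} {f : Module.End W.K (W.H Y)} {D' : Y'.Cycles}
    {f' : Module.End W.K (W.H Y')} {u : W.H (X₁.prod X₂) →ₗ[W.K] W.H Y}
    {v : W.H (X₃.prod X₄) →ₗ[W.K] W.H Y} {u₁ : W.H (X₁.prod X₂) →ₗ[W.K] W.H Y'}
    {v₁ : W.H (X₃.prod X₄) →ₗ[W.K] W.H Y'} {c : W.K}
    (h : ∀ (i j i' j' : ℕ), ∀ s ∈ W.gr X₁ i, ∀ t ∈ W.gr X₂ j, ∀ s' ∈ W.gr X₃ i',
      ∀ t' ∈ W.gr X₄ j', bf W Y D f (u (ext W s t)) (v (ext W s' t')) =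
        c * bf W Y' D' f' (u₁ (ext W s t)) (v₁ (ext W s' t')))
    (x : W.H (X₁.prod X₂)) (y : W.H (X₃.prod X₄)) :
    bf W Y D f (u x) (v y) = c * bf W Y' D' f' (u₁ x) (v₁ y) := by
  refine W.kunneth_induction (p := fun x => bf W Y D f (u x) (v y) =
    c * bf W Y' D' f' (u₁ x) (v₁ y)) ?_ ?_ x
  · intro a a' ha ha'
    rw [map_add, map_add, LinearMap.add_apply, ha, ha', map_add, map_add, LinearMap.add_apply,
      mul_add]
  · intro i j s hs t ht
    refine W.kunneth_induction (p := fun y =>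
      bf W Y D f (u (W.map (fst X₁ X₂) s * W.map (snd X₁ X₂) t)) (v y) =
      c * bf W Y' D' f' (u₁ (W.map (fst X₁ X₂) s * W.map (snd X₁ X₂) t)) (v₁ y)) ?_ ?_ y
    · intro b b' hb hb'
      rw [map_add, map_add, hb, hb', map_add, map_add, mul_add]
    · intro i' j' s' hs' t' ht'
      exact h i j i' j' s hs t ht s' hs' t' ht'

/-- Positivity of a term. -/
lemma pos_term {σ : W.K →+* ℂ} (L : List (Cx W)) (hL : ∀ U ∈ L, Lw W U.X U.D U.f)
    {D : Y.Cycles} {f : Module.End W.K (W.H Y)} (h : Lw W Y D f) {D' : Y'.Cycles}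
    {f' : Module.End W.K (W.H Y')} (h' : Lw W Y' D' f') {u v : Module.End W.K (W.H Y)}
    {u₁ v₁ : W.H Y →ₗ[W.K] W.H Y'} {c : ℚ} (hc0 : 0 < c)
    (hc : ∀ a b, bf W Y D f (u a) (v b) = c * bf W Y' D' f' (u₁ a) (v₁ b))
    (hp : ∀ a b, bf W Y D f (u a) b = bf W Y D f (u a) (v b)) {z : W.H (cObj L Y)}
    (hpos : cMap L u₁ z ≠ 0 → 0 < (σ (cB L D' f' (cMap L u₁ z) (cMap L v₁ z))).re) :
    0 ≤ (σ (cB L D f (cMap L u z) (cMap L v z))).re ∧
      ((σ (cB L D f (cMap L u z) (cMap L v z))).re = 0 → cMap L u z = 0) := by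
  have h1 := cB_transport L hL h h' (u := u) (v := v) (u₁ := u₁) (v₁ := v₁) hc
  have h2 := cB_transport L hL h h (u := u) (v := (1 : Module.End W.K (W.H Y))) (u₁ := u)
    (v₁ := v) (c := 1) (by intro a b; rw [one_mul]; exact hp a b)
  have hre : (σ (cB L D f (cMap L u z) (cMap L v z))).re =
      c * (σ (cB L D' f' (cMap L u₁ z) (cMap L v₁ z))).re := by
    rw [h1, map_mul, map_ratCast, ← Complex.ofReal_ratCast, Complex.re_ofReal_mul]
  have hc0' : (0 : ℝ) < c := by exact_mod_cast hc0
  by_cases hz : cMap L u₁ z = 0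
  · have h3 : cMap L u z = 0 := by
      apply bf_nondeg (cLw hL h)
      intro y
      have h4 := h2 z y
      rw [cMap_one, one_mul, Module.End.one_apply] at h4
      refine h4.trans ?_
      rw [h1, hz, map_zero, LinearMap.zero_apply, mul_zero]
    refine ⟨?_, fun _ => h3⟩
    rw [hre, hz, map_zero, LinearMap.zero_apply, map_zero, Complex.zero_re, mul_zero]
  · have h5 := mul_pos hc0' (hpos hz)
    rw [← hre] at h5
    exact ⟨h5.le, fun h0 => absurd h0 h5.ne'⟩

end Gen

variable [IsAlgClosed W.K] {σ : W.K →+* ℂ} {F : Family 𝒱} {m : ℕ} [NeZero m]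

section Join

variable (hF : IsFermat W σ F m) {M : Maps F} (hM : IsMaps W F M m) {N N' : ℕ} (hN : 3 ≤ N)
  (hN' : 3 ≤ N')

lemma append_parts {N N' : ℕ} (G : Fin (N + N') → ZMod m) :
    Fin.append (fun i => G (Fin.castAdd N' i)) (fun j => G (Fin.natAdd N j)) = G := by
  funext i
  refine Fin.addCases (fun i => ?_) (fun i => ?_) i
  · rw [Fin.append_left]
  · rw [Fin.append_right]

lemma pr_append {N N' : ℕ} (a g : Fin N → ZMod m) (b h : Fin N' → ZMod m) :
    pr (Fin.append a b) (Fin.append g h) = pr a g + pr b h := by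
  rw [pr, Fin.sum_univ_add]
  simp only [Fin.append_left, Fin.append_right]
  rfl

lemma append_inj {N N' : ℕ} {a a' : Fin N → ZMod m} {b b' : Fin N' → ZMod m} :
    Fin.append a b = Fin.append a' b' ↔ a = a' ∧ b = b' := by
  constructor
  · intro h
    constructor
    · funext i
      have := congrFun h (Fin.castAdd N' i)
      rwa [Fin.append_left, Fin.append_left] at this
    · funext i
      have := congrFun h (Fin.natAdd N i)
      rwa [Fin.append_right, Fin.append_right] at this
  · rintro ⟨rfl, rfl⟩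
    rfl

lemma append_neg {N N' : ℕ} (a : Fin N → ZMod m) (b : Fin N' → ZMod m) :
    -Fin.append a b = Fin.append (-a) (-b) := by
  funext i
  refine Fin.addCases (fun i => ?_) (fun i => ?_) i
  · rw [Pi.neg_apply, Fin.append_left, Fin.append_left, Pi.neg_apply]
  · rw [Pi.neg_apply, Fin.append_right, Fin.append_right, Pi.neg_apply]

lemma Adm.append {N N' : ℕ} {a : Fin N → ZMod m} {b : Fin N' → ZMod m} (ha : Adm a)
    (hb : Adm b) : Adm (Fin.append a b) := by
  constructor
  · intro i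
    refine Fin.addCases (fun i => ?_) (fun i => ?_) i
    · rw [Fin.append_left]; exact ha.1 i
    · rw [Fin.append_right]; exact hb.1 i
  · rw [Fin.sum_univ_add]
    simp only [Fin.append_left, Fin.append_right]
    rw [ha.2, hb.2, add_zero]

include hM hN hN'

lemma join_eig {a : Fin N → ZMod m} {b : Fin N' → ZMod m} {v : W.H (F.X m N)}
    {w : W.H (F.X m N')} (hv : Eig σ (rho W F m N) a v) (hw : Eig σ (rho W F m N') b w) :
    Eig σ (rho W F m (N + N')) (Fin.append a b) (joinOp W M m N N' (ext W v w)) := by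
  intro G
  have h1 := hM.join_act N N' hN hN' (fun i => G (Fin.castAdd N' i)) (fun j => G (Fin.natAdd N j))
    v w
  rw [append_parts] at h1
  have h2 : W.map (F.act m N fun i => G (Fin.castAdd N' i)) v =
    chi σ m (pr a fun i => G (Fin.castAdd N' i)) • v := hv _
  have h3 : W.map (F.act m N' fun i => G (Fin.natAdd N i)) w =
    chi σ m (pr b fun i => G (Fin.natAdd N i)) • w := hw _
  refine h1.trans ?_
  rw [h2, h3]
  conv_rhs => rw [← append_parts G, pr_append, chi_add]
  simp only [H281R3.HT.ext, map_smul, smul_mul_assoc, mul_smul_comm, smul_smul]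
  rw [mul_comm]

include hF

/-- The join of components. -/
lemma join_prj (a : Fin N → ZMod m) (b : Fin N' → ZMod m) (s : W.H (F.X m N))
    (t : W.H (F.X m N')) :
    prj σ (rho W F m (N + N')) (Fin.append a b) (joinOp W M m N N' (ext W s t)) =
      joinOp W M m N N' (ext W (prj σ (rho W F m N) a s) (prj σ (rho W F m N') b t)) := by
  classical
  have h1 : joinOp W M m N N' (ext W s t) = ∑ a' : Fin N → ZMod m, ∑ b' : Fin N' → ZMod m,
      joinOp W M m N N' (ext W (prj σ (rho W F m N) a' s) (prj σ (rho W F m N') b' t)) := by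
    conv_lhs => rw [← sum_prj (σ := σ) (rho_act hF N) s, ← sum_prj (σ := σ) (rho_act hF N') t]
    simp only [H281R3.HT.ext, map_sum, sum_mul, mul_sum]
    exact sum_comm
  have h2 : ∀ x, prj σ (rho W F m (N + N')) (Fin.append a b) x =
    prjL σ (rho W F m (N + N')) (Fin.append a b) x := fun x => (prjL_apply _ _ _).symm
  rw [h2, h1, map_sum, sum_eq_single a, map_sum, sum_eq_single b, ← h2]
  · rw [prj_of_eig (join_eig hM hN hN' (prj_eig (rho_act hF N) a s)
      (prj_eig (rho_act hF N') b t)), if_pos rfl]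
  · intro b' _ hb
    rw [← h2, prj_of_eig (join_eig hM hN hN' (prj_eig (rho_act hF N) a s)
      (prj_eig (rho_act hF N') b' t)), if_neg]
    rw [append_inj]
    exact fun h => hb h.2.symm
  · intro h; exact absurd (mem_univ _) h
  · intro a' _ ha
    rw [map_sum]
    refine sum_eq_zero fun b' _ => ?_
    rw [← h2, prj_of_eig (join_eig hM hN hN' (prj_eig (rho_act hF N) a' s)
      (prj_eig (rho_act hF N') b' t)), if_neg]
    rw [append_inj]
    exact fun h => ha h.1.symm
  · intro h; exact absurd (mem_univ _) h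

/-- The joins multiply the forms by the degree. -/
lemma join_bf {D : (F.X m N).Cycles} {f : Module.End W.K (W.H (F.X m N))}
    (hD : FV W F m N D f) {D' : (F.X m N').Cycles} {f' : Module.End W.K (W.H (F.X m N'))}
    (hD' : FV W F m N' D' f') {D'' : (F.X m (N + N')).Cycles}
    {f'' : Module.End W.K (W.H (F.X m (N + N')))} (hD'' : FV W F m (N + N') D'' f'')
    {a : Fin N → ZMod m} (ha : Adm a) {b : Fin N' → ZMod m} (hb : Adm b)
    (s s' : W.H (F.X m N)) (t t' : W.H (F.X m N')) :
    bf W _ D'' f''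
      (joinOp W M m N N' (ext W (prj σ (rho W F m N) a s) (prj σ (rho W F m N') b t)))
      (joinOp W M m N N' (ext W (prj σ (rho W F m N) (-a) s') (prj σ (rho W F m N') (-b) t'))) =
    (m : W.K) * (bf W _ D f (prj σ (rho W F m N) a s) (prj σ (rho W F m N) (-a) s') *
      bf W _ D' f' (prj σ (rho W F m N') b t) (prj σ (rho W F m N') (-b) t')) := by
  have ha0 := Adm.ne_zero hN ha
  have hb0 := Adm.ne_zero hN' hb
  have hna := neg_ne_zero.2 ha0
  have hnb := neg_ne_zero.2 hb0
  have hNN : 3 ≤ N + N' := by omega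
  have hadm : Fin.append (-a) (-b) ≠ 0 := Adm.ne_zero hNN (Adm.append (Adm.neg ha) (Adm.neg hb))
  rw [← join_prj hF hM hN hN' (-a) (-b) s' t', hD''.bf_prj hF hNN hadm,
    join_prj hF hM hN hN' (-a) (-b) s' t', hM.join_tr N N' hN hN' _ _ _ _ (midPrim hF hN ha0 s)
      (midPrim hF hN hna s') (midPrim hF hN' hb0 t) (midPrim hF hN' hnb t'),
    hD.bf_prj hF hN hna, hD'.bf_prj hF hN' hnb]
  have h1 : ext W (prj σ (rho W F m N) a s) (prj σ (rho W F m N') b t) *
      ext W (prj σ (rho W F m N) (-a) s') (prj σ (rho W F m N') (-b) t') =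
      (-1 : W.K) ^ ((F.X m N').dim * (F.X m N).dim) •
        ext W (prj σ (rho W F m N) a s * prj σ (rho W F m N) (-a) s')
          (prj σ (rho W F m N') b t * prj σ (rho W F m N') (-b) t') := by
    have h2 := W.comm (W.map_mem (snd (F.X m N) (F.X m N')) (midPrim hF hN' hb0 t).1)
      (W.map_mem (fst (F.X m N) (F.X m N')) (midPrim hF hN hna s').1)
    simp only [H281R3.HT.ext, map_mul]
    calc W.map (fst (F.X m N) (F.X m N')) (prj σ (rho W F m N) a s) *
          W.map (snd (F.X m N) (F.X m N')) (prj σ (rho W F m N') b t) *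
          (W.map (fst (F.X m N) (F.X m N')) (prj σ (rho W F m N) (-a) s') *
          W.map (snd (F.X m N) (F.X m N')) (prj σ (rho W F m N') (-b) t')) =
        W.map (fst (F.X m N) (F.X m N')) (prj σ (rho W F m N) a s) *
          (W.map (snd (F.X m N) (F.X m N')) (prj σ (rho W F m N') b t) *
          W.map (fst (F.X m N) (F.X m N')) (prj σ (rho W F m N) (-a) s')) *
          W.map (snd (F.X m N) (F.X m N')) (prj σ (rho W F m N') (-b) t') := by
            simp only [mul_assoc]
      _ = _ := by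
        rw [h2]
        simp only [mul_smul_comm, smul_mul_assoc, mul_assoc]
  rw [h1, map_smul, tr_ext', smul_eq_mul]
  have hd := hF.dim N hN
  have hd' := hF.dim N' hN'
  have hd'' := hF.dim (N + N') hNN
  have h3 : (F.X m (N + N')).dim = ((F.X m N).dim + (F.X m N').dim) + 2 := by omega
  have h4 : (sg (F.X m (N + N')).dim : ℤ) =
      -(sg (F.X m N).dim * sg (F.X m N').dim * (-1) ^ ((F.X m N).dim * (F.X m N').dim)) := by
    rw [h3, sg_add, sg_add]
    have h5 : sg 2 = -1 := by simp [sg]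
    have h6 : (-1 : ℤ) ^ (((F.X m N).dim + (F.X m N').dim) * 2) = 1 := by
      rw [mul_comm, pow_mul]; simp
    rw [h5, h6]
    ring
  rw [h4]
  have h7 : (-1 : W.K) ^ ((F.X m N).dim * (F.X m N').dim) *
      (-1) ^ ((F.X m N).dim * (F.X m N').dim) = 1 := by rw [← mul_pow]; simp
  rw [mul_comm (F.X m N').dim]
  push_cast
  linear_combination ((m : W.K) * (sg (F.X m N).dim : W.K) * (sg (F.X m N').dim : W.K) *
    (W.tr _ (prj σ (rho W F m N) a s * prj σ (rho W F m N) (-a) s') *
      W.tr _ (prj σ (rho W F m N') b t * prj σ (rho W F m N') (-b) t'))) * h7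

end Join

end Pool.Agent.H62FV
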