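import Pool.Agent.H62FV.Prod

/-!
# Positivity on products of Fermat varieties: the induction step
-/

set_option autoImplicit false
set_option linter.unusedSectionVars false

open CategoryTheory AlgebraicGeometry Finset
open scoped ComplexConjugate

universe u v

namespace Pool.Agent.H62FV

open Pool.Agent.H914 Pool.Agent.H914.VarClass Pool.Agent.H914.VarClass.Obj
  Pool.Agent.H914.WeilCohomology Pool.Agent.H281R3.HT Pool.Agent.W552 Pool.Agent.TH132.A
  Pool.Agent.H24HS

variable {k : Type u} [Field k] {𝒱 : VarClass k} {ops : CycleOps 𝒱}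
  {W : WeilCohomology.{u, v} ops} [IsAlgClosed W.K]

lemma extR_ext {X Y : 𝒱.Obj} (T : Module.End W.K (W.H Y)) (a : W.H X) (b : W.H Y) :
    extR W X Y T (ext W a b) = ext W a (T b) := extOp_tmul 1 T a b

/-- The contraction of the second factor with a power of the class of the divisor. -/
noncomputable def cont (W : WeilCohomology.{u, v} ops) (X Y : 𝒱.Obj) (c : W.H Y) :
    W.H (X.prod Y) →ₗ[W.K] W.H X :=
  W.push (fst X Y) ∘ₗ LinearMap.mulLeft W.K (W.map (snd X Y) c)

lemma cont_AOp {X Y : 𝒱.Obj} {c : W.H Y} (hc : AS W Y c) : AOp W (X.prod Y) X (cont W X Y c) :=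
  (AOp_push _).comp (AOp_mulLeft (hc.map _))

lemma cont_ext {X Y : 𝒱.Obj} {l : ℕ} {c : W.H Y} (hc : c ∈ W.gr Y (2 * l)) (s : W.H X) {j : ℕ}
    {t : W.H Y} (ht : t ∈ W.gr Y j) : cont W X Y c (ext W s t) = W.tr Y (t * c) • s := by
  have h1 := push_fst s (W.mul_mem ht hc)
  rw [cont, LinearMap.comp_apply, LinearMap.mulLeft_apply,
    W.even_comm (W.map_mem (snd X Y) hc), H281R3.HT.ext, mul_assoc, ← map_mul]
  exact h1

lemma lft_congr' {X Y : 𝒱.Obj} {V : Type*} [AddCommGroup V] [Module W.K V]
    {F G : W.H (X.prod Y) →ₗ[W.K] V} (h : ∀ a b, F (ext W a b) = G (ext W a b)) : F = G :=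
  ext_kunneth_lin h

/-- Positivity on the components of the cohomology of the products of a Fermat variety with fixed
varieties. -/
def TT (σ : W.K →+* ℂ) (F : Family 𝒱) (m : ℕ) [NeZero m] (L : List (Cx W)) : Prop :=
  ∀ N, 3 ≤ N → ∀ (D : (F.X m N).Cycles) (f : Module.End W.K (W.H (F.X m N))),
    FV W F m N D f → ∀ a, Adm a → ∀ z, AS W (cObj L (F.X m N)) z →
      cMap L (prjL σ (rho W F m N) a) z ≠ 0 →
      0 < (σ (cB L D f (cMap L (prjL σ (rho W F m N) a) z)
        (cMap L (prjL σ (rho W F m N) (-a)) z))).re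

variable {σ : W.K →+* ℂ} {F : Family 𝒱} {m : ℕ} [NeZero m]

lemma tt_step_aux (hF : IsFermat W σ F m) {M : Maps F} (hM : IsMaps W F M m) {L : List (Cx W)}
    (hL : ∀ U ∈ L, Lw W U.X U.D U.f) (h : TT σ F m L) {N' : ℕ} (hN' : 3 ≤ N')
    {D' : (F.X m N').Cycles} {f' : Module.End W.K (W.H (F.X m N'))} (hD' : FV W F m N' D' f')
    {N : ℕ} (hN : 3 ≤ N) {D : (F.X m N).Cycles} {f : Module.End W.K (W.H (F.X m N))}
    (hD : FV W F m N D f) {a : Fin N → ZMod m} (ha : Adm a)
    {z : W.H (cObj L ((F.X m N).prod (F.X m N')))} (hz : AS W _ z)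
    (hz0 : cMap L (lft W (F.X m N') (prjL σ (rho W F m N) a)) z ≠ 0) :
    0 < (σ (cB L (ops.pull (fst (F.X m N) (F.X m N')) D +
      ops.pull (snd (F.X m N) (F.X m N')) D') (extSum W f f')
        (cMap L (lft W (F.X m N') (prjL σ (rho W F m N) a)) z)
        (cMap L (lft W (F.X m N') (prjL σ (rho W F m N) (-a))) z))).re := by
  obtain ⟨q, hq, hqq⟩ := hD.tr_pos hF hN
  obtain ⟨q', hq', hqq'⟩ := hD'.tr_pos hF hN'
  have ha0 := Adm.ne_zero hN ha
  have hNN : 3 ≤ N + N' := by omega
  obtain ⟨f'', hD''⟩ := exists_fv hF hNN (c := 1) one_pos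
  set e : Module.End W.K (W.H ((F.X m N).prod (F.X m N'))) :=
    lft W (F.X m N') (prjL σ (rho W F m N) a) with he
  set e' : Module.End W.K (W.H ((F.X m N).prod (F.X m N'))) :=
    lft W (F.X m N') (prjL σ (rho W F m N) (-a)) with he'
  have hZ := hD.lw.prod hD'.lw
  set p : Ix F m N' → Module.End W.K (W.H ((F.X m N).prod (F.X m N'))) :=
    fun i => extR W (F.X m N) (F.X m N') (pI W σ F m N' D' q' i) with hp
  have hpe : ∀ i, ∀ s t, p i (ext W s t) = ext W s (pI W σ F m N' D' q' i t) :=
    fun i s t => extR_ext _ s t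
  have hee : ∀ s t, e (ext W s t) = ext W (prjL σ (rho W F m N) a s) t := fun s t => lft_ext _ s t
  have hee' : ∀ s t, e' (ext W s t) = ext W (prjL σ (rho W F m N) (-a) s) t :=
    fun s t => lft_ext _ s t
  have hsum : ∑ i, p i = 1 := by
    rw [hp, ← map_sum, sum_pI hF hN' hD' hqq' hq'.ne', map_one]
  have hdec : ∀ u : Module.End W.K (W.H ((F.X m N).prod (F.X m N'))),
      cMap L u z = ∑ i, cMap L (p i * u) z := by
    intro u
    have h1 : u = ∑ i, p i * u := by rw [← sum_mul, hsum, one_mul]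
    conv_lhs => rw [h1]
    rw [cMap_sum, LinearMap.sum_apply]
  -- the total
  have htot : cB L (ops.pull (fst (F.X m N) (F.X m N')) D +
      ops.pull (snd (F.X m N) (F.X m N')) D') (extSum W f f') (cMap L e z) (cMap L e' z) =
      ∑ i, cB L (ops.pull (fst (F.X m N) (F.X m N')) D +
        ops.pull (snd (F.X m N) (F.X m N')) D') (extSum W f f') (cMap L (p i * e) z)
          (cMap L (p (nI i) * e') z) := by
    rw [hdec e, hdec e', LinearMap.map_sum₂]
    refine sum_congr rfl fun i _ => ?_
    rw [map_sum, sum_eq_single (nI i)]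
    · intro l _ hl
      refine cB_zero L hL hZ (u := p i * e) (v := p l * e') (fun x y => ?_) z z
      have h2 := bf_bil (D := ops.pull (fst (F.X m N) (F.X m N')) D +
        ops.pull (snd (F.X m N) (F.X m N')) D') (f := extSum W f f')
        (D' := ops.pull (fst (F.X m N) (F.X m N')) D +
        ops.pull (snd (F.X m N) (F.X m N')) D') (f' := extSum W f f')
        (u := p i * e) (v := p l * e') (u₁ := p i * e) (v₁ := p l * e') (c := 0) (by
          intro _ _ _ _ s _ t _ s' _ t' _
          rw [Module.End.mul_apply, Module.End.mul_apply, hee, hee', hpe, hpe,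
            hD.lw.bf_ext hD'.lw, pI_ortho hF hN' hD' hl, mul_zero, zero_mul]) x y
      rw [h2, zero_mul]
    · intro h0
      exact absurd (mem_univ _) h0
  -- the terms
  have hterm : ∀ i, 0 ≤ (σ (cB L (ops.pull (fst (F.X m N) (F.X m N')) D +
        ops.pull (snd (F.X m N) (F.X m N')) D') (extSum W f f') (cMap L (p i * e) z)
          (cMap L (p (nI i) * e') z))).re ∧
      ((σ (cB L (ops.pull (fst (F.X m N) (F.X m N')) D +
        ops.pull (snd (F.X m N) (F.X m N')) D') (extSum W f f') (cMap L (p i * e) z)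
          (cMap L (p (nI i) * e') z))).re = 0 → cMap L (p i * e) z = 0) := by
    intro i
    have hadj : ∀ x y, bf W _ (ops.pull (fst (F.X m N) (F.X m N')) D +
        ops.pull (snd (F.X m N) (F.X m N')) D') (extSum W f f') ((p i * e) x) y =
        bf W _ (ops.pull (fst (F.X m N) (F.X m N')) D +
          ops.pull (snd (F.X m N) (F.X m N')) D') (extSum W f f') ((p i * e) x)
            ((p (nI i) * e') y) := by
      intro x y
      have h2 := bf_bil (D := ops.pull (fst (F.X m N) (F.X m N')) D +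
        ops.pull (snd (F.X m N) (F.X m N')) D') (f := extSum W f f')
        (D' := ops.pull (fst (F.X m N) (F.X m N')) D +
        ops.pull (snd (F.X m N) (F.X m N')) D') (f' := extSum W f f')
        (u := p i * e) (v := (1 : Module.End W.K (W.H ((F.X m N).prod (F.X m N')))))
        (u₁ := p i * e) (v₁ := p (nI i) * e') (c := 1) (by
          intro _ _ _ _ s _ t _ s' _ t' _
          rw [Module.End.mul_apply, Module.End.mul_apply, hee, hee', hpe, hpe,
            Module.End.one_apply, hD.lw.bf_ext hD'.lw, hD.lw.bf_ext hD'.lw, one_mul,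
            ← pI_adj hF hN' hD' hq' hqq']
          congr 1
          exact pI_adj hF hN hD hq hqq (Sum.inr ⟨a, ha⟩) s s') x y
      rw [one_mul] at h2
      exact h2
    rcases i with j | b
    · -- powers of the class of the divisor
      have hj : (j : ℕ) ≤ (F.X m N').dim := by have := j.2; omega
      obtain ⟨κ, hκ, hκ'⟩ := bf_xi hD'.lw hq' hqq' hj
      set φ := cont W (F.X m N) (F.X m N') (W.cl _ D' ^ ((F.X m N').dim - (j : ℕ))) with hφ
      have hφA : AOp W _ _ φ := cont_AOp (AS.of (by
        refine ⟨divPow ops D' ((F.X m N').dim - (j : ℕ)) (F.X m N').V.fundCycle,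
          divPow_mem hD'.fr.hD _ (F.X m N').V.fundCycle_mem, ?_⟩
        rw [cl_divPow, W.cl_fund, LinearMap.pow_mulLeft, LinearMap.mulLeft_apply, mul_one]))
      refine pos_term (σ := σ) L hL hZ hD.lw (u := p (Sum.inl j) * e)
        (v := p (nI (Sum.inl j)) * e') (u₁ := prjL σ (rho W F m N) a ∘ₗ φ)
        (v₁ := prjL σ (rho W F m N) (-a) ∘ₗ φ) (c := κ * (q'⁻¹ * q'⁻¹)) (by positivity) ?_ hadj ?_
      · refine bf_bil ?_
        intro _ _ _ _ s _ t ht s' _ t' ht'
        rw [Module.End.mul_apply, Module.End.mul_apply, hee, hee', hpe, hpe,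
          hD.lw.bf_ext hD'.lw, LinearMap.comp_apply, LinearMap.comp_apply,
          cont_ext (xi_pow_mem hD'.fr.hD _) s ht, cont_ext (xi_pow_mem hD'.fr.hD _) s' ht', nI,
          pI, pw_apply, pw_apply, map_smul, map_smul, map_smul, map_smul, LinearMap.smul_apply,
          LinearMap.smul_apply, map_smul, map_smul, hκ']
        simp only [smul_eq_mul]
        push_cast
        ring
      · intro h0
        rw [← cMap_comp_apply, ← cMap_comp_apply]
        rw [← cMap_comp_apply] at h0
        exact h N hN D f hD a ha _ (cMap_AS L hφA hz) h0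
    · -- joins
      have hJ : AOp W _ _ (joinOp W M m N N') :=
        ⟨_, AS.of ⟨_, hM.join_cyc N N' hN hN', rfl⟩, rfl⟩
      have hm : (0 : ℚ) < m := by exact_mod_cast Nat.pos_of_ne_zero (NeZero.ne m)
      have hm' : (m : W.K) ≠ 0 := Nat.cast_ne_zero.2 (NeZero.ne m)
      have k1 : joinOp W M m N N' ∘ₗ (p (Sum.inr b) * e) =
          prjL σ (rho W F m (N + N')) (Fin.append a b.1) ∘ₗ joinOp W M m N N' := by
        apply lft_congr'
        intro s t
        rw [LinearMap.comp_apply, LinearMap.comp_apply, Module.End.mul_apply, hee, hpe]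
        simp only [pI, prjL_apply]
        rw [join_prj hF hM hN hN']
      have k2 : joinOp W M m N N' ∘ₗ (p (nI (Sum.inr b)) * e') =
          prjL σ (rho W F m (N + N')) (-Fin.append a b.1) ∘ₗ joinOp W M m N N' := by
        apply lft_congr'
        intro s t
        rw [LinearMap.comp_apply, LinearMap.comp_apply, Module.End.mul_apply, hee', hpe]
        simp only [pI, nI, prjL_apply, append_neg]
        rw [join_prj hF hM hN hN']
      refine pos_term (σ := σ) L hL hZ hD''.lw (u := p (Sum.inr b) * e)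
        (v := p (nI (Sum.inr b)) * e') (u₁ := joinOp W M m N N' ∘ₗ (p (Sum.inr b) * e))
        (v₁ := joinOp W M m N N' ∘ₗ (p (nI (Sum.inr b)) * e')) (c := (m : ℚ)⁻¹) (by positivity) ?_
        hadj ?_
      · refine bf_bil ?_
        intro _ _ _ _ s _ t ht s' _ t' ht'
        rw [LinearMap.comp_apply, LinearMap.comp_apply, Module.End.mul_apply,
          Module.End.mul_apply, hee, hee', hpe, hpe, hD.lw.bf_ext hD'.lw, nI, pI, pI,
          prjL_apply, prjL_apply, prjL_apply, prjL_apply, join_bf hF hM hN hN' hD hD' hD'' ha b.2,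
          ← mul_assoc]
        push_cast
        rw [inv_mul_cancel₀ hm', one_mul]
      · intro h0
        rw [k1, k2, ← cMap_comp_apply, ← cMap_comp_apply]
        rw [k1, ← cMap_comp_apply] at h0
        exact h (N + N') hNN _ f'' hD'' _ (Adm.append ha b.2) _ (cMap_AS L hJ hz) h0
  -- conclusion
  rw [htot, map_sum, Complex.re_sum]
  by_contra hneg
  push Not at hneg
  have hall := (sum_eq_zero_iff_of_nonneg fun i _ => (hterm i).1).1
    (le_antisymm hneg (sum_nonneg fun i _ => (hterm i).1))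
  apply hz0
  rw [hdec e]
  exact sum_eq_zero fun i hi => (hterm i).2 (hall i hi)

theorem tt_step (hF : IsFermat W σ F m) {M : Maps F} (hM : IsMaps W F M m) {L : List (Cx W)}
    (hL : ∀ U ∈ L, Lw W U.X U.D U.f) (h : TT σ F m L) {N' : ℕ} (hN' : 3 ≤ N')
    {D' : (F.X m N').Cycles} {f' : Module.End W.K (W.H (F.X m N'))} (hD' : FV W F m N' D' f') :
    TT σ F m (⟨F.X m N', D', f'⟩ :: L) :=
  fun _ hN _ _ hD _ ha _ hz hz0 => tt_step_aux hF hM hL h hN' hD' hN hD ha hz hz0

end Pool.Agent.H62FV
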