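import Pool.Agent.H62FV.Chi

/-!
# Representations of products of cyclic groups, rational forms and signs
-/

set_option linter.unusedSectionVars false

open Finset
open scoped ComplexConjugate

namespace Pool.Agent.H62FV

variable {K : Type*} [Field K] [CharZero K] [IsAlgClosed K] {σ : K →+* ℂ} {m : ℕ} [NeZero m]
  {ι : Type*} [Fintype ι] [DecidableEq ι] {H : Type*} [AddCommGroup H] [Module K H]

/-- The component of the character `a` of a vector. -/
noncomputable def prj (σ : K →+* ℂ) (ρ : (ι → ZMod m) → Module.End K H) (a : ι → ZMod m) (v : H) :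
    H :=
  ((m : K) ^ Fintype.card ι)⁻¹ • ∑ g : ι → ZMod m, chi σ m (-(pr a g)) • ρ g v

/-- The component, as an operator. -/
noncomputable def prjL (σ : K →+* ℂ) (ρ : (ι → ZMod m) → Module.End K H) (a : ι → ZMod m) :
    Module.End K H :=
  ((m : K) ^ Fintype.card ι)⁻¹ • ∑ g : ι → ZMod m, chi σ m (-(pr a g)) • ρ g

lemma prjL_apply (ρ : (ι → ZMod m) → Module.End K H) (a : ι → ZMod m) (v : H) :
    prjL σ ρ a v = prj σ ρ a v := by
  simp only [prjL, prj, LinearMap.smul_apply, LinearMap.sum_apply]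

/-- `ρ` is an action of the group. -/
structure IsAct (ρ : (ι → ZMod m) → Module.End K H) : Prop where
  zero : ρ 0 = 1
  add : ∀ g h, ρ (g + h) = ρ g * ρ h

/-- `v` is an eigenvector with the character `a`. -/
def Eig (σ : K →+* ℂ) (ρ : (ι → ZMod m) → Module.End K H) (a : ι → ZMod m) (v : H) : Prop :=
  ∀ g, ρ g v = chi σ m (pr a g) • v

variable {ρ : (ι → ZMod m) → Module.End K H}

lemma pow_ne : ((m : K) ^ Fintype.card ι) ≠ 0 := pow_ne_zero _ (Nat.cast_ne_zero.2 (NeZero.ne m))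

lemma prj_add (a : ι → ZMod m) (v w : H) : prj σ ρ a (v + w) = prj σ ρ a v + prj σ ρ a w := by
  simp only [prj, map_add, smul_add, sum_add_distrib]

lemma prj_smul (a : ι → ZMod m) (c : K) (v : H) : prj σ ρ a (c • v) = c • prj σ ρ a v := by
  simp only [prj, map_smul, smul_sum, smul_comm c]

lemma Eig.add {a : ι → ZMod m} {v w : H} (hv : Eig σ ρ a v) (hw : Eig σ ρ a w) :
    Eig σ ρ a (v + w) := fun g => by rw [map_add, hv g, hw g, smul_add]

lemma Eig.smul {a : ι → ZMod m} {v : H} (c : K) (hv : Eig σ ρ a v) :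
    Eig σ ρ a (c • v) := fun g => by rw [map_smul, hv g, smul_comm]

lemma prj_eig (hρ : IsAct ρ) (a : ι → ZMod m) (v : H) : Eig σ ρ a (prj σ ρ a v) := by
  intro h
  unfold prj
  rw [map_smul, smul_comm]
  congr 1
  rw [map_sum, smul_sum]
  refine Fintype.sum_equiv (Equiv.addLeft h) _ _ fun g => ?_
  rw [map_smul, Equiv.coe_addLeft, smul_smul, ← chi_add, hρ.add]
  congr 2
  rw [pr_add]
  ring

lemma sum_prj (hρ : IsAct ρ) (v : H) : ∑ a, prj σ ρ a v = v := by
  unfold prj
  rw [← smul_sum, sum_comm]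
  have h1 : ∀ g : ι → ZMod m, ∑ a : ι → ZMod m, chi σ m (-(pr a g)) • ρ g v =
      if g = 0 then ((m : K) ^ Fintype.card ι) • v else 0 := by
    intro g
    rw [← sum_smul]
    have h2 : ∑ a : ι → ZMod m, chi σ m (-(pr a g)) = ∑ a : ι → ZMod m, chi σ m (pr a (-g)) :=
      sum_congr rfl fun a _ => by rw [pr_neg]
    rw [h2, sum_chi_pr' σ (-g)]
    by_cases hg : g = 0
    · subst hg
      rw [if_pos neg_zero, if_pos rfl, hρ.zero]
      rfl
    · rw [if_neg (neg_ne_zero.2 hg), if_neg hg, zero_smul]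
  rw [sum_congr rfl fun g _ => h1 g, sum_ite_eq' univ (0 : ι → ZMod m), if_pos (mem_univ _),
    smul_smul, inv_mul_cancel₀ pow_ne, one_smul]

lemma prj_of_eig {a b : ι → ZMod m} {v : H} (hv : Eig σ ρ a v) :
    prj σ ρ b v = if b = a then v else 0 := by
  unfold prj
  have h1 : ∀ g : ι → ZMod m, chi σ m (-(pr b g)) • ρ g v = chi σ m (pr (a - b) g) • v := by
    intro g
    rw [hv g, smul_smul, ← chi_add]
    congr 2
    rw [sub_eq_add_neg, pr_add_left, pr_neg_left]
    ring
  rw [sum_congr rfl fun g _ => h1 g, ← sum_smul, sum_chi_pr σ (a - b)]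
  by_cases h : b = a
  · subst h
    rw [if_pos (sub_self _), if_pos rfl, smul_smul, inv_mul_cancel₀ pow_ne, one_smul]
  · rw [if_neg (fun h' => h (sub_eq_zero.1 h').symm), if_neg h, zero_smul, smul_zero]

lemma prj_prj (hρ : IsAct ρ) (a b : ι → ZMod m) (v : H) :
    prj σ ρ b (prj σ ρ a v) = if b = a then prj σ ρ a v else 0 := prj_of_eig (prj_eig hρ a v)

section Form

variable {B : H →ₗ[K] H →ₗ[K] K}

lemma prj_form (hρ : IsAct ρ) (hB : ∀ g x y, B (ρ g x) (ρ g y) = B x y) (a : ι → ZMod m) (x y : H) :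
    B (prj σ ρ a x) y = B x (prj σ ρ (-a) y) := by
  unfold prj
  rw [map_smul, LinearMap.smul_apply, map_smul]
  congr 1
  rw [map_sum, LinearMap.sum_apply, map_sum]
  refine Fintype.sum_equiv (Equiv.neg _) _ _ fun g => ?_
  rw [map_smul, LinearMap.smul_apply, map_smul, Equiv.neg_apply]
  have h1 : B (ρ g x) y = B x (ρ (-g) y) := by
    rw [← hB (-g) (ρ g x) y, ← Module.End.mul_apply, ← hρ.add, neg_add_cancel, hρ.zero]
    rfl
  rw [h1]
  congr 2
  rw [pr_neg_left, pr_neg, neg_neg]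

lemma prj_form' (hρ : IsAct ρ) (hB : ∀ g x y, B (ρ g x) (ρ g y) = B x y) (a : ι → ZMod m)
    (x y : H) : B (prj σ ρ a x) (prj σ ρ (-a) y) = B (prj σ ρ a x) y := by
  rw [prj_form hρ hB a x y, prj_form hρ hB a x, prj_prj hρ, if_pos rfl]

lemma eig_ortho (hB : ∀ g x y, B (ρ g x) (ρ g y) = B x y) {a b : ι → ZMod m} {x y : H}
    (hx : Eig σ ρ a x) (hy : Eig σ ρ b y) (hab : a + b ≠ 0) : B x y = 0 := by
  classical
  by_contra h
  apply hab
  funext i
  have h1 := hB (Pi.single i 1) x y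
  rw [hx, hy, map_smul (B _), map_smul B, LinearMap.smul_apply, smul_eq_mul, smul_eq_mul,
    ← mul_assoc, ← chi_add, ← pr_add_left, add_comm b a] at h1
  have h2 : chi σ m (pr (a + b) (Pi.single i 1)) = 1 := by
    have h3 : (chi σ m (pr (a + b) (Pi.single i 1)) - 1) * B x y = 0 := by
      rw [sub_mul, h1, one_mul, sub_self]
    rcases mul_eq_zero.1 h3 with h3 | h3
    · exact sub_eq_zero.1 h3
    · exact absurd h3 h
  have h3 := chi_eq_one σ h2
  have h4 : pr (a + b) (Pi.single i 1) = (a + b) i := by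
    unfold pr
    rw [sum_eq_single i]
    · rw [Pi.single_eq_same, mul_one]
    · intro j _ hj
      rw [Pi.single_eq_of_ne hj, mul_zero]
    · intro h5
      exact absurd (mem_univ i) h5
  rw [h4] at h3
  exact h3

/-- The square of the length, as the sum over the characters. -/
lemma form_sum (hρ : IsAct ρ) (hB : ∀ g x y, B (ρ g x) (ρ g y) = B x y) (x y : H) :
    B x y = ∑ a, B (prj σ ρ a x) (prj σ ρ (-a) y) := by
  have h1 : B x y = ∑ a, B (prj σ ρ a x) y := by
    conv_lhs => rw [← sum_prj (σ := σ) hρ x]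
    rw [map_sum, LinearMap.sum_apply]
  rw [h1]
  exact sum_congr rfl fun a _ => (prj_form' hρ hB a x y).symm

lemma conj_form (hρ : IsAct ρ) (hB : ∀ g x y, B (ρ g x) (ρ g y) = B x y) {x y : H}
    (hxy : ∀ g, ∃ q : ℚ, B (ρ g x) y = (q : K)) (a : ι → ZMod m) :
    conj (σ (B (prj σ ρ a x) (prj σ ρ (-a) y))) =
      σ (B (prj σ ρ (-a) x) (prj σ ρ a y)) := by
  have h1 := prj_form' (σ := σ) hρ hB a x y
  have h2 := prj_form' (σ := σ) hρ hB (-a) x y
  rw [neg_neg] at h2
  rw [h1, h2]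
  unfold prj
  rw [map_smul, map_smul, LinearMap.smul_apply, LinearMap.smul_apply, smul_eq_mul, smul_eq_mul,
    map_mul, map_mul, map_mul, map_sum, map_sum, LinearMap.sum_apply, LinearMap.sum_apply, map_sum,
    map_sum, map_sum]
  have h3 : conj (σ (((m : K) ^ Fintype.card ι)⁻¹)) = σ (((m : K) ^ Fintype.card ι)⁻¹) := by
    simp
  rw [h3]
  congr 1
  refine sum_congr rfl fun g _ => ?_
  obtain ⟨q, hq⟩ := hxy g
  rw [map_smul, map_smul, LinearMap.smul_apply, LinearMap.smul_apply, hq, smul_eq_mul, smul_eq_mul,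
    map_mul, map_mul, map_mul, conj_chi, pr_neg_left, map_ratCast, map_ratCast]

/-- The sign on an eigenline, independent of the vector. -/
theorem pos_of_pos (hρ : IsAct ρ) (hB : ∀ g x y, B (ρ g x) (ρ g y) = B x y)
    (hsym : ∀ x y, B x y = B y x) {s : ℝ} {a : ι → ZMod m} {w z : H}
    (hww : ∀ g, ∃ q : ℚ, B (ρ g w) w = (q : K)) (hzw : ∀ g, ∃ q : ℚ, B (ρ g z) w = (q : K))
    (hpos : 0 < s * (σ (B (prj σ ρ a w) (prj σ ρ (-a) w))).re)
    (h1 : ∃ c : K, prj σ ρ a z = c • prj σ ρ a w)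
    (h2 : ∃ c : K, prj σ ρ (-a) z = c • prj σ ρ (-a) w) (hz : prj σ ρ a z ≠ 0) :
    0 < s * (σ (B (prj σ ρ a z) (prj σ ρ (-a) z))).re := by
  obtain ⟨c, hc⟩ := h1
  obtain ⟨d, hd⟩ := h2
  set T := σ (B (prj σ ρ a w) (prj σ ρ (-a) w)) with hT
  have hTr : conj T = T := by
    rw [hT, conj_form hρ hB hww a, hsym]
  have hT0 : T ≠ 0 := by
    intro h
    rw [h, Complex.zero_re, mul_zero] at hpos
    exact lt_irrefl _ hpos
  have h3 := conj_form (σ := σ) hρ hB hzw a
  rw [hc, hd, map_smul, LinearMap.smul_apply, smul_eq_mul, map_mul, map_mul, map_smul,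
    LinearMap.smul_apply, smul_eq_mul, map_mul, ← hT, hTr] at h3
  have h4 : σ (B (prj σ ρ (-a) w) (prj σ ρ a w)) = T := by rw [hsym]
  rw [h4] at h3
  have h5 : conj (σ c) = σ d := mul_right_cancel₀ hT0 h3
  have hc0 : c ≠ 0 := by
    rintro rfl
    rw [zero_smul] at hc
    exact hz hc
  rw [hc, hd, map_smul B, LinearMap.smul_apply, map_smul (B _), smul_eq_mul, smul_eq_mul, map_mul,
    map_mul, ← hT, ← mul_assoc, ← h5, Complex.mul_conj, Complex.re_ofReal_mul]
  have h6 : 0 < Complex.normSq (σ c) := Complex.normSq_pos.2 ((map_ne_zero σ).2 hc0)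
  nlinarith [mul_pos h6 hpos]

/-- A rational positive definite form is positive on all eigenlines. -/
theorem pos_of_rational {s : ℚ} {a : ι → ZMod m} (ha : a ≠ 0) {z : H}
    (q : (ι → ZMod m) → (ι → ZMod m) → ℚ)
    (hq : ∀ g h, B (ρ g z - z) (ρ h z - z) = (q g h : K)) (hqs : ∀ g h, q g h = q h g)
    (hpos : ∀ c : (ι → ZMod m) → ℚ, ∑ g, (c g : K) • (ρ g z - z) ≠ 0 →
      0 < s * ∑ g, ∑ h, c g * c h * q g h) (hz : prj σ ρ a z ≠ 0) :
    0 < (s : ℝ) * (σ (B (prj σ ρ a z) (prj σ ρ (-a) z))).re := by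
  -- the rational form
  let G := ι → ZMod m
  let Φ : (G → ℚ) → H := fun c => ∑ g, (c g : K) • (ρ g z - z)
  have hΦadd : ∀ c d, Φ (c + d) = Φ c + Φ d := by
    intro c d
    simp only [Φ, Pi.add_apply, Rat.cast_add, add_smul, sum_add_distrib]
  have hΦsmul : ∀ (t : ℚ) c, Φ (t • c) = (t : K) • Φ c := by
    intro t c
    simp only [Φ, Pi.smul_apply, smul_eq_mul, Rat.cast_mul, mul_smul, smul_sum]
  have hΦsum : ∀ {κ : Type} (S : Finset κ) (f : κ → (G → ℚ)), Φ (∑ i ∈ S, f i) = ∑ i ∈ S, Φ (f i) := by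
    intro κ S f
    classical
    induction S using Finset.induction_on with
    | empty => simp [Φ]
    | insert i S hi ih => rw [sum_insert hi, sum_insert hi, hΦadd, ih]
  let Q : LinearMap.BilinForm ℚ (G → ℚ) :=
    Matrix.toBilin' (Matrix.of fun g h => s * q g h)
  have hQ : ∀ c d, Q c d = s * ∑ g, ∑ h, c g * d h * q g h := by
    intro c d
    simp only [Q, Matrix.toBilin'_apply, Matrix.of_apply, mul_sum]
    exact sum_congr rfl fun g _ => sum_congr rfl fun h _ => by ring
  have hQs : LinearMap.IsSymm Q := by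
    constructor
    intro c d
    rw [RingHom.id_apply]
    rw [hQ, hQ, sum_comm]
    congr 1
    exact sum_congr rfl fun g _ => sum_congr rfl fun h _ => by rw [hqs]; ring
  have hQB : ∀ c d, (s : K) * B (Φ c) (Φ d) = (Q c d : K) := by
    intro c d
    rw [hQ]
    simp only [Φ, map_sum, map_smul, LinearMap.sum_apply, LinearMap.smul_apply, smul_eq_mul, hq]
    push_cast
    congr 1
    rw [sum_comm]
    simp only [mul_sum]
    exact sum_congr rfl fun g _ => sum_congr rfl fun h _ => by ring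
  have hv2 : Invertible (2 : ℚ) := invertibleOfNonzero two_ne_zero
  clear_value Q
  obtain ⟨v, hv0⟩ := LinearMap.BilinForm.exists_orthogonal_basis hQs
  have hv : ∀ i j, i ≠ j → Q (v i) (v j) = 0 := LinearMap.isOrthoᵢ_def.1 hv0
  -- the coordinates
  let γ : G → Fin (Module.finrank ℚ (G → ℚ)) → K := fun b i => ((m : K) ^ Fintype.card ι)⁻¹ *
    ∑ g : G, chi σ m (-(pr b g)) * ((v.repr (Pi.single g 1) i : ℚ) : K)
  have hconj : ∀ b i, conj (σ (γ b i)) = σ (γ (-b) i) := by
    intro b i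
    simp only [γ, map_mul, map_sum, map_inv₀, map_pow, map_natCast, map_ratCast, conj_chi]
    congr 1
    exact sum_congr rfl fun g _ => by rw [pr_neg_left]
  have hcomb : ∀ b : G, b ≠ 0 → prj σ ρ b z = ∑ i, γ b i • Φ (v i) := by
    intro b hb
    have e1 : prj σ ρ b z = ((m : K) ^ Fintype.card ι)⁻¹ •
        ∑ g : G, chi σ m (-(pr b g)) • (ρ g z - z) := by
      unfold prj
      congr 1
      simp only [smul_sub, sum_sub_distrib]
      rw [← sum_smul]
      have h2 : ∑ g : G, chi σ m (-(pr b g)) = 0 := by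
        have h3 := sum_chi_pr σ (-b)
        rw [if_neg (neg_ne_zero.2 hb)] at h3
        rw [← h3]
        exact sum_congr rfl fun g _ => by rw [pr_neg_left]
      rw [h2, zero_smul, sub_zero]
    have e2 : ∀ g : G, ρ g z - z = ∑ i, ((v.repr (Pi.single g 1) i : ℚ) : K) • Φ (v i) := by
      intro g
      have h3 : Φ (Pi.single g 1) = ρ g z - z := by
        simp only [Φ]
        rw [sum_eq_single g]
        · rw [Pi.single_eq_same, Rat.cast_one, one_smul]
        · intro h _ hh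
          rw [Pi.single_eq_of_ne hh, Rat.cast_zero, zero_smul]
        · intro h
          exact absurd (mem_univ g) h
      rw [← h3]
      conv_lhs => rw [← v.sum_repr (Pi.single g 1)]
      rw [hΦsum]
      exact sum_congr rfl fun i _ => hΦsmul _ _
    rw [e1]
    simp only [γ]
    rw [sum_congr rfl fun g _ => by rw [e2 g]]
    simp only [smul_sum, smul_smul, mul_sum, sum_smul]
    rw [sum_comm]
  have hna : -a ≠ 0 := neg_ne_zero.2 ha
  -- the form
  have hform : (s : K) * B (prj σ ρ a z) (prj σ ρ (-a) z) =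
      ∑ i, γ a i * γ (-a) i * ((Q (v i) (v i) : ℚ) : K) := by
    rw [hcomb a ha, hcomb (-a) hna]
    simp only [map_sum, map_smul, LinearMap.sum_apply, LinearMap.smul_apply, smul_eq_mul, mul_sum]
    rw [sum_comm]
    refine sum_congr rfl fun i _ => ?_
    rw [sum_eq_single i]
    · rw [← hQB]
      ring
    · intro j _ hj
      have h4 : Q (v i) (v j) = 0 := hv i j (Ne.symm hj)
      have h5 := hQB (v i) (v j)
      rw [h4, Rat.cast_zero] at h5
      have h6 : γ a i * ((s : K) * B (Φ (v i)) (Φ (v j))) * γ (-a) j = 0 := by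
        rw [h5, mul_zero, zero_mul]
      linear_combination h6
    · intro h
      exact absurd (mem_univ i) h
  have hre : (s : ℝ) * (σ (B (prj σ ρ a z) (prj σ ρ (-a) z))).re =
      ∑ i, Complex.normSq (σ (γ a i)) * ((Q (v i) (v i) : ℚ) : ℝ) := by
    have h7 := congrArg (fun x => (σ x).re) hform
    simp only [map_mul, map_ratCast, map_sum] at h7
    rw [Complex.re_sum] at h7
    have h8 : (((s : ℚ) : ℂ) * σ (B (prj σ ρ a z) (prj σ ρ (-a) z))).re =
        (s : ℝ) * (σ (B (prj σ ρ a z) (prj σ ρ (-a) z))).re := by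
      rw [← Complex.ofReal_ratCast, Complex.re_ofReal_mul]
    rw [← h8, h7]
    refine sum_congr rfl fun i _ => ?_
    rw [← hconj, Complex.mul_conj, ← Complex.ofReal_ratCast, ← Complex.ofReal_mul,
      Complex.ofReal_re]
  rw [hre]
  have hnn : ∀ i, 0 ≤ Q (v i) (v i) ∧ (Φ (v i) ≠ 0 → 0 < Q (v i) (v i)) := by
    intro i
    by_cases h : Φ (v i) = 0
    · have h9 := hQB (v i) (v i)
      rw [h, map_zero, mul_zero] at h9
      have h10 : Q (v i) (v i) = 0 := by exact_mod_cast h9.symm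
      exact ⟨h10.ge, fun h' => absurd h h'⟩
    · have h11 := hpos (v i) h
      rw [← hQ] at h11
      exact ⟨h11.le, fun _ => h11⟩
  obtain ⟨i, hi⟩ : ∃ i, γ a i ≠ 0 ∧ Φ (v i) ≠ 0 := by
    by_contra hno
    push Not at hno
    apply hz
    rw [hcomb a ha]
    refine sum_eq_zero fun i _ => ?_
    by_cases h : γ a i = 0
    · rw [h, zero_smul]
    · rw [hno i h, smul_zero]
  refine sum_pos' (fun j _ => mul_nonneg (Complex.normSq_nonneg _) ?_) ⟨i, mem_univ i, ?_⟩
  · exact_mod_cast (hnn j).1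
  · exact mul_pos (Complex.normSq_pos.2 ((map_ne_zero σ).2 hi.1)) (by exact_mod_cast (hnn i).2 hi.2)

end Form

end Pool.Agent.H62FV
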