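import Pool.Agent.H62FV.Pos4
import Pool.Agent.H281R3.HT.Group

/-!
# Products of several polarized varieties
-/

set_option autoImplicit false
set_option linter.unusedSectionVars false

open CategoryTheory AlgebraicGeometry Finset

universe u v u₀ v₀

namespace Pool.Agent.H62FV

open Pool.Agent.H914 Pool.Agent.H914.VarClass Pool.Agent.H914.VarClass.Obj
  Pool.Agent.H914.WeilCohomology Pool.Agent.H281R3.HT Pool.Agent.W552 Pool.Agent.TH132.A
  Pool.Agent.H24HS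

variable {k : Type u} [Field k] {𝒱 : VarClass k}

/-- The product `(⋯((P × Q₁) × Q₂)⋯) × Q_n` of polarized varieties. -/
noncomputable def tower (ops : CycleOps 𝒱) : Polarized 𝒱 → List (Polarized 𝒱) → Polarized 𝒱
  | P, [] => P
  | P, Q :: L => tower ops (P.prod ops Q) L

/-- A member of the family of a degree dividing `m`, with a positive rational multiple of its
divisor. -/
def IsMember (F : Family 𝒱) (m : ℕ) (P : Polarized 𝒱) : Prop :=
  ∃ m' N : ℕ, m' ∣ m ∧ 3 ≤ N ∧ ∃ c : ℚ, 0 < c ∧ P = ⟨F.X m' N, c • F.D m' N⟩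

variable {ops : CycleOps 𝒱} {W : WeilCohomology.{u, v} ops}

section Covers

variable {P P' Q Q' : Polarized 𝒱}

lemma covers_refl (P : Polarized 𝒱) : Covers W P P := by
  refine ⟨rfl, 𝟙 _, ⟨1, one_pos, ?_⟩, ?_⟩
  · rw [W.push_id, Rat.cast_one, one_smul]
  · rw [W.map_id]

lemma covers_prod (h : Covers W P P') (h' : Covers W Q Q') :
    Covers W (P.prod ops Q) (P'.prod ops Q') := by
  obtain ⟨hd, f, ⟨δ, hδ, hf⟩, hc⟩ := h
  obtain ⟨hd', f', ⟨δ', hδ', hf'⟩, hc'⟩ := h'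
  set g : (P.X.prod Q.X) ⟶ (P'.X.prod Q'.X) :=
    Obj.lift (fst P.X Q.X ≫ f) (snd P.X Q.X ≫ f') with hg
  have e1 : ∀ a, W.map g (W.map (fst P'.X Q'.X) a) = W.map (fst P.X Q.X) (W.map f a) := by
    intro a
    rw [← W.map_comp, hg, Obj.lift_fst, W.map_comp]
  have e2 : ∀ a, W.map g (W.map (snd P'.X Q'.X) a) = W.map (snd P.X Q.X) (W.map f' a) := by
    intro a
    rw [← W.map_comp, hg, Obj.lift_snd, W.map_comp]
  have htr : ∀ {X Y : 𝒱.Obj} {f : X ⟶ Y} {δ : ℚ}, W.push f 1 = (δ : W.K) • 1 →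
      ∀ a, W.tr X (W.map f a) = (δ : W.K) * W.tr Y a := by
    intro X Y f δ hf a
    have h1 := W.tr_push f 1 a
    rw [hf, smul_mul_assoc, one_mul, one_mul, map_smul, smul_eq_mul] at h1
    exact h1.symm
  refine ⟨?_, g, ⟨δ * δ', mul_pos hδ hδ', ?_⟩, ?_⟩
  · change P.X.dim + Q.X.dim = P'.X.dim + Q'.X.dim
    rw [hd, hd']
  · change W.push g 1 = ((δ * δ' : ℚ) : W.K) • (1 : W.H (P'.X.prod Q'.X))
    apply W.tr_ext
    intro c
    rw [W.tr_push, one_mul, smul_mul_assoc, one_mul, map_smul, smul_eq_mul]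
    refine W.kunneth_induction (p := fun c => W.tr (P.X.prod Q.X) (W.map g c) =
      ((δ * δ' : ℚ) : W.K) * W.tr (P'.X.prod Q'.X) c) ?_ ?_ c
    · intro a b ha hb
      rw [map_add, map_add, ha, hb, map_add, mul_add]
    · intro i j a _ b _
      rw [map_mul (W.map g), e1, e2, W.tr_prod, W.tr_prod, htr hf, htr hf']
      push_cast
      ring
  · change W.cl (P.X.prod Q.X) (ops.pull (fst P.X Q.X) P.D + ops.pull (snd P.X Q.X) Q.D) =
      W.map g (W.cl (P'.X.prod Q'.X) (ops.pull (fst P'.X Q'.X) P'.D +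
        ops.pull (snd P'.X Q'.X) Q'.D))
    rw [map_add, map_add, map_add, W.cl_pull, W.cl_pull, W.cl_pull, W.cl_pull, e1, e2, hc, hc']

lemma covers_tower {L L' : List (Polarized 𝒱)} (hL : List.Forall₂ (Covers W) L L')
    (h : Covers W P P') : Covers W (tower ops P L) (tower ops P' L') := by
  induction hL generalizing P P' with
  | nil => exact h
  | cons hQ _ ih => exact ih (covers_prod h hQ)

lemma covers_trans {P Q R : Polarized 𝒱} (h : Covers W P Q) (h' : Covers W Q R) :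
    Covers W P R := by
  obtain ⟨hd, f, ⟨δ, hδ, hf⟩, hc⟩ := h
  obtain ⟨hd', f', ⟨δ', hδ', hf'⟩, hc'⟩ := h'
  refine ⟨hd.trans hd', f ≫ f', ⟨δ * δ', mul_pos hδ hδ', ?_⟩, ?_⟩
  · rw [W.push_comp, hf, map_smul, hf', smul_smul]
    push_cast
    rfl
  · rw [W.map_comp, ← hc', hc]

end Covers

section Frames

variable {F : Family 𝒱} {m : ℕ} [NeZero m] [IsAlgClosed W.K] {σ : W.K →+* ℂ}

/-- Frames for the members of degree `m`. -/
lemma exists_list (hF : IsFermat W σ F m) {L : List (Polarized 𝒱)}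
    (hL : ∀ P ∈ L, ∃ N : ℕ, 3 ≤ N ∧ ∃ c : ℚ, 0 < c ∧ P = ⟨F.X m N, c • F.D m N⟩) :
    ∃ L' : List (Cx W), FList F m L' ∧ ∀ P : Polarized 𝒱,
      tower ops P L = ⟨cObj L' P.X, cDiv L' P.D⟩ := by
  induction L with
  | nil => exact ⟨[], fun U hU => by simp at hU, fun P => rfl⟩
  | cons Q L ih =>
    obtain ⟨L', hL', ht⟩ := ih (fun P hP => hL P (List.mem_cons_of_mem _ hP))
    obtain ⟨N, hN, c, hc, rfl⟩ := hL Q List.mem_cons_self
    obtain ⟨f, hf⟩ := exists_fv hF hN hc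
    refine ⟨⟨F.X m N, c • F.D m N, f⟩ :: L', ?_, fun P => ?_⟩
    · intro U hU
      rcases List.mem_cons.1 hU with rfl | hU
      · exact ⟨N, hN, _, f, hf, rfl⟩
      · exact hL' U hU
    · exact ht (P.prod ops ⟨F.X m N, c • F.D m N⟩)

end Frames

lemma pos_of_tt_nil {F : Family 𝒱} {m : ℕ} [NeZero m] [IsAlgClosed W.K] {σ : W.K →+* ℂ}
    (h : TT σ F m ([] : List (Cx W))) {N : ℕ} (hN : 3 ≤ N) {D : (F.X m N).Cycles}
    {f : Module.End W.K (W.H (F.X m N))} (hf : FV W F m N D f) {a : Fin N → ZMod m} (ha : Adm a)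
    {z : W.H (F.X m N)} (hz : AS W _ z) (hz0 : prj σ (rho W F m N) a z ≠ 0) :
    0 < (σ (bf W _ D f (prj σ (rho W F m N) a z) (prj σ (rho W F m N) (-a) z))).re := by
  have h1 : prjL σ (rho W F m N) a z ≠ 0 → 0 < (σ (bf W _ D f (prjL σ (rho W F m N) a z)
      (prjL σ (rho W F m N) (-a) z))).re := h N hN D f hf a ha z hz
  rw [prjL_apply, prjL_apply] at h1
  exact h1 hz0

/-- The conjectures on the products of members of degree `m`. -/
theorem tower_of_tt {F : Family 𝒱} {m : ℕ} [NeZero m] [IsAlgClosed W.K] {σ : W.K →+* ℂ}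
    (hm : 1 < m) (hF : IsFermat W σ F m) {M : Maps F} (hM : IsMaps W F M m) {p : ℕ}
    (hp : p.Coprime m) (hA : IsArith W σ F p m) (h : TT σ F m ([] : List (Cx W))) {N : ℕ}
    (hN : 3 ≤ N) {c : ℚ} (hc : 0 < c) {L : List (Polarized 𝒱)}
    (hL : ∀ P ∈ L, ∃ N : ℕ, 3 ≤ N ∧ ∃ c : ℚ, 0 < c ∧ P = ⟨F.X m N, c • F.D m N⟩) :
    HodgeType W (tower ops ⟨F.X m N, c • F.D m N⟩ L).X (tower ops ⟨F.X m N, c • F.D m N⟩ L).D ∧
      HomEqNum W (tower ops ⟨F.X m N, c • F.D m N⟩ L).X := by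
  obtain ⟨L', hL', ht⟩ := exists_list hF hL
  rw [ht]
  obtain ⟨f, hf⟩ := exists_fv hF hN hc
  obtain ⟨f₄, hf₄⟩ := exists_fv hF (N := 4) (by norm_num) (c := 1) one_pos
  -- an algebraic class on the surface
  have h1 : (1 : ZMod m) ≠ 0 := by
    have : Fact (1 < m) := ⟨hm⟩
    exact one_ne_zero
  obtain ⟨a, ha⟩ : ∃ a : Fin 4 → ZMod m, ms a = {1, -1, 1, -1} :=
    exists_ms ({1, -1, 1, -1} : Multiset (ZMod m))
  have hsT := H916T.surface_of hp h1 (neg_ne_zero.2 h1) h1 (neg_ne_zero.2 h1) (by ring)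
    (fun t => by rw [mul_neg, H916T.W_neg]; ring)
  have hadm : Adm a := adm_iff.2 (by rw [ha]; exact ⟨hsT.1.1, hsT.1.2.2.1⟩)
  obtain ⟨z, hz, hz0⟩ := hA.surface a (by rw [ha]; exact hsT.1)
  have hv : AS W (F.X m 4) (W.cl _ z) := AS.of ⟨z, hz, rfl⟩
  have hpos' := pos_of_tt_nil h (by norm_num) hf₄ hadm hv hz0
  have hTT : TT σ F m (⟨F.X m N, c • F.D m N, f⟩ :: L') := by
    refine tt_all hF hM h ?_
    intro U hU
    rcases List.mem_cons.1 hU with rfl | hU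
    · exact ⟨N, hN, _, f, hf, rfl⟩
    · exact hL' U hU
  have key : ∀ y, AS W (cObj L' (F.X m N)) y → y ≠ 0 →
      ∃ q : ℚ, 0 < q ∧ cB L' (c • F.D m N) f y y = q :=
    fun y hy hy0 => pos_of_tt hL'.fr hf hTT hf₄ hadm hv hpos' hy hy0
  have hfr : Fr W (cObj L' (F.X m N)) (cDiv L' (c • F.D m N)) (cLow L' f) := cFr hL'.fr hf.fr
  exact ⟨fun j hj z hz => (hfr.hodge hz (key _ (AS.of ⟨z, hz, rfl⟩))).1 hj,
    fun j hj z hz => (hfr.hodge hz (key _ (AS.of ⟨z, hz, rfl⟩))).2 hj⟩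

end Pool.Agent.H62FV
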